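import Pool.Agent.Work.MP_74738e_an.Pos.Stmts

/-! Bundle of small proof modules (one section per former module). -/

section

/-!
# A4: batches of shears
-/

namespace Pool.MP74738e.Pos

open Filter Topology Set Metric Pool.MP74738e
open scoped ENNReal NNReal

namespace Bat

lemma ix_ne {d : ℕ} [NeZero d] {a b : ℕ} (h1 : a < b) (h2 : b < a + d) : ix d a ≠ ix d b := by
  intro h
  have h3 : a % d = b % d := by
    have := congrArg Fin.val h
    simpa [ix] using this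
  have h4 : (b - a) % d = 0 := (Nat.modEq_iff_dvd' h1.le).mp h3 |> Nat.mod_eq_zero_of_dvd
  rw [Nat.mod_eq_of_lt (by omega)] at h4
  omega

lemma norm_le {d : ℕ} {x : V d} {c : ℝ} (hc : 0 ≤ c) (h : ∀ i, |x i| ≤ c) : ‖x‖ ≤ c :=
  (pi_norm_le_iff_of_nonneg hc).mpr fun i => by rw [Real.norm_eq_abs]; exact h i

lemma le_norm {d : ℕ} (x : V d) (i : Fin d) : |x i| ≤ ‖x‖ := by
  rw [← Real.norm_eq_abs]; exact norm_le_pi_norm x i

lemma main (hs : StShear) (d : ℕ) [NeZero d] (_hd : 2 ≤ d) (ρ A B : ℝ) (o : ℕ) (g : ℕ → ℝ → ℝ)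
    (hρ : 0 < ρ) (hA : A ≤ ρ / 2) (hB : 0 ≤ B)
    (hg : ∀ j, 1 ≤ j → j < d → (∀ t, |g j t| ≤ A) ∧ ∀ s t, |g j s - g j t| ≤ B * |s - t|)
    (hA0 : 0 ≤ A) (n : ℕ) (hn : n < d) :
    ∃ h : V d ≃ V d, (∀ x, h x = bat ρ o g n x) ∧
    (∃ L : ℝ, 0 ≤ L ∧ ∀ x y, ‖h x - h y‖ ≤ L * ‖x - y‖) ∧
    (∀ (D D' : ℝ) (x y : V d), 0 ≤ D → D ≤ D' → (∀ j < n, |x (ix d (o + j)) -
      y (ix d (o + j))| ≤ D) → ‖x - y‖ ≤ D' →
      ‖h.symm x - h.symm y‖ ≤ 2 ^ n * D' + (2 ^ n - 1) * (2 * B * D)) ∧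
    (∀ x i, |h.symm x i - x i| ≤ A) ∧
    (∀ x i, (∀ j, 1 ≤ j → j ≤ n → i ≠ ix d (o + j)) → h.symm x i = x i) ∧
    ∀ x, 2 * ρ ≤ ‖x‖ → h x = x := by
  induction n with
  | zero =>
    refine ⟨Equiv.refl _, fun x => rfl, ⟨1, zero_le_one, fun x y => by simp⟩, ?_, ?_, ?_, ?_⟩
    · intro D D' x y _ _ _ h
      simpa using h
    · intro x i; simpa using hA0
    · intro x i _; rfl
    · intro x _; rfl
  | succ n ih =>
    obtain ⟨h, h1, ⟨L, hL0, hL⟩, h3, h4, h5, h6⟩ := ih (by omega)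
    have hgn := hg (n + 1) (by omega) hn
    have hne : ix d (o + n) ≠ ix d (o + n + 1) := ix_ne (by omega) (by omega)
    obtain ⟨s, s1, s2, s3, s4, s5, s6⟩ := hs d ρ A B (ix d (o + n + 1)) (ix d (o + n)) (g (n + 1))
      hρ hA hB hgn.1 hgn.2 (Or.inl hne)
    refine ⟨h.trans s, ?_, ⟨(2 + B) * L, by positivity, ?_⟩, ?_, ?_, ?_, ?_⟩
    · intro x
      rw [Equiv.trans_apply, s1, h1]; rfl
    · intro x y
      rw [Equiv.trans_apply, Equiv.trans_apply]
      refine (s2 _ _).trans ?_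
      rw [mul_assoc]
      exact mul_le_mul_of_nonneg_left (hL x y) (by positivity)
    · intro D D' x y hD0 hDD hj hxy
      rw [Equiv.symm_trans_apply, Equiv.symm_trans_apply]
      have hBD : 0 ≤ 2 * B * D := by positivity
      have e1 : ‖s.symm x - s.symm y‖ ≤ 2 * D' + 2 * B * D := by
        refine norm_le (by linarith) fun i => ?_
        by_cases hi : i = ix d (o + n + 1)
        · subst hi
          have e2 := s3 x y
          have e3 := hj n (by omega)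
          rw [Pi.sub_apply]
          have e4 : 2 * B * |x (ix d (o + n)) - y (ix d (o + n))| ≤ 2 * B * D :=
            mul_le_mul_of_nonneg_left e3 (by positivity)
          linarith
        · rw [Pi.sub_apply, s5 x i hi, s5 y i hi]
          have e2 := le_norm (x - y) i
          rw [Pi.sub_apply] at e2
          linarith
      have e2 := h3 D (2 * D' + 2 * B * D) (s.symm x) (s.symm y) hD0 (by linarith) (by
        intro j hjn
        have hne2 : ix d (o + j) ≠ ix d (o + n + 1) := ix_ne (by omega) (by omega)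
        rw [s5 x _ hne2, s5 y _ hne2]
        exact hj j (by omega)) e1
      refine e2.trans (le_of_eq ?_)
      ring
    · intro x i
      rw [Equiv.symm_trans_apply]
      by_cases hi : i = ix d (o + n + 1)
      · rw [h5 (s.symm x) i (by
          intro j hj1 hjn
          rw [hi]
          exact (ix_ne (by omega) (by omega)).symm)]
        have e2 := le_norm (s.symm x - x) i
        rw [Pi.sub_apply] at e2
        exact e2.trans (s4 x)
      · have e2 := h4 (s.symm x) i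
        rwa [s5 x i hi] at e2
    · intro x i hi
      rw [Equiv.symm_trans_apply, h5 (s.symm x) i (fun j hj1 hjn => hi j hj1 (by omega)),
        s5 x i (hi (n + 1) (by omega) le_rfl)]
    · intro x hx
      rw [Equiv.trans_apply, h6 x hx, s6 x hx]

end Bat

open Bat in
theorem I_Bat (hs : StShear) : StBat := by
  intro d _ hd ρ A B o g hρ hA hB hg n hn
  have hA0 : 0 ≤ A := (abs_nonneg _).trans ((hg 1 le_rfl (by omega)).1 0)
  obtain ⟨h, h1, ⟨L, _, hL⟩, h3, h4, _, h6⟩ := main hs d hd ρ A B o g hρ hA hB hg hA0 n hn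
  refine ⟨h, h1, ⟨L, hL⟩, ?_, ?_, h6⟩
  · intro x y
    have e1 := h3 ‖x - y‖ ‖x - y‖ x y (norm_nonneg _) le_rfl (fun j _ => by
      have := le_norm (x - y) (ix d (o + j))
      rwa [Pi.sub_apply] at this) le_rfl
    have e2 : (2 : ℝ) ^ n ≤ 2 ^ d := pow_le_pow_right₀ (by norm_num) hn.le
    have e3 : 0 ≤ ‖x - y‖ := norm_nonneg _
    have e4 : (1 : ℝ) ≤ 2 ^ n := one_le_pow₀ (by norm_num)
    have e5 : 0 ≤ B * ‖x - y‖ := by positivity
    have e6 : (2 : ℝ) ^ n * ‖x - y‖ ≤ 2 ^ d * ‖x - y‖ := mul_le_mul_of_nonneg_right e2 e3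
    have e7 : (2 : ℝ) ^ n * (B * ‖x - y‖) ≤ 2 ^ d * (B * ‖x - y‖) :=
      mul_le_mul_of_nonneg_right e2 e5
    have e8 : (2 : ℝ) ^ n * ‖x - y‖ + (2 ^ n - 1) * (2 * B * ‖x - y‖) =
        2 ^ n * ‖x - y‖ + 2 * (2 ^ n * (B * ‖x - y‖)) - 2 * (B * ‖x - y‖) := by ring
    have e9 : (2 : ℝ) ^ d * (1 + 2 * B) * ‖x - y‖ =
        2 ^ d * ‖x - y‖ + 2 * (2 ^ d * (B * ‖x - y‖)) := by ring
    linarith
  · intro x
    refine norm_le hA0 fun i => ?_
    rw [Pi.sub_apply]
    exact h4 x i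

end Pool.MP74738e.Pos

end

section

/-!
# MP_74738e_an, item BatC: continuity and splitting of batches
-/

namespace Pool.MP74738e.Pos

open Filter Topology Set Metric Pool.MP74738e
open scoped ENNReal NNReal

namespace BatC

theorem cut_cont {d : ℕ} (ρ : ℝ) : Continuous (cut (d := d) ρ) := by
  unfold cut
  fun_prop

theorem sh_cont {d : ℕ} (ρ : ℝ) (l a : Fin d) {g : ℝ → ℝ} (hg : Continuous g) :
    Continuous (sh ρ l a g) := by
  unfold sh
  refine continuous_id.update l ?_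
  exact (continuous_apply l).add ((cut_cont ρ).mul (hg.comp (continuous_apply a)))

end BatC

theorem I_BatC : StBatC := by
  intro d _ ρ o g _ hg
  refine ⟨?_, ?_, ?_⟩
  · intro n
    induction n with
    | zero => exact continuous_id
    | succ n ih => exact (BatC.sh_cont ρ _ _ (hg (n + 1))).comp ih
  · intro n m x
    induction m with
    | zero => rfl
    | succ m ih =>
      change sh ρ (ix d (o + (n + m) + 1)) (ix d (o + (n + m))) (g (n + m + 1))
        (bat ρ o g (n + m) x) = sh ρ (ix d (o + n + m + 1)) (ix d (o + n + m))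
        (g (n + (m + 1))) (bat ρ (o + n) (fun j => g (n + j)) m (bat ρ o g n x))
      rw [ih, Nat.add_assoc o n m, Nat.add_assoc n m 1]
  · intro n x i hi
    change Function.update (bat ρ o g n x) (ix d (o + n + 1)) _ i = _
    exact Function.update_of_ne hi _ _

end Pool.MP74738e.Pos

end

section

/-! # MP_74738e_an, item Chain: the map `Λ` -/

namespace Pool.MP74738e.Pos

open Filter Topology Set Metric Pool.MP74738e
open scoped ENNReal NNReal

namespace Chain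

theorem ix_ne {d : ℕ} [NeZero d] {i j : ℕ} (hi : 1 ≤ i) (hij : i < j) (hj : j ≤ d) :
    ix d i ≠ ix d j := by
  intro h
  have h1 : i % d = j % d := congrArg Fin.val h
  have h2 : i % d = i := Nat.mod_eq_of_lt (by omega)
  rcases Nat.lt_or_ge j d with h3 | h3
  · rw [h2, Nat.mod_eq_of_lt h3] at h1; omega
  · have h4 : j = d := by omega
    rw [h2, h4, Nat.mod_self] at h1; omega

theorem ix_self {d : ℕ} [NeZero d] : ix d d = ix d 0 := by
  apply Fin.ext
  simp [ix]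

theorem exists_ix {d : ℕ} [NeZero d] (i : Fin d) (hi : i ≠ ix d 0) :
    ∃ j, 1 ≤ j ∧ j < d ∧ i = ix d j := by
  refine ⟨i.val, ?_, i.isLt, ?_⟩
  · rcases Nat.eq_zero_or_pos i.val with h | h
    · exfalso
      apply hi
      apply Fin.ext
      simp [ix, h]
    · exact h
  · apply Fin.ext
    simp [ix, Nat.mod_eq_of_lt i.isLt]

theorem exists_ix' {d : ℕ} [NeZero d] (i : Fin d) : ∃ j, 1 ≤ j ∧ j ≤ d ∧ i = ix d j := by
  by_cases hi : i = ix d 0
  · refine ⟨d, Nat.pos_of_neZero d, le_rfl, ?_⟩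
    rw [ix_self]; exact hi
  · obtain ⟨j, h1, h2, h3⟩ := exists_ix i hi
    exact ⟨j, h1, h2.le, h3⟩

theorem step {d : ℕ} [NeZero d] (hz : StZig) (hc : StCut) (hb : StBatC) (hs : StSub)
    (hd : 2 ≤ d) (rc ε F H : ℝ) (z : V d) (hε : 0 < ε) (hH : 0 ≤ H) (hHF : H + F ≤ rc)
    (hF : H + ‖z‖ + 2 * ε ≤ F) (hzk : ∀ i, ∃ k : ℤ, z i = k * ε)
    (y : ℝ → V d) (s t : ℝ) (hy : ContinuousOn y (Icc s t)) (_hyH : ∀ τ ∈ Icc s t, ‖y τ‖ ≤ H)
    (n : ℕ) (hn : n + 1 ≤ d - 1) (a b : ℝ) (s0 t0 : ℝ) (hs0 : s ≤ s0) (ht0 : t0 ≤ t)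
    (h1 : ∀ τ ∈ Icc s0 t0, ∀ j, n + 2 ≤ j → j ≤ d →
      |bat rc 1 (fun _ => zig ε F) n (y τ) (ix d j)| ≤ H)
    (h2 : ∀ τ ∈ Icc s0 t0, ‖bat rc 1 (fun _ => zig ε F) n (y τ)‖ ≤ H + F)
    (h3 : ∀ τ ∈ Icc s0 t0, ∀ j, 1 ≤ j → j ≤ n →
      z (ix d j) ≤ bat rc 1 (fun _ => zig ε F) n (y τ) (ix d j) ∧
      bat rc 1 (fun _ => zig ε F) n (y τ) (ix d j) ≤ z (ix d j) + ε / 2)
    (ha : a ≤ z (ix d (n + 1))) (hb' : z (ix d (n + 1)) + ε / 2 ≤ b)
    (h4 : Cro (fun τ => bat rc 1 (fun _ => zig ε F) n (y τ) (ix d (n + 1))) s0 t0 a b) :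
    ∃ s1 t1, s ≤ s1 ∧ t1 ≤ t ∧
    (∀ τ ∈ Icc s1 t1, ∀ j, n + 3 ≤ j → j ≤ d →
      |bat rc 1 (fun _ => zig ε F) (n + 1) (y τ) (ix d j)| ≤ H) ∧
    (∀ τ ∈ Icc s1 t1, ‖bat rc 1 (fun _ => zig ε F) (n + 1) (y τ)‖ ≤ H + F) ∧
    (∀ τ ∈ Icc s1 t1, ∀ j, 1 ≤ j → j ≤ n + 1 →
      z (ix d j) ≤ bat rc 1 (fun _ => zig ε F) (n + 1) (y τ) (ix d j) ∧
      bat rc 1 (fun _ => zig ε F) (n + 1) (y τ) (ix d j) ≤ z (ix d j) + ε / 2) ∧
    Cro (fun τ => bat rc 1 (fun _ => zig ε F) (n + 1) (y τ) (ix d (n + 2))) s1 t1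
      (H - F) (F - H) := by
  have hnz : 0 ≤ ‖z‖ := norm_nonneg z
  have hF0 : 0 ≤ F := by linarith
  have hrc : 0 < rc := by linarith
  obtain ⟨z1, z2, z3, z4⟩ := hz ε F hε hF0
  have hzc : Continuous (zig ε F) := by
    have hL : LipschitzWith (Real.toNNReal (4 * F / ε)) (zig ε F) := by
      apply LipschitzWith.of_dist_le_mul
      intro u v
      rw [Real.dist_eq, Real.dist_eq, Real.coe_toNNReal _ (by positivity)]
      exact z2 u v
    exact hL.continuous
  obtain ⟨c1, -, c3⟩ := hb d rc 1 (fun _ => zig ε F) hrc (fun _ => hzc)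
  have hne : (ix d (n + 1)) ≠ ix d (n + 2) := ix_ne (by omega) (by omega) (by omega)
  -- the exact crossing
  have hcro : Cro (fun τ => bat rc 1 (fun _ => zig ε F) n (y τ) (ix d (n + 1))) s0 t0
      (z (ix d (n + 1))) (z (ix d (n + 1)) + ε / 2) := by
    obtain ⟨q1, q2, q3⟩ := h4
    refine ⟨q1, q2, ?_⟩
    rcases q3 with ⟨q4, q5⟩ | ⟨q4, q5⟩
    · exact Or.inl ⟨q4.trans ha, hb'.trans q5⟩
    · exact Or.inr ⟨q4.trans ha, hb'.trans q5⟩
  obtain ⟨s1, t1, r1, r2, r3, r4, r5⟩ := hs _ s0 t0 _ _ hcro (by linarith)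
  have hsub : Icc s1 t1 ⊆ Icc s0 t0 := Icc_subset_Icc r1 r3
  -- the formula for the new coordinate
  have hnew : ∀ τ, bat rc 1 (fun _ => zig ε F) (n + 1) (y τ) (ix d (n + 2)) =
      bat rc 1 (fun _ => zig ε F) n (y τ) (ix d (n + 2)) +
        cut rc (bat rc 1 (fun _ => zig ε F) n (y τ)) *
          zig ε F (bat rc 1 (fun _ => zig ε F) n (y τ) (ix d (n + 1))) := by
    intro τ
    have e1 : 1 + n + 1 = n + 2 := by omega
    have e2 : 1 + n = n + 1 := by omega
    show sh rc (ix d (1 + n + 1)) (ix d (1 + n)) (zig ε F) _ (ix d (n + 2)) = _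
    rw [e1, e2]
    simp [sh]
  have hold : ∀ τ i, i ≠ ix d (n + 2) → bat rc 1 (fun _ => zig ε F) (n + 1) (y τ) i =
      bat rc 1 (fun _ => zig ε F) n (y τ) i := by
    intro τ i hi
    apply c3
    have e1 : 1 + n + 1 = n + 2 := by omega
    rw [e1]; exact hi
  have hcut : ∀ τ ∈ Icc s1 t1, cut rc (bat rc 1 (fun _ => zig ε F) n (y τ)) = 1 := by
    intro τ hτ
    have := (hc d rc hrc (bat rc 1 (fun _ => zig ε F) n (y τ)) 0).2.2.2.1
    exact this ((h2 τ (hsub hτ)).trans hHF)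
  refine ⟨s1, t1, hs0.trans r1, r3.trans ht0, ?_, ?_, ?_, ?_⟩
  · intro τ hτ j hj1 hj2
    rw [hold τ _ (ix_ne (by omega) (by omega : n + 2 < j) hj2).symm]
    exact h1 τ (hsub hτ) j (by omega) hj2
  · intro τ hτ
    rw [pi_norm_le_iff_of_nonneg (by linarith)]
    intro i
    rw [Real.norm_eq_abs]
    by_cases hi : i = ix d (n + 2)
    · rw [hi, hnew τ, hcut τ hτ, one_mul]
      have q1 := h1 τ (hsub hτ) (n + 2) le_rfl (by omega)
      have q2 := z1 (bat rc 1 (fun _ => zig ε F) n (y τ) (ix d (n + 1)))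
      calc |bat rc 1 (fun _ => zig ε F) n (y τ) (ix d (n + 2)) + zig ε F _|
          ≤ _ := abs_add_le _ _
        _ ≤ H + F := add_le_add q1 q2
    · rw [hold τ i hi]
      have := norm_le_pi_norm (bat rc 1 (fun _ => zig ε F) n (y τ)) i
      rw [Real.norm_eq_abs] at this
      exact this.trans (h2 τ (hsub hτ))
  · intro τ hτ j hj1 hj2
    rw [hold τ _ (ix_ne hj1 (by omega : j < n + 2) (by omega))]
    rcases Nat.lt_or_ge j (n + 1) with hj | hj
    · exact h3 τ (hsub hτ) j hj1 (by omega)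
    · have hj' : j = n + 1 := by omega
      rw [hj']
      exact r5 τ hτ
  · refine ⟨r2, ?_, ?_⟩
    · have hyc : ContinuousOn y (Icc s1 t1) :=
        hy.mono (Icc_subset_Icc (hs0.trans r1) (r3.trans ht0))
      exact ((continuous_apply (ix d (n + 2))).comp (c1 (n + 1))).comp_continuousOn hyc
    · have hs1m : s1 ∈ Icc s1 t1 := ⟨le_rfl, r2⟩
      have ht1m : t1 ∈ Icc s1 t1 := ⟨r2, le_rfl⟩
      obtain ⟨k, hk⟩ := hzk (ix d (n + 1))
      have ws := h1 s1 (hsub hs1m) (n + 2) le_rfl (by omega)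
      have wt := h1 t1 (hsub ht1m) (n + 2) le_rfl (by omega)
      rw [abs_le] at ws wt
      rcases r4 with ⟨q1, q2⟩ | ⟨q1, q2⟩
      · left
        constructor
        · show bat rc 1 (fun _ => zig ε F) (n + 1) (y s1) (ix d (n + 2)) ≤ H - F
          have q1' : bat rc 1 (fun _ => zig ε F) n (y s1) (ix d (n + 1)) = k * ε := by
            rw [← hk]; exact q1
          rw [hnew s1, hcut s1 hs1m, one_mul, q1', z3 k]
          linarith [ws.2]
        · show F - H ≤ bat rc 1 (fun _ => zig ε F) (n + 1) (y t1) (ix d (n + 2))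
          have q2' : bat rc 1 (fun _ => zig ε F) n (y t1) (ix d (n + 1)) = k * ε + ε / 2 := by
            rw [← hk]; exact q2
          rw [hnew t1, hcut t1 ht1m, one_mul, q2', z4 k]
          linarith [wt.1]
      · right
        constructor
        · show bat rc 1 (fun _ => zig ε F) (n + 1) (y t1) (ix d (n + 2)) ≤ H - F
          have q1' : bat rc 1 (fun _ => zig ε F) n (y t1) (ix d (n + 1)) = k * ε := by
            rw [← hk]; exact q2
          rw [hnew t1, hcut t1 ht1m, one_mul, q1', z3 k]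
          linarith [wt.2]
        · show F - H ≤ bat rc 1 (fun _ => zig ε F) (n + 1) (y s1) (ix d (n + 2))
          have q2' : bat rc 1 (fun _ => zig ε F) n (y s1) (ix d (n + 1)) = k * ε + ε / 2 := by
            rw [← hk]; exact q1
          rw [hnew s1, hcut s1 hs1m, one_mul, q2', z4 k]
          linarith [ws.1]

end Chain

open Chain in
theorem I_Chain (hz : StZig) (hc : StCut) (hb : StBatC) (hs : StSub) : StChain := by
  intro d _ hd rc ε F H z hε hH hHF hF hzk y s t hy hyH hcro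
  have hnz : 0 ≤ ‖z‖ := norm_nonneg z
  have hzi : ∀ i, |z i| ≤ ‖z‖ := fun i => by
    have := norm_le_pi_norm z i
    rwa [Real.norm_eq_abs] at this
  -- induction
  have key : ∀ n, 1 ≤ n → n ≤ d - 1 → ∃ s1 t1, s ≤ s1 ∧ t1 ≤ t ∧
      (∀ τ ∈ Icc s1 t1, ∀ j, n + 2 ≤ j → j ≤ d →
        |bat rc 1 (fun _ => zig ε F) n (y τ) (ix d j)| ≤ H) ∧
      (∀ τ ∈ Icc s1 t1, ‖bat rc 1 (fun _ => zig ε F) n (y τ)‖ ≤ H + F) ∧
      (∀ τ ∈ Icc s1 t1, ∀ j, 1 ≤ j → j ≤ n →
        z (ix d j) ≤ bat rc 1 (fun _ => zig ε F) n (y τ) (ix d j) ∧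
        bat rc 1 (fun _ => zig ε F) n (y τ) (ix d j) ≤ z (ix d j) + ε / 2) ∧
      Cro (fun τ => bat rc 1 (fun _ => zig ε F) n (y τ) (ix d (n + 1))) s1 t1
        (H - F) (F - H) := by
    intro n hn1
    induction n, hn1 using Nat.le_induction with
    | base =>
      intro hd1
      refine step hz hc hb hs hd rc ε F H z hε hH hHF hF hzk y s t hy hyH 0 hd1
        (z (ix d 1)) (z (ix d 1) + ε / 2) s t le_rfl le_rfl ?_ ?_ ?_ le_rfl le_rfl hcro
      · intro τ hτ j _ _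
        have := norm_le_pi_norm (y τ) (ix d j)
        rw [Real.norm_eq_abs] at this
        exact this.trans (hyH τ hτ)
      · intro τ hτ
        have := hyH τ hτ
        show ‖y τ‖ ≤ H + F
        linarith
      · intro τ hτ j h1 h2
        omega
    | succ n hn ih =>
      intro hn2
      obtain ⟨s1, t1, a1, a2, a3, a4, a5, a6⟩ := ih (by omega)
      have hzn := hzi (ix d (n + 1))
      rw [abs_le] at hzn
      exact step hz hc hb hs hd rc ε F H z hε hH hHF hF hzk y s t hy hyH n (by omega)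
        (H - F) (F - H) s1 t1 a1 a2 a3 a4 a5 (by linarith) (by linarith) a6
  obtain ⟨s1, t1, a1, a2, a3, a4, a5, a6⟩ := key (d - 1) (by omega) le_rfl
  refine ⟨s1, t1, a1, a2, ?_, ?_⟩
  · intro τ hτ
    refine ⟨a4 τ hτ, ?_⟩
    intro i hi
    obtain ⟨j, j1, j2, j3⟩ := exists_ix i hi
    obtain ⟨b1, b2⟩ := a5 τ hτ j j1 (by omega)
    rw [j3, abs_le]
    constructor <;> linarith
  · have e : d - 1 + 1 = d := by omega
    rw [e, ix_self] at a6
    obtain ⟨q1, q2, q3⟩ := a6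
    have hz0 := hzi (ix d 0)
    rw [abs_le] at hz0
    refine ⟨q1, q2, ?_⟩
    rcases q3 with ⟨q4, q5⟩ | ⟨q4, q5⟩
    · left; constructor
      · exact q4.trans (by linarith)
      · exact le_trans (by linarith) q5
    · right; constructor
      · exact q4.trans (by linarith)
      · exact le_trans (by linarith) q5

end Pool.MP74738e.Pos

end

section

set_option autoImplicit false

namespace Pool.MP74738e.Pos

open Filter Topology Set Metric Pool.MP74738e
open scoped ENNReal NNReal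

namespace Cut

/-- truncation is `1`-Lipschitz -/
theorem trunc (a b : ℝ) : |max 0 (min 1 a) - max 0 (min 1 b)| ≤ |a - b| := by
  have h1 : |max 0 (min 1 a) - max 0 (min 1 b)| ≤ |min 1 a - min 1 b| := by
    have := abs_max_sub_max_le_max (0 : ℝ) (min 1 a) 0 (min 1 b)
    simpa using this
  have h2 : |min 1 a - min 1 b| ≤ |a - b| := by
    have := abs_min_sub_min_le_max (1 : ℝ) a 1 b
    simpa using this
  exact h1.trans h2

end Cut

theorem I_Cut : StCut := by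
  intro d ρ hρ x y
  refine ⟨le_max_left _ _, max_le zero_le_one (min_le_left _ _), ?_, ?_, ?_⟩
  · refine (Cut.trunc _ _).trans ?_
    have h1 : (2 - ‖x‖ / ρ) - (2 - ‖y‖ / ρ) = (‖y‖ - ‖x‖) / ρ := by ring
    rw [h1, abs_div, abs_of_pos hρ]
    refine div_le_div_of_nonneg_right ?_ hρ.le
    rw [norm_sub_rev]
    exact abs_norm_sub_norm_le y x
  · intro hx
    unfold cut
    have h1 : ‖x‖ / ρ ≤ 1 := by rw [div_le_one hρ]; exact hx
    rw [min_eq_left (by linarith), max_eq_right zero_le_one]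
  · intro hx
    unfold cut
    have h1 : 2 ≤ ‖x‖ / ρ := by rw [le_div_iff₀ hρ]; exact hx
    exact max_eq_left (le_trans (min_le_right _ _) (by linarith))

end Pool.MP74738e.Pos

end

section

namespace Pool.MP74738e.Pos

open Filter Topology Set Metric Pool.MP74738e
open scoped ENNReal NNReal

universe u v

namespace Den1

lemma symm_iterate {X : Type*} (T : X ≃ X) (n : ℕ) (x : X) : T.symm (T^[n + 1] x) = T^[n] x := by
  rw [Function.iterate_succ_apply']
  exact T.symm_apply_apply _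

lemma orbit_mem {X : Type*} [DecidableEq X] (T : X ≃ X) (x : X) (m : ℕ) (hm : 1 ≤ m)
    (hT : T^[m] x = x) :
    ∀ p ∈ (Finset.range m).image (fun i => T^[i] x),
      T.symm p ∈ (Finset.range m).image (fun i => T^[i] x) := by
  intro p hp
  obtain ⟨i, hi, rfl⟩ := Finset.mem_image.mp hp
  rw [Finset.mem_range] at hi
  rcases Nat.eq_zero_or_pos i with h0 | h0
  · subst h0
    refine Finset.mem_image.mpr ⟨m - 1, Finset.mem_range.mpr (by omega), ?_⟩
    have h1 := symm_iterate T (m - 1) x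
    rw [Nat.sub_add_cancel hm, hT] at h1
    exact h1.symm
  · refine Finset.mem_image.mpr ⟨i - 1, Finset.mem_range.mpr (by omega), ?_⟩
    have h1 := symm_iterate T (i - 1) x
    rw [Nat.sub_add_cancel h0] at h1
    exact h1.symm

lemma bil_symm {X : Type*} [MetricSpace X] {T : X ≃ X} {L : ℝ} (h : Bil L T) : Bil L T.symm := by
  intro a b
  have h1 := h (T.symm a) (T.symm b)
  simp only [Equiv.apply_symm_apply] at h1
  exact ⟨h1.2, h1.1⟩

end Den1

theorem I_Den1 (ha : StAtl.{u}) (hr : StChR.{u}) (hm : StMap.{u}) (hc : StCrF.{u})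
    (hn : StNear.{u}) (hg : StGrid) (he : StEnt.{u}) (hh : StHol.{u}) (hp : StPar) :
    StDen1.{u} := by
  intro X _ _ d hd hX N Φ Kf Lf α hKf hLf hα hαd T L hTL x m hm1 hTm δ η hδ hη
  classical
  have : NeZero d := ⟨by omega⟩
  have hd2 : (2 : ℝ) ≤ d := by exact_mod_cast hd
  have hα1 : α < 1 := by
    by_contra hcon
    push Not at hcon
    nlinarith
  obtain ⟨O, hO⟩ : ∃ O : Finset X, O = (Finset.range m).image (fun i => T^[i] x) := ⟨_, rfl⟩
  have hOR : ∀ p ∈ O, T.symm p ∈ O := by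
    rw [hO]
    exact Den1.orbit_mem T x m hm1 hTm
  have hxO : x ∈ O := by
    rw [hO]
    exact Finset.mem_image.mpr ⟨0, Finset.mem_range.mpr (by omega), rfl⟩
  have hRL : Bil L T.symm := Den1.bil_symm hTL
  obtain ⟨K, r, e, hA, -⟩ := ha X d hX O
  obtain ⟨r1, M, Rm, hCh⟩ := hr X d O K r e hA T.symm L hRL hOR
  obtain ⟨Kb, hKb, hPar⟩ := hp d α η hd hα hα1 hη
  obtain ⟨C, hC1, hMap⟩ := hm X d hd O K r e hA T L hTL hOR r1 M Rm hCh Kb hKb
  have hC2 : 1 ≤ max C |L| := hC1.trans (le_max_left _ _)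
  obtain ⟨C', hC', hHol⟩ := hh d Kb α (max C |L|) |Lf| hd hKb hα hαd hC2 (abs_nonneg _)
  obtain ⟨hr1, hr1r, hM1, hRm⟩ := id hCh
  have hK1 : 1 ≤ K := hA.one_le
  have hr0 : 0 < r := hA.pos
  have hM0 : 0 < M := by linarith
  have hκ : 0 < 1 / (256 * M ^ 2) := by positivity
  have hρ0 : 0 < min (r1 / 3) (r / (160 * M)) := lt_min (by positivity) (by positivity)
  obtain ⟨ρ, ε, b, hε, hεη, hερ, hρρ0, hb0, hb1, hεb, hCρ, hCρ2, hκ1, hlog⟩ :=
    hPar C' (1 / (256 * M ^ 2)) K (512 * M ^ 2) (min (r1 / 3) (r / (160 * M))) δ η hκ hK1 hρ0 hδ hη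
  have hρ : 0 < ρ := hε.trans_le hερ
  have hρ1 : 3 * ρ ≤ r1 := by
    have := hρρ0.trans (min_le_left _ _)
    linarith
  have hρ2 : 160 * M * ρ ≤ r := by
    have := hρρ0.trans (min_le_right _ _)
    rw [le_div_iff₀ (by positivity)] at this
    linarith
  have hJ : 1 ≤ (d - 1) * Kb := Nat.mul_pos (by omega) hKb
  obtain ⟨a, g, hXi, hCr⟩ := hc X d hd O K r e hA T.symm hOR
    (fun p _ q _ h => T.symm.injective h) r1 M Rm hCh ρ ((d - 1) * Kb) hJ hρ hρ1 hρ2
  have hb4 : 4 ≤ b := by nlinarith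
  obtain ⟨T', G, P, hT'L, hT'eq, hG1, hG2, hP1, hP2, hForm⟩ :=
    hMap ρ ε b hε hb4 hεb hρ2 a g hXi
  obtain ⟨θ, hθ, hθF⟩ := hCr ε b hε hb0 hεb T'.symm hForm
  have hM2 : 1 ≤ M ^ 2 := by nlinarith
  have hW0 : 0 < ρ / (256 * M ^ 2) := by positivity
  have hWρ : ρ / (256 * M ^ 2) ≤ ρ := by
    rw [div_le_iff₀ (by positivity)]
    nlinarith
  have hWr : ρ / (256 * M ^ 2) + ε ≤ r := by nlinarith
  obtain ⟨L', hL'⟩ := hT'L
  obtain ⟨θ', hθ', hθS⟩ := hn X d O K r e hA ε (ρ / (256 * M ^ 2)) hε hWr T.symm hOR x hxO N Φ Kf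
    Lf α hα hKf hLf T' L' θ hL' hθ hθF
  have hC0 : 0 ≤ ρ := hρ.le
  obtain ⟨hA1, hA2⟩ := hHol X N Φ T T' P G ρ ε b hε hερ hb1
    (fun y z => (hLf y z).trans (mul_le_mul_of_nonneg_right (le_abs_self _) dist_nonneg))
    (fun y z => (hTL y z).1.trans (mul_le_mul_of_nonneg_right
      ((le_abs_self L).trans (le_max_right _ _)) dist_nonneg)) hT'eq
    (fun i hi y => (hG1 i hi y).trans (mul_le_mul_of_nonneg_right (le_max_left _ _)
      (by positivity)))
    (fun i hi y z => (hG2 i hi y z).trans (mul_le_mul_of_nonneg_right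
      (mul_le_mul_of_nonneg_right (le_max_left _ _) (by linarith)) dist_nonneg))
    (fun y => (hP1 y).trans (mul_le_mul_of_nonneg_right (le_max_left _ _) hC0))
    (fun y z => (hP2 y z).trans (mul_le_mul_of_nonneg_right
      (mul_le_mul_of_nonneg_right (le_max_left _ _) (by positivity)) dist_nonneg))
  refine ⟨T', ⟨L', hL'⟩, fun y => (hA1 y).trans hCρ, fun y z => (hA2 y z).trans
    (mul_le_mul_of_nonneg_right hCρ2 (Real.rpow_nonneg dist_nonneg _)), θ', hθ', ε / K,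
    div_pos hε (by linarith), ?_, ?_⟩
  · rw [div_lt_iff₀ (by linarith)]
    nlinarith
  · intro S hS hSθ
    have hItb := hθS S hS hSθ
    obtain ⟨Fs, hFs, hcard, hsep⟩ := hg d ε (ρ / (256 * M ^ 2)) hε hW0.le
    have hWe : 1 / (256 * M ^ 2) * ρ / (4 * ε) = ρ / (256 * M ^ 2) / (4 * ε) := by
      ring
    rw [hWe] at hκ1 hlog
    have hpow : 1 ≤ (ρ / (256 * M ^ 2) / (4 * ε)) ^ d := one_le_pow₀ hκ1
    have hne : Fs.Nonempty := by
      rw [← Finset.card_pos]
      have : (0 : ℝ) < Fs.card := by linarith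
      exact_mod_cast this
    have h1 := he X d O K r e hA ε (ρ / (256 * M ^ 2)) hε hWr T.symm S.1 hOR x hxO hItb Fs hne
      (fun z hz => (hFs z).mp hz) hsep
    refine le_trans ?_ h1
    rw [EReal.coe_le_coe_iff]
    exact hlog.trans (Real.log_le_log (by linarith) hcard)

end Pool.MP74738e.Pos

end

section

/-!
# MP_74738e_an, the positive half: entropy from itineraries (item Ent)
-/

namespace Pool.MP74738e.Pos

open Filter Topology Set Metric Pool.MP74738e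
open scoped ENNReal NNReal

universe u v

namespace Ent

theorem iter_mem {X : Type u} {O : Finset X} {R : X → X} (hR : ∀ p ∈ O, R p ∈ O) {p : X}
    (hp : p ∈ O) (i : ℕ) : R^[i] p ∈ O := by
  induction i with
  | zero => exact hp
  | succ n ih =>
    rw [Function.iterate_succ_apply']
    exact hR _ ih

theorem sep {X : Type u} [MetricSpace X] {d : ℕ} {O : Finset X} {K r : ℝ} {e : X → V d → X}
    (hA : Atl d O K r e) {ε W : ℝ} (hε : 0 < ε) (hW : W + ε ≤ r) {q : X} (hq : q ∈ O)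
    {z z' u u' : V d} (hz : ‖z‖ ≤ W) (hz' : ‖z'‖ ≤ W) (hu : ‖u - z‖ ≤ ε) (hu' : ‖u' - z'‖ ≤ ε)
    (hzz : 4 * ε ≤ ‖z - z'‖) : ε / K < dist (e q u) (e q u') := by
  have hK : 0 < K := lt_of_lt_of_le one_pos hA.one_le
  have h1 : ‖u‖ ≤ r := by
    have : ‖u‖ ≤ ‖u - z‖ + ‖z‖ := by
      have := norm_add_le (u - z) z
      rwa [sub_add_cancel] at this
    linarith
  have h2 : ‖u'‖ ≤ r := by
    have : ‖u'‖ ≤ ‖u' - z'‖ + ‖z'‖ := by
      have := norm_add_le (u' - z') z'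
      rwa [sub_add_cancel] at this
    linarith
  have h3 := hA.inv q hq u u' h1 h2
  have h4 : ‖z - z'‖ ≤ ‖u - z‖ + ‖u - u'‖ + ‖u' - z'‖ := by
    have e1 : z - z' = -(u - z) + (u - u') + (u' - z') := by abel
    rw [e1]
    refine (norm_add_le _ _).trans ?_
    refine add_le_add ((norm_add_le _ _).trans ?_) le_rfl
    rw [norm_neg]
  rw [div_lt_iff₀ hK]
  nlinarith

theorem entropy_ge {X : Type u} [MetricSpace X] (T : X → X) (δ : ℝ) (s : ℕ) (hs : 0 < s)
    (h : ∀ n : ℕ, ((s ^ (n + 1) : ℕ) : ℕ∞) ≤ sepNum T (n + 1) δ) :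
    ((Real.log s : ℝ) : EReal) ≤ scaleEntropy T δ := by
  unfold scaleEntropy
  refine le_limsup_of_frequently_le (Eventually.frequently ?_)
  filter_upwards [eventually_ge_atTop 1] with n hn
  obtain ⟨m, rfl⟩ : ∃ m, n = m + 1 := ⟨n - 1, by omega⟩
  have hnpos : (0 : ℝ) < ((m + 1 : ℕ) : ℝ) := by positivity
  have h1 : ((Real.log ((s ^ (m + 1) : ℕ) : ℝ) : ℝ) : EReal) ≤
      ENNReal.log ((sepNum T (m + 1) δ : ℕ∞) : ℝ≥0∞) := by
    have h2 : ENNReal.ofReal ((s ^ (m + 1) : ℕ) : ℝ) ≤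
        ((sepNum T (m + 1) δ : ℕ∞) : ℝ≥0∞) := by
      rw [ENNReal.ofReal_natCast]
      exact_mod_cast h m
    refine le_trans ?_ (ENNReal.log_monotone h2)
    rw [ENNReal.log_ofReal_of_pos]
    have : 0 < s ^ (m + 1) := by positivity
    exact_mod_cast this
  calc ((Real.log s : ℝ) : EReal)
      = (((Real.log ((s ^ (m + 1) : ℕ) : ℝ)) / ((m + 1 : ℕ) : ℝ) : ℝ) : EReal) := by
        congr 1
        push_cast
        rw [Real.log_pow]
        push_cast
        field_simp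
    _ = ((Real.log ((s ^ (m + 1) : ℕ) : ℝ) : ℝ) : EReal) / (((m + 1 : ℕ) : ℝ) : EReal) := by
        rw [← EReal.coe_div]
    _ ≤ ENNReal.log ((sepNum T (m + 1) δ : ℕ∞) : ℝ≥0∞) / (((m + 1 : ℕ) : ℝ) : EReal) := by
        apply EReal.div_le_div_right_of_nonneg _ h1
        exact_mod_cast hnpos.le

end Ent

open Ent in
theorem I_Ent : StEnt.{u} := by
  intro X _ d O K r e hA ε W hε hW R T hR p hp hI S hS hg hsep
  have hK : 0 < K := lt_of_lt_of_le one_pos hA.one_le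
  refine entropy_ge T (ε / K) S.card (Finset.card_pos.2 hS) fun n => ?_
  have key : ∀ w : Fin (n + 1) → S, ∃ y, ∀ i : Fin (n + 1), ∃ u, ‖u - (w i : V d)‖ ≤ ε ∧
      e (R^[(i : ℕ)] p) u = T^[n - i] y := by
    intro w
    obtain ⟨y, hy⟩ := hI (fun i => (w ⟨min i n, by omega⟩ : V d)) (fun i => hg _ (Subtype.prop _)) n
    refine ⟨y, fun i => ?_⟩
    obtain ⟨u, hu, hu'⟩ := hy i (by omega)
    refine ⟨u, ?_, hu'⟩
    have e1 : (⟨min (i : ℕ) n, by omega⟩ : Fin (n + 1)) = i := Fin.ext (by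
      show min (i : ℕ) n = i
      omega)
    rwa [e1] at hu
  choose y hy using key
  have hd : ∀ w w' : Fin (n + 1) → S, w ≠ w' → ∃ k < n + 1,
      ε / K < dist (T^[k] (y w)) (T^[k] (y w')) := by
    intro w w' hne
    obtain ⟨i, hi⟩ := Function.ne_iff.1 hne
    refine ⟨n - i, by omega, ?_⟩
    obtain ⟨u, hu, hu1⟩ := hy w i
    obtain ⟨u', hu', hu1'⟩ := hy w' i
    rw [← hu1, ← hu1']
    exact sep hA hε hW (iter_mem hR hp i) (hg _ (w i).2).1 (hg _ (w' i).2).1 hu hu'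
      (hsep _ (w i).2 _ (w' i).2 fun h => hi (Subtype.ext h))
  have hinj : Function.Injective y := by
    intro w w' h
    by_contra hne
    obtain ⟨k, -, hk⟩ := hd w w' hne
    rw [h, dist_self] at hk
    exact absurd hk (not_lt.2 (by positivity))
  have hsepE : IsSep T (n + 1) (ε / K) (Set.range y) := by
    rintro _ ⟨w, rfl⟩ _ ⟨w', rfl⟩ hne
    exact hd w w' fun h => hne (by rw [h])
  have hcard : (Set.range y).encard = ((S.card ^ (n + 1) : ℕ) : ℕ∞) := by
    rw [← Set.image_univ, hinj.encard_image, Set.encard_univ, ENat.card_eq_coe_fintype_card]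
    simp
  rw [← hcard]
  exact le_iSup (fun E : {E : Set X // IsSep T (n + 1) (ε / K) E} => E.1.encard)
    ⟨Set.range y, hsepE⟩

end Pool.MP74738e.Pos

end

section

/-!
# MP_74738e_an, item GrE: the batches of the growth map
-/

namespace Pool.MP74738e.Pos

open Filter Topology Set Metric Pool.MP74738e
open scoped ENNReal NNReal

theorem I_GrE (hz : StZig) (hb : StBat) : StGrE := by
  intro d _ hd rc ε b i hrc hε hb4 hA
  have hb0 : 0 < b := by linarith
  have hb1 : 1 ≤ b := by linarith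
  obtain ⟨h, h1, h2, h3, h4, h5⟩ := hb d hd rc (ε * b ^ ((d - 1) * (i + 1))) (4 * b)
    ((d - 1) * i) (fun j => gz ε b ((d - 1) * i + j)) hrc hA (by positivity) (by
      intro j hj1 hjd
      obtain ⟨z1, z2, _, _⟩ := hz (ε * b ^ ((d - 1) * i + j - 1)) (ε * b ^ ((d - 1) * i + j))
        (by positivity) (by positivity)
      refine ⟨fun t => (z1 t).trans ?_, fun s t => (z2 s t).trans (le_of_eq ?_)⟩
      · refine mul_le_mul_of_nonneg_left (pow_le_pow_right₀ hb1 ?_) hε.le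
        rw [Nat.mul_add, Nat.mul_one]
        omega
      · congr 1
        have e : (d - 1) * i + j = ((d - 1) * i + j - 1) + 1 := by omega
        have e2 : b ^ ((d - 1) * i + j) = b ^ ((d - 1) * i + j - 1) * b := by
          conv_lhs => rw [e]
          rw [pow_succ]
        rw [e2]
        have hp : b ^ ((d - 1) * i + j - 1) ≠ 0 := (pow_pos hb0 _).ne'
        field_simp) (d - 1) (by omega)
  refine ⟨h, h1, h2, ?_, h4, h5⟩
  intro x y
  refine (h3 x y).trans (le_of_eq ?_)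
  ring

end Pool.MP74738e.Pos

end

section

/-!
# MP_74738e_an, item Int: interpolation
-/

namespace Pool.MP74738e.Pos

open Filter Topology Set Metric Pool.MP74738e
open scoped ENNReal NNReal

universe u

theorem I_Int : StInt.{u} := by
  intro X _ N F s L α hα hα1 hs hL hF hlip x y
  have h1 : ‖F x - F y‖ ≤ 2 * s := by
    have := norm_sub_le (F x) (F y)
    have h2 := hF x
    have h3 := hF y
    linarith
  have h2 := hlip x y
  have h0 : 0 ≤ ‖F x - F y‖ := norm_nonneg _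
  have hm : ‖F x - F y‖ = ‖F x - F y‖ ^ (1 - α) * ‖F x - F y‖ ^ α := by
    rcases h0.eq_or_lt with h3 | h3
    · rw [← h3, Real.zero_rpow hα.ne', mul_zero]
    · rw [← Real.rpow_add h3, sub_add_cancel, Real.rpow_one]
  calc ‖F x - F y‖ = ‖F x - F y‖ ^ (1 - α) * ‖F x - F y‖ ^ α := hm
    _ ≤ (2 * s) ^ (1 - α) * (L * dist x y) ^ α :=
        mul_le_mul (Real.rpow_le_rpow h0 h1 (by linarith)) (Real.rpow_le_rpow h0 h2 hα.le)
          (Real.rpow_nonneg h0 _) (Real.rpow_nonneg (by linarith) _)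
    _ = (2 * s) ^ (1 - α) * L ^ α * dist x y ^ α := by
        rw [Real.mul_rpow hL dist_nonneg, mul_assoc]

end Pool.MP74738e.Pos

end

section

/-!
# MP_74738e_an, the positive half, item Local: the crossing property in charts
-/

namespace Pool.MP74738e.Pos

open Filter Topology Set Metric Pool.MP74738e
open scoped ENNReal NNReal

namespace Local

/-- A function which is Lipschitz is continuous. -/
theorem cont_of_lip {f : ℝ → ℝ} {B : ℝ} (h : ∀ s t, |f s - f t| ≤ B * |s - t|) :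
    Continuous f := by
  have h' : ∀ s t, |f s - f t| ≤ |B| * |s - t| := fun s t =>
    le_trans (h s t) (mul_le_mul_of_nonneg_right (le_abs_self B) (abs_nonneg _))
  have : LipschitzWith ⟨|B|, abs_nonneg B⟩ f := by
    apply LipschitzWith.of_dist_le_mul
    intro s t
    rw [Real.dist_eq, Real.dist_eq]
    exact h' s t
  exact this.continuous

theorem cont_gz (hz : StZig) {ε b : ℝ} (hε : 0 < ε) (hb : 0 < b) (j : ℕ) :
    Continuous (gz ε b j) := by
  have h := (hz (ε * b ^ (j - 1)) (ε * b ^ j) (by positivity) (by positivity)).2.1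
  exact cont_of_lip h

/-- The numerical inequalities. -/
theorem nums {M ρ ε b : ℝ} {J : ℕ} (hM : 1 ≤ M) (hρ : 0 < ρ) (hJ : 1 ≤ J) (hε : 0 < ε)
    (hb : 512 * M ^ 2 ≤ b) (hJb : ε * b ^ J = ρ) :
    ε * b ^ (J - 1) ≤ ρ / (512 * M ^ 2) ∧ ε ≤ ρ / (512 * M ^ 2) ∧
    ρ / (256 * M ^ 2) + 2 * (ρ / (512 * M ^ 2)) = ρ / (128 * M ^ 2) ∧
    ρ / (256 * M ^ 2) ≤ ρ / (256 * M) ∧ ρ / (512 * M ^ 2) ≤ ρ / (512 * M) ∧
    ρ / (256 * M) ≤ ρ / 256 ∧ ρ / (512 * M) ≤ ρ / 512 ∧
    M * (ρ / (128 * M ^ 2)) ≤ ρ / (64 * M) := by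
  have hM0 : 0 < M := by linarith
  have hM2 : 1 ≤ M ^ 2 := one_le_pow₀ hM
  have hb1 : 1 ≤ b := by nlinarith
  have hMM : M ≤ M ^ 2 := by nlinarith
  have h1 : ε * b ^ (J - 1) * b = ρ := by
    rw [mul_assoc, ← pow_succ, Nat.sub_add_cancel hJ, hJb]
  have hpos : 0 < ε * b ^ (J - 1) := by positivity
  have h2 : ε * b ^ (J - 1) ≤ ρ / (512 * M ^ 2) := by
    rw [le_div_iff₀ (by positivity), ← h1]
    exact mul_le_mul_of_nonneg_left hb hpos.le
  refine ⟨h2, ?_, ?_, ?_, ?_, ?_, ?_, ?_⟩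
  · refine le_trans ?_ h2
    have : 1 ≤ b ^ (J - 1) := one_le_pow₀ hb1
    nlinarith
  · field_simp
    ring
  · exact div_le_div_of_nonneg_left hρ.le (by positivity) (by nlinarith)
  · exact div_le_div_of_nonneg_left hρ.le (by positivity) (by nlinarith)
  · exact div_le_div_of_nonneg_left hρ.le (by norm_num) (by nlinarith)
  · exact div_le_div_of_nonneg_left hρ.le (by norm_num) (by nlinarith)
  · have : M * (ρ / (128 * M ^ 2)) = ρ / (128 * M) := by
      field_simp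
    rw [this]
    exact div_le_div_of_nonneg_left hρ.le (by positivity) (by nlinarith)

theorem main (hz : StZig) (hc : StCut) (hb : StBatC) (hg : StGrow2) (hx : StXi)
    (hch : StChain) : StLocal := by
  intro d _ hd M ρ J hM hρ hJ Rm hR0 hR
  have hM0 : 0 < M := by linarith
  have hMρ : ρ ≤ M * ρ := by nlinarith
  -- the point q
  set sg : V d := Pi.single (ix d J) (ρ / 4) with hsg
  have hnsg : ‖sg‖ = ρ / 4 := by
    rw [hsg, Pi.norm_single, Real.norm_of_nonneg (by positivity)]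
  have hsg3 : ‖sg‖ ≤ 3 * ρ := by rw [hnsg]; linarith
  have h03 : ‖(0 : V d)‖ ≤ 3 * ρ := by rw [norm_zero]; positivity
  have hq := hR sg 0 hsg3 h03
  rw [hR0, sub_zero, sub_zero, hnsg] at hq
  obtain ⟨a, g, hok, hcr⟩ := hx d hd M ρ (Rm sg) hM hρ
    (by rw [div_le_iff₀ (by positivity)]; nlinarith [hq.2])
    (by nlinarith [hq.1])
  refine ⟨a, g, hok, ?_⟩
  intro ε b hε hb512 hJb z z' hzn hzn' hz' x s t hxc hxz hcro
  obtain ⟨n1, n2, n3, n4, n5, n6, n7, n8⟩ := nums hM hρ hJ hε hb512 hJb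
  have hb4 : 4 ≤ b := by nlinarith [one_le_pow₀ hM (n := 2)]
  have hb0 : 0 < b := by linarith
  obtain ⟨g1, ⟨τ1, hτ1, g2⟩, τ2, hτ2, g3⟩ := hg d hd (40 * M * ρ) ε b J z hε hb4 hJ
    (by rw [hJb]; nlinarith) (by rw [hJb]; linarith) x s t hxc hxz hcro
  rw [hJb] at g1 g3
  rw [← hsg] at g3
  have hd1 : ‖z‖ + 2 * (ε * b ^ (J - 1)) ≤ ρ / (128 * M ^ 2) := by linarith
  -- the path
  set Γ : ℝ → V d := fun τ => bat (40 * M * ρ) 0 (gz ε b) J (x τ) with hΓ
  have hΓ3 : ∀ τ ∈ Icc s t, ‖Γ τ‖ ≤ 3 * ρ := fun τ hτ => le_trans (g1 τ hτ) (by linarith)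
  have hΓc : ContinuousOn Γ (Icc s t) :=
    ((hb d (40 * M * ρ) 0 (gz ε b) (by positivity) (cont_gz hz hε hb0)).1 J).comp_continuousOn hxc
  set U : ℝ → V d := fun τ => Rm (Γ τ) with hU
  have hUn : ∀ τ ∈ Icc s t, ‖U τ‖ ≤ 3 * M * ρ := by
    intro τ hτ
    have h := (hR (Γ τ) 0 (hΓ3 τ hτ) h03).1
    rw [hR0, sub_zero, sub_zero] at h
    have h2 := hΓ3 τ hτ
    calc ‖U τ‖ ≤ M * ‖Γ τ‖ := h
      _ ≤ M * (3 * ρ) := mul_le_mul_of_nonneg_left h2 hM0.le
      _ = 3 * M * ρ := by ring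
  have hUc : ContinuousOn U (Icc s t) := by
    have hRc : ContinuousOn Rm {u | ‖u‖ ≤ 3 * ρ} := by
      have : LipschitzOnWith ⟨M, hM0.le⟩ Rm {u | ‖u‖ ≤ 3 * ρ} := by
        apply LipschitzOnWith.of_dist_le_mul
        intro u hu v hv
        rw [dist_eq_norm, dist_eq_norm]
        exact (hR u v hu hv).1
      exact this.continuousOn
    exact hRc.comp hΓc hΓ3
  have hu1 : ‖U τ1‖ ≤ ρ / (64 * M) := by
    have h := (hR (Γ τ1) 0 (hΓ3 τ1 hτ1) h03).1
    rw [hR0, sub_zero, sub_zero] at h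
    exact le_trans h (le_trans (mul_le_mul_of_nonneg_left (le_trans g2 hd1) hM0.le) n8)
  have hu2 : ‖U τ2 - Rm sg‖ ≤ ρ / (64 * M) := by
    have h := (hR (Γ τ2) sg (hΓ3 τ2 hτ2) hsg3).1
    exact le_trans h (le_trans (mul_le_mul_of_nonneg_left (le_trans g3 hd1) hM0.le) n8)
  have hcr' := hcr (U τ1) (U τ2) hu1 hu2
  obtain ⟨_, hgb, hgl⟩ := hok
  have hgc : Continuous g := cont_of_lip (B := 1) fun s t => by rw [one_mul]; exact hgl s t
  -- the shear
  set y : ℝ → V d := fun τ => sh (40 * M * ρ) (ix d 1) a g (U τ) with hy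
  have hyf : ∀ τ ∈ Icc s t, y τ = Function.update (U τ) (ix d 1) (U τ (ix d 1) + g (U τ a)) := by
    intro τ hτ
    have h1 := (hc d (40 * M * ρ) (by positivity) (U τ) (U τ)).2.2.2.1
      (le_trans (hUn τ hτ) (by nlinarith))
    simp only [hy, sh, h1, one_mul]
  have hyn : ∀ τ ∈ Icc s t, ‖y τ‖ ≤ 7 * M * ρ := by
    intro τ hτ
    rw [hyf τ hτ, pi_norm_le_iff_of_nonneg (by positivity)]
    intro i
    have h1 := hUn τ hτ
    by_cases hi : i = ix d 1
    · subst hi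
      rw [Function.update_self]
      calc ‖U τ (ix d 1) + g (U τ a)‖ ≤ ‖U τ (ix d 1)‖ + ‖g (U τ a)‖ := norm_add_le _ _
        _ ≤ 3 * M * ρ + 4 * M * ρ :=
            add_le_add (le_trans (norm_le_pi_norm _ _) h1) (hgb _)
        _ = 7 * M * ρ := by ring
    · rw [Function.update_of_ne hi]
      refine le_trans (le_trans (norm_le_pi_norm _ _) h1) ?_
      have : 0 < M * ρ := by positivity
      linarith
  have hyc : ContinuousOn y (Icc s t) := by
    refine ContinuousOn.congr ?_ hyf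
    rw [continuousOn_pi]
    intro i
    have hUi : ∀ j, ContinuousOn (fun τ => U τ j) (Icc s t) := fun j =>
      (continuous_apply j).comp_continuousOn hUc
    by_cases hi : i = ix d 1
    · subst hi
      simp only [Function.update_self]
      exact (hUi _).add (hgc.comp_continuousOn (hUi a))
    · simp only [Function.update_of_ne hi]
      exact hUi i
  have hy1 : ∀ τ ∈ Icc s t, y τ (ix d 1) = U τ (ix d 1) + g (U τ a) := by
    intro τ hτ
    rw [hyf τ hτ, Function.update_self]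
  have hz1 : |z' (ix d 1)| ≤ ρ / (256 * M ^ 2) := le_trans (norm_le_pi_norm z' (ix d 1)) hzn'
  rw [abs_le] at hz1
  have e16 : ρ / (16 * M) = 16 * (ρ / (256 * M)) := by field_simp; norm_num
  have e512 : ρ / (512 * M) = ρ / (256 * M) / 2 := by field_simp; norm_num
  have p256 : 0 < ρ / (256 * M) := by positivity
  have key : ∀ s1 t1, s ≤ s1 → s1 ≤ t1 → t1 ≤ t →
      ((y s1 (ix d 1) ≤ -(ρ / (16 * M)) ∧ ρ / (16 * M) ≤ y t1 (ix d 1)) ∨
       (y t1 (ix d 1) ≤ -(ρ / (16 * M)) ∧ ρ / (16 * M) ≤ y s1 (ix d 1))) →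
      ∃ s' t', s ≤ s' ∧ t' ≤ t ∧
    (∀ τ ∈ Icc s' t', ‖bat (40 * M * ρ) 0 (gz ε b) J (x τ)‖ ≤ 3 * ρ ∧
      ‖Lam (40 * M * ρ) ε (10 * M * ρ) a g (Rm (bat (40 * M * ρ) 0 (gz ε b) J (x τ)))‖
        ≤ 20 * M * ρ ∧
      ∀ i, i ≠ ix d 0 → |Lam (40 * M * ρ) ε (10 * M * ρ) a g
        (Rm (bat (40 * M * ρ) 0 (gz ε b) J (x τ))) i - z' i| ≤ ε / 2) ∧
    Cro (fun τ => Lam (40 * M * ρ) ε (10 * M * ρ) a g
      (Rm (bat (40 * M * ρ) 0 (gz ε b) J (x τ))) (ix d 0)) s' t'
      (z' (ix d 0) - 2 * ε) (z' (ix d 0) + 2 * ε) := by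
    intro s1 t1 hs1 hst1 ht1 hcross
    have hsub : Icc s1 t1 ⊆ Icc s t := Icc_subset_Icc hs1 ht1
    have hcro1 : Cro (fun τ => y τ (ix d 1)) s1 t1 (z' (ix d 1)) (z' (ix d 1) + ε / 2) := by
      refine ⟨hst1, (continuous_apply _).comp_continuousOn (hyc.mono hsub), ?_⟩
      rcases hcross with ⟨h1, h2⟩ | ⟨h1, h2⟩
      · left
        constructor <;> simp only <;> linarith
      · right
        constructor <;> simp only <;> linarith
    obtain ⟨s', t', hs', ht', hall, hcr2⟩ := hch d hd (40 * M * ρ) ε (10 * M * ρ) (7 * M * ρ) z'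
      hε (by positivity) (by nlinarith) (by nlinarith) hz' y s1 t1 (hyc.mono hsub)
      (fun τ hτ => hyn τ (hsub hτ)) hcro1
    refine ⟨s', t', le_trans hs1 hs', le_trans ht' ht1, ?_, hcr2⟩
    intro τ hτ
    have hτ' : τ ∈ Icc s t := ⟨le_trans (le_trans hs1 hs') hτ.1, le_trans hτ.2 (le_trans ht' ht1)⟩
    obtain ⟨h1, h2⟩ := hall τ hτ
    refine ⟨hΓ3 τ hτ', ?_, h2⟩
    exact le_trans h1 (by nlinarith)
  rcases le_total τ1 τ2 with h12 | h12
  · refine key τ1 τ2 hτ1.1 h12 hτ2.2 ?_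
    rw [hy1 τ1 hτ1, hy1 τ2 hτ2]
    exact hcr'
  · refine key τ2 τ1 hτ2.1 h12 hτ1.2 ?_
    rw [hy1 τ1 hτ1, hy1 τ2 hτ2]
    exact hcr'.symm

end Local

/-- B6: the crossing property in charts. -/
theorem I_Local (hz : StZig) (hc : StCut) (hb : StBatC) (hg : StGrow2) (hx : StXi)
    (hch : StChain) : StLocal := Local.main hz hc hb hg hx hch

end Pool.MP74738e.Pos

end

section

/-! MP_74738e_an, Pos, item C4: the map `T'`. -/

namespace Pool.MP74738e.Pos

open Filter Topology Set Metric Pool.MP74738e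

universe u v

namespace Map

variable {X : Type u}

/-- `E (n-1) ∘ ⋯ ∘ E 0` -/
def cmp {Y : Type u} (E : ℕ → (Y ≃ Y)) : ℕ → (Y ≃ Y)
  | 0 => Equiv.refl Y
  | n + 1 => (cmp E n).trans (E n)

theorem cmp_symm (E : ℕ → (X ≃ X)) (n : ℕ) (x : X) :
    (cmp E n).symm x = itc (fun i => ⇑(E i).symm) n x := by
  induction n generalizing x with
  | zero => rfl
  | succ n ih =>
    show (cmp E n).symm ((E n).symm x) = itc (fun i => ⇑(E i).symm) n ((E n).symm x)
    exact ih _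

theorem cmp_lip [MetricSpace X] (E : ℕ → (X ≃ X)) (n : ℕ)
    (h : ∀ i < n, ∃ L : ℝ, 0 ≤ L ∧ ∀ x y, dist (E i x) (E i y) ≤ L * dist x y) :
    ∃ L : ℝ, 0 ≤ L ∧ ∀ x y, dist (cmp E n x) (cmp E n y) ≤ L * dist x y := by
  induction n with
  | zero => exact ⟨1, zero_le_one, fun x y => by simp [cmp]⟩
  | succ n ih =>
    obtain ⟨L, hL0, hL⟩ := ih fun i hi => h i (by omega)
    obtain ⟨L', hL'0, hL'⟩ := h n (by omega)
    refine ⟨L' * L, mul_nonneg hL'0 hL0, fun x y => ?_⟩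
    show dist (E n (cmp E n x)) (E n (cmp E n y)) ≤ _
    calc _ ≤ L' * dist (cmp E n x) (cmp E n y) := hL' _ _
      _ ≤ L' * (L * dist x y) := by gcongr; exact hL _ _
      _ = _ := by ring

theorem cmp_symm_lip [MetricSpace X] (E : ℕ → (X ≃ X)) (n : ℕ)
    (h : ∀ i < n, ∃ L : ℝ, 0 ≤ L ∧ ∀ x y, dist ((E i).symm x) ((E i).symm y) ≤ L * dist x y) :
    ∃ L : ℝ, 0 ≤ L ∧ ∀ x y, dist ((cmp E n).symm x) ((cmp E n).symm y) ≤ L * dist x y := by
  induction n with
  | zero => exact ⟨1, zero_le_one, fun x y => by simp [cmp]⟩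
  | succ n ih =>
    obtain ⟨L, hL0, hL⟩ := ih fun i hi => h i (by omega)
    obtain ⟨L', hL'0, hL'⟩ := h n (by omega)
    refine ⟨L * L', mul_nonneg hL0 hL'0, fun x y => ?_⟩
    show dist ((cmp E n).symm ((E n).symm x)) ((cmp E n).symm ((E n).symm y)) ≤ _
    calc _ ≤ L * dist ((E n).symm x) ((E n).symm y) := hL _ _
      _ ≤ L * (L' * dist x y) := by gcongr; exact hL' _ _
      _ = _ := by ring

/-- Lipschitz constants may be taken to be at least one -/
theorem lip_one {d : ℕ} {h : V d → V d} (H : ∃ L : ℝ, ∀ x y, ‖h x - h y‖ ≤ L * ‖x - y‖) :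
    ∃ L : ℝ, 1 ≤ L ∧ ∀ x y, ‖h x - h y‖ ≤ L * ‖x - y‖ := by
  obtain ⟨L, hL⟩ := H
  refine ⟨max L 1, le_max_right _ _, fun x y => (hL x y).trans ?_⟩
  gcongr
  exact le_max_left _ _

/-- an equivalence which is the identity for `‖u‖ ≥ r / 2` preserves the ball of radius `r` -/
theorem pres {d : ℕ} {r : ℝ} (h : V d ≃ V d) (hs : ∀ u, r / 2 ≤ ‖u‖ → h u = u) (hr : 0 < r)
    (u : V d) (hu : ‖u‖ ≤ r) : ‖h u‖ ≤ r := by
  by_contra hcon
  push Not at hcon
  have h1 : h (h u) = h u := hs _ (by linarith)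
  have h2 : h u = u := h.injective h1
  rw [h2] at hcon
  linarith

theorem zig_cont (hz : StZig) {p A : ℝ} (hp : 0 < p) (hA : 0 ≤ A) : Continuous (zig p A) := by
  have h := (hz p A hp hA).2.1
  have hl : LipschitzWith (Real.toNNReal (4 * A / p)) (zig p A) := by
    refine LipschitzWith.of_dist_le_mul fun s t => ?_
    rw [Real.dist_eq, Real.dist_eq, Real.coe_toNNReal _ (by positivity)]
    exact h s t
  exact hl.continuous

end Map

open Map in
theorem I_Map (hz : StZig) (hb : StBatC) (hge : StGrE) (hla : StLaE) (hg : StGlue.{u}) :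
    StMap.{u} := by
  intro X _ d _ hd O K r e hA T L hT hTO r1 M Rm hR Kb hKb
  have hK := hA.one_le
  have hr := hA.pos
  obtain ⟨hr1, hr1r, hM, hRm⟩ := hR
  have hK2 : (1 : ℝ) ≤ K ^ 2 := by nlinarith
  have h2d : (1 : ℝ) ≤ 2 ^ d := one_le_pow₀ (by norm_num)
  refine ⟨6 * K ^ 2 * (2 ^ d * 400 * M), by nlinarith [mul_le_mul hK2 h2d zero_le_one (by positivity)], ?_⟩
  intro ρ ε b hε hb4 hρ hMr a g hag
  have hb1 : 1 ≤ b := by linarith
  have hρ0 : 0 < ρ := by rw [← hρ]; positivity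
  have hερ : ε ≤ ρ := by
    rw [← hρ]
    exact le_mul_of_one_le_right hε.le (one_le_pow₀ hb1)
  have hMρ : 0 < M * ρ := by positivity
  set rc : ℝ := 40 * M * ρ with hrc
  have hrc0 : 0 < rc := by positivity
  have hrcr : 2 * rc ≤ r / 2 := by rw [hrc]; linarith
  -- amplitudes
  have hamp : ∀ i < Kb, ε * b ^ ((d - 1) * (i + 1)) = ρ / b ^ ((d - 1) * (Kb - 1 - i)) := by
    intro i hi
    rw [eq_div_iff (by positivity), ← hρ, mul_assoc, ← pow_add, ← mul_add]
    congr 3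
    omega
  have hamp2 : ∀ i < Kb, ε * b ^ ((d - 1) * (i + 1)) ≤ rc / 2 := by
    intro i hi
    rw [hamp i hi]
    have h1 : ρ / b ^ ((d - 1) * (Kb - 1 - i)) ≤ ρ :=
      div_le_self hρ0.le (one_le_pow₀ hb1)
    have h2 : ρ ≤ rc / 2 := by rw [hrc]; nlinarith
    exact h1.trans h2
  choose! H hH1 hH2 hH3 hH4 hH5 using fun i (hi : i < Kb) =>
    hge d hd rc ε b i hrc0 hε hb4 (hamp2 i hi)
  choose! Q hQ1 hQ2 hQ3 hQ4 hQ5 using fun q (hq : q ∈ O) =>
    hla d hd M ρ ε (a q) (g q) hM hε hερ (hag q hq)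
  -- supports
  have hHs : ∀ i < Kb, ∀ u, r / 2 ≤ ‖u‖ → H i u = u := fun i hi u hu =>
    hH5 i hi u (hrcr.trans hu)
  have hQs : ∀ q ∈ O, ∀ u, r / 2 ≤ ‖u‖ → Q q u = u := fun q hq u hu => by
    refine hQ5 q hq u (le_trans ?_ hu)
    have : 80 * M * ρ = 2 * rc := by rw [hrc]; ring
    rw [this]
    exact hrcr
  -- glueing
  choose! E hE1 _ hE3 hE4 hE5 using fun i (hi : i < Kb) =>
    hg X d O K r e hA (fun _ => H i) (fun _ _ u hu => hHs i hi u hu)
  obtain ⟨E', hE'1, -, hE'3, hE'4, hE'5⟩ := hg X d O K r e hA Q hQs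
  have hTl : ∃ L0 : ℝ, 0 ≤ L0 ∧ (∀ x y, dist (T x) (T y) ≤ L0 * dist x y) ∧
      ∀ x y, dist (T.symm x) (T.symm y) ≤ L0 * dist x y := by
    refine ⟨|L|, abs_nonneg L, fun x y => ((hT x y).1).trans ?_, fun x y => ?_⟩
    · gcongr
      exact le_abs_self L
    · have h := (hT (T.symm x) (T.symm y)).2
      rw [T.apply_symm_apply, T.apply_symm_apply] at h
      refine h.trans ?_
      gcongr
      exact le_abs_self L
  obtain ⟨L0, hL0, hT1, hT2⟩ := hTl
  -- the constants of the glued maps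
  have hEl : ∀ i < Kb, ∃ L : ℝ, 0 ≤ L ∧ ∀ x y, dist (E i x) (E i y) ≤ L * dist x y := by
    intro i hi
    obtain ⟨L1, hL1, hL1'⟩ := lip_one (hH2 i hi)
    exact ⟨6 * K ^ 2 * L1, by positivity, hE3 i hi L1 hL1 fun _ _ => hL1'⟩
  have h1b : (1 : ℝ) ≤ 2 ^ d * (1 + 8 * b) := by nlinarith
  have hEs : ∀ i < Kb, ∀ x y, dist ((E i).symm x) ((E i).symm y) ≤
      6 * K ^ 2 * (2 ^ d * (1 + 8 * b)) * dist x y := fun i hi =>
    hE4 i hi _ h1b fun _ _ => hH3 i hi
  have hE'l : ∃ L : ℝ, 0 ≤ L ∧ ∀ x y, dist (E' x) (E' y) ≤ L * dist x y := by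
    have h1 : ∀ q ∈ O, ∃ L : ℝ, 1 ≤ L ∧ ∀ x y, ‖Q q x - Q q y‖ ≤ L * ‖x - y‖ := fun q hq =>
      lip_one (hQ2 q hq)
    choose! Lq hLq1 hLq2 using h1
    refine ⟨6 * K ^ 2 * (1 + ∑ q ∈ O, Lq q), ?_, ?_⟩
    · have : 0 ≤ ∑ q ∈ O, Lq q := Finset.sum_nonneg fun q hq => by linarith [hLq1 q hq]
      positivity
    · have h0 : ∀ q ∈ O, 0 ≤ Lq q := fun q hq => by linarith [hLq1 q hq]
      refine hE'3 _ ?_ fun q hq u v => (hLq2 q hq u v).trans ?_
      · linarith [Finset.sum_nonneg h0]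
      · gcongr
        linarith [Finset.single_le_sum h0 hq]
  have hρε : 1 ≤ ρ / ε := (one_le_div hε).2 hερ
  have h1Q : (1 : ℝ) ≤ 2 ^ d * 400 * M * (ρ / ε) := by
    have h1 : (1 : ℝ) ≤ 2 ^ d * 400 * M := by nlinarith
    nlinarith
  have hE's : ∀ x y, dist (E'.symm x) (E'.symm y) ≤
      6 * K ^ 2 * (2 ^ d * 400 * M * (ρ / ε)) * dist x y :=
    hE'4 _ h1Q fun q hq => hQ3 q hq
  -- the map `T'`
  let R' : X ≃ X := ((cmp E Kb).trans T.symm).trans E'
  refine ⟨R'.symm, fun i => ⇑(E i).symm, ⇑E'.symm, ?_, ?_, ?_, ?_, ?_, ?_, ?_⟩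
  · obtain ⟨L1, hL1, hc1⟩ := cmp_lip E Kb hEl
    obtain ⟨L2, hL2, hc2⟩ := cmp_symm_lip E Kb fun i hi =>
      ⟨6 * K ^ 2 * (2 ^ d * (1 + 8 * b)), by positivity, hEs i hi⟩
    obtain ⟨L3, hL3, hc3⟩ := hE'l
    set L4 : ℝ := 6 * K ^ 2 * (2 ^ d * 400 * M * (ρ / ε)) with hL4
    have hL40 : 0 ≤ L4 := by positivity
    have hfw : ∀ x y, dist (R' x) (R' y) ≤ L3 * (L0 * L1) * dist x y := by
      intro x y
      show dist (E' (T.symm (cmp E Kb x))) (E' (T.symm (cmp E Kb y))) ≤ _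
      calc _ ≤ L3 * dist (T.symm (cmp E Kb x)) (T.symm (cmp E Kb y)) := hc3 _ _
        _ ≤ L3 * (L0 * dist (cmp E Kb x) (cmp E Kb y)) := by gcongr; exact hT2 _ _
        _ ≤ L3 * (L0 * (L1 * dist x y)) := by gcongr; exact hc1 _ _
        _ = _ := by ring
    have hbw : ∀ x y, dist (R'.symm x) (R'.symm y) ≤ L2 * (L0 * L4) * dist x y := by
      intro x y
      show dist ((cmp E Kb).symm (T (E'.symm x))) ((cmp E Kb).symm (T (E'.symm y))) ≤ _
      calc _ ≤ L2 * dist (T (E'.symm x)) (T (E'.symm y)) := hc2 _ _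
        _ ≤ L2 * (L0 * dist (E'.symm x) (E'.symm y)) := by gcongr; exact hT1 _ _
        _ ≤ L2 * (L0 * (L4 * dist x y)) := by gcongr; exact hE's _ _
        _ = _ := by ring
    refine ⟨L3 * (L0 * L1) + L2 * (L0 * L4), fun x y => ⟨(hbw x y).trans ?_, ?_⟩⟩
    · gcongr
      have : 0 ≤ L3 * (L0 * L1) := by positivity
      linarith
    · have h := hfw (R'.symm x) (R'.symm y)
      rw [R'.apply_symm_apply, R'.apply_symm_apply] at h
      refine h.trans ?_
      gcongr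
      have : 0 ≤ L2 * (L0 * L4) := by positivity
      linarith
  · intro x
    show (cmp E Kb).symm (T (E'.symm x)) = _
    exact cmp_symm E Kb _
  · intro i hi x
    refine ((hE5 i hi (ε * b ^ ((d - 1) * (i + 1))) (by positivity)
      fun _ _ => hH4 i hi).2 x).trans ?_
    rw [hamp i hi]
    gcongr
    nlinarith [mul_le_mul hK2 h2d zero_le_one (by positivity), mul_le_mul hK2 hM zero_le_one (by positivity)]
  · intro i hi x y
    refine (hEs i hi x y).trans (mul_le_mul_of_nonneg_right ?_ dist_nonneg)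
    have h9 : (1 + 8 * b) ≤ 400 * M * b := by nlinarith
    calc 6 * K ^ 2 * (2 ^ d * (1 + 8 * b)) ≤ 6 * K ^ 2 * (2 ^ d * (400 * M * b)) := by gcongr
      _ = 6 * K ^ 2 * (2 ^ d * 400 * M) * b := by ring
  · intro x
    refine ((hE'5 (14 * M * ρ) (by positivity) fun q hq => hQ4 q hq).2 x).trans ?_
    have h1 : K * (14 * M * ρ) ≤ K ^ 2 * (14 * M * ρ) := by
      gcongr
      nlinarith
    have h2 : K ^ 2 * (14 * M * ρ) ≤ 6 * K ^ 2 * (2 ^ d * 400 * M) * ρ := by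
      have h3 : 14 * (M * ρ) ≤ 2 ^ d * 2400 * (M * ρ) := by
        gcongr
        linarith
      have h4 : K ^ 2 * (14 * (M * ρ)) ≤ K ^ 2 * (2 ^ d * 2400 * (M * ρ)) := by gcongr
      linarith
    exact h1.trans h2
  · intro x y
    refine (hE's x y).trans (le_of_eq ?_)
    ring
  · -- the formula in charts
    intro p hp u hu hu1
    have hstep : ∀ n ≤ Kb, ‖bat rc 0 (gz ε b) ((d - 1) * n) u‖ ≤ r ∧
        cmp E n (e p u) = e p (bat rc 0 (gz ε b) ((d - 1) * n) u) := by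
      intro n
      induction n with
      | zero => intro _; exact ⟨by simpa [bat] using hu, rfl⟩
      | succ n ih =>
        intro hn
        obtain ⟨ih1, ih2⟩ := ih (by omega)
        have hgc : ∀ j, Continuous (gz ε b j) := fun j =>
          zig_cont hz (by positivity) (by positivity)
        have hsp := (hb d rc 0 (gz ε b) hrc0 hgc).2.1 ((d - 1) * n) (d - 1) u
        rw [Nat.zero_add, ← hH1 n (by omega)] at hsp
        have hmul : (d - 1) * (n + 1) = (d - 1) * n + (d - 1) := by ring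
        rw [hmul, hsp]
        refine ⟨pres _ (hHs n (by omega)) hr _ ih1, ?_⟩
        show E n (cmp E n (e p u)) = _
        rw [ih2, hE1 n (by omega) p hp _ ih1]
    obtain ⟨h1, h2⟩ := hstep Kb le_rfl
    obtain ⟨-, hRm2, -⟩ := hRm p hp
    obtain ⟨h3, h4⟩ := hRm2 _ hu1
    show E' (T.symm (cmp E Kb (e p u))) = _
    rw [h2, ← h4, hE'1 _ (hTO p hp) _ h3, hQ1 _ (hTO p hp)]

end Pool.MP74738e.Pos

end

section

set_option autoImplicit false

namespace Pool.MP74738e.Pos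

open Filter Topology Set Metric Pool.MP74738e
open scoped ENNReal NNReal

universe u

namespace Near

theorem cont_holder {X : Type u} [MetricSpace X] (T : X → X) (C α : ℝ) (hα : 0 < α)
    (h : ∀ x y, dist (T x) (T y) ≤ C * dist x y ^ α) : Continuous T := by
  refine continuous_iff_continuousAt.mpr fun x => ?_
  rw [ContinuousAt, tendsto_iff_dist_tendsto_zero]
  refine squeeze_zero (fun _ => dist_nonneg) (fun y => h y x) ?_
  have h1 : Tendsto (fun y => dist y x) (𝓝 x) (𝓝 0) :=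
    tendsto_iff_dist_tendsto_zero.mp tendsto_id
  have h2 : Tendsto (fun y => dist y x ^ α) (𝓝 x) (𝓝 ((0 : ℝ) ^ α)) :=
    h1.rpow_const (Or.inr hα.le)
  rw [Real.zero_rpow hα.ne'] at h2
  simpa using h2.const_mul C

theorem cont_lip {X : Type u} [MetricSpace X] (T : X → X) (C : ℝ)
    (h : ∀ x y, dist (T x) (T y) ≤ C * dist x y) : Continuous T := by
  refine continuous_iff_continuousAt.mpr fun x => ?_
  rw [ContinuousAt, tendsto_iff_dist_tendsto_zero]
  refine squeeze_zero (fun _ => dist_nonneg) (fun y => h y x) ?_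
  have h1 : Tendsto (fun y => dist y x) (𝓝 x) (𝓝 0) :=
    tendsto_iff_dist_tendsto_zero.mp tendsto_id
  simpa using h1.const_mul C

end Near

theorem I_Near (h1 : StItf.{u}) (h2 : StItb.{u}) : StNear.{u} := by
  intro X _ _ d _ O K r e hA ε W hε hW R hR p hp N Φ Kf Lf α hα hK hL T' L' θ hT' hθ hCr
  have hKf : 0 ≤ |Kf| := abs_nonneg _
  have hL' : 0 ≤ |L'| := abs_nonneg _
  have hKa : ∀ x y, dist x y ≤ |Kf| * ‖Φ x - Φ y‖ := fun x y =>
    (hK x y).trans (mul_le_mul_of_nonneg_right (le_abs_self _) (norm_nonneg _))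
  set θ' : ℝ := θ / (2 * ((|L'| + 1) * (|Kf| + 1))) with hθ'
  have hθ'0 : 0 < θ' := by positivity
  have hθ'2 : |L'| * (|Kf| * (2 * θ')) ≤ θ := by
    have e1 : θ = (|L'| + 1) * ((|Kf| + 1) * (2 * θ')) := by
      rw [hθ']; field_simp
    have e2 : |Kf| * (2 * θ') ≤ (|Kf| + 1) * (2 * θ') :=
      mul_le_mul_of_nonneg_right (by linarith) (by positivity)
    calc |L'| * (|Kf| * (2 * θ')) ≤ (|L'| + 1) * ((|Kf| + 1) * (2 * θ')) :=
          mul_le_mul (by linarith) e2 (by positivity) (by positivity)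
      _ = θ := e1.symm
  refine ⟨θ', hθ'0, ?_⟩
  intro S hS hST
  obtain ⟨C, hC⟩ := S.2
  refine h2 X d O K r e hA ε W hε hW R S.1 hR (Near.cont_holder S.1 C α hα hC) p hp ?_
  intro θ₁ hθ₁
  set s : ℝ := min θ' (θ₁ / (|Kf| + 1)) with hs
  have hs0 : 0 < s := lt_min hθ'0 (by positivity)
  obtain ⟨Sk, hSk, hSSk⟩ := EMetric.mem_closure_iff.mp hS (ENNReal.ofReal s) (by simpa using hs0)
  rw [edist_def] at hSSk
  have hn : ∀ x, ‖Φ (S.1 x) - Φ (Sk.1 x)‖ ≤ s := norm_sub_le_of_dAlpha hs0.le hSSk.le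
  obtain ⟨hbij, K', hK'⟩ := hSk
  let E : X ≃ X := Equiv.ofBijective Sk.1 hbij
  have hE : ∀ x, E x = Sk.1 x := fun x => rfl
  have hEs : ∀ x, Sk.1 (E.symm x) = x := fun x => E.apply_symm_apply x
  refine ⟨E, fun x => ?_, ?_⟩
  · rw [hE]
    refine (hKa _ _).trans ?_
    rw [norm_sub_rev]
    calc |Kf| * ‖Φ (S.1 x) - Φ (Sk.1 x)‖ ≤ (|Kf| + 1) * (θ₁ / (|Kf| + 1)) :=
          mul_le_mul (by linarith) ((hn x).trans (min_le_right _ _)) (norm_nonneg _)
            (by positivity)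
      _ = θ₁ := by field_simp
  · refine h1 X d O K r e hA ε W hε hW R E.symm hR (hCr E.symm ?_ ?_) p hp
    · refine Near.cont_lip _ K' fun x y => ?_
      have h3 := (hK' (E.symm x) (E.symm y)).2
      rw [hEs, hEs] at h3
      exact h3
    · intro x
      have h3 := (hT' (E.symm x) (T'.symm x)).2
      rw [Equiv.apply_symm_apply] at h3
      have h4 : dist (T' (E.symm x)) x ≤ |Kf| * (2 * θ') := by
        have h5 := hKa (T' (E.symm x)) (Sk.1 (E.symm x))
        rw [hEs] at h5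
        refine h5.trans ?_
        refine mul_le_mul_of_nonneg_left ?_ hKf
        have h6 := hST (E.symm x)
        have h7 := hn (E.symm x)
        rw [hEs] at h7
        have h8 : s ≤ θ' := min_le_left _ _
        calc ‖Φ (T' (E.symm x)) - Φ x‖ = ‖-(Φ (S.1 (E.symm x)) - Φ (T' (E.symm x))) +
              (Φ (S.1 (E.symm x)) - Φ x)‖ := by congr 1; abel
          _ ≤ ‖-(Φ (S.1 (E.symm x)) - Φ (T' (E.symm x)))‖ +
              ‖Φ (S.1 (E.symm x)) - Φ x‖ := norm_add_le _ _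
          _ ≤ 2 * θ' := by rw [norm_neg]; linarith
      calc dist (E.symm x) (T'.symm x) ≤ L' * dist (T' (E.symm x)) x := h3
        _ ≤ |L'| * dist (T' (E.symm x)) x :=
          mul_le_mul_of_nonneg_right (le_abs_self _) dist_nonneg
        _ ≤ |L'| * (|Kf| * (2 * θ')) := mul_le_mul_of_nonneg_left h4 hL'
        _ ≤ θ := hθ'2

end Pool.MP74738e.Pos

end

section

/-! # MP_74738e_an, item Par: choice of the parameters -/

namespace Pool.MP74738e.Pos

open Filter Topology Set Metric Pool.MP74738e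
open scoped ENNReal NNReal

namespace Par

theorem exp_neg_ev {c : ℝ} (hc : 0 < c) {e : ℝ} (he : 0 < e) :
    ∀ᶠ L : ℝ in atTop, Real.exp (-(c * L)) < e := by
  have h1 : Tendsto (fun L : ℝ => c * L) atTop atTop := tendsto_id.const_mul_atTop hc
  have h2 : Tendsto (fun L : ℝ => Real.exp (-(c * L))) atTop (𝓝 0) :=
    Real.tendsto_exp_neg_atTop_nhds_zero.comp h1
  exact (tendsto_order.1 h2).2 e he

theorem exp_ev {c : ℝ} (hc : 0 < c) (e : ℝ) : ∀ᶠ L : ℝ in atTop, e ≤ Real.exp (c * L) := by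
  have h1 : Tendsto (fun L : ℝ => c * L) atTop atTop := tendsto_id.const_mul_atTop hc
  exact (Real.tendsto_exp_atTop.comp h1).eventually_ge_atTop e

end Par

open Par in
theorem I_Par : StPar := by
  intro d α η hd hα hα1 hη
  have hd0 : (0 : ℝ) < d := by
    have : 0 < d := by omega
    exact_mod_cast this
  obtain ⟨a, ha1, ha2, ha3⟩ : ∃ a, α < a ∧ a < 1 ∧ (d : ℝ) * (a - α) ≤ η / 2 := by
    refine ⟨α + min (η / (2 * d)) ((1 - α) / 2), ?_, ?_, ?_⟩
    · have : 0 < min (η / (2 * d)) ((1 - α) / 2) := lt_min (by positivity) (by linarith)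
      linarith
    · have := min_le_right (η / (2 * d)) ((1 - α) / 2)
      linarith
    · have h1 := min_le_left (η / (2 * (d : ℝ))) ((1 - α) / 2)
      calc (d : ℝ) * (α + min (η / (2 * d)) ((1 - α) / 2) - α)
          = d * min (η / (2 * d)) ((1 - α) / 2) := by ring
        _ ≤ d * (η / (2 * d)) := mul_le_mul_of_nonneg_left h1 hd0.le
        _ = η / 2 := by field_simp
  obtain ⟨Kb0, hKb0⟩ := exists_nat_gt (2 * (α * (1 - a)) / (a - α))
  refine ⟨Kb0 + 1, by omega, ?_⟩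
  intro C κ K b0 ρ0 δ ε0 hκ hK hρ0 hδ hε0
  have hD1 : 1 ≤ (d - 1) * (Kb0 + 1) := Nat.one_le_iff_ne_zero.2 (by
    apply Nat.mul_ne_zero <;> omega)
  set D : ℕ := (d - 1) * (Kb0 + 1) with hD
  have hDr : (1 : ℝ) ≤ D := by exact_mod_cast hD1
  have hDK : ((Kb0 : ℝ) + 1) ≤ D := by
    have : Kb0 + 1 ≤ D := by
      rw [hD]
      calc Kb0 + 1 = 1 * (Kb0 + 1) := by ring
        _ ≤ (d - 1) * (Kb0 + 1) := Nat.mul_le_mul_right _ (by omega)
    exact_mod_cast this
  have haα : 0 < a - α := by linarith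
  set β : ℝ := (1 - a) / D with hβ
  have hβ0 : 0 < β := div_pos (by linarith) (by linarith)
  have hβD : β * D = 1 - a := by
    rw [hβ]; field_simp
  have hc : 0 < a - α - α * β := by
    have h1 : α * β ≤ (a - α) / 2 := by
      rw [hβ, ← mul_div_assoc, div_le_iff₀ (by linarith)]
      have h2 : 2 * (α * (1 - a)) / (a - α) < D := by linarith
      rw [div_lt_iff₀ haα] at h2
      linarith
    linarith
  have ev1 := exp_neg_ev one_pos hε0
  have ev3 := exp_neg_ev (by linarith : 0 < a) hρ0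
  have ev4 := exp_ev hβ0 b0
  have ev6 := exp_neg_ev (by linarith : 0 < a) (div_pos hδ (by positivity : 0 < |C| + 1))
  have ev7 := exp_neg_ev hc (div_pos hδ (by positivity : 0 < |C| + 1))
  have ev8 := exp_ev (by linarith : 0 < 1 - a) (4 / κ)
  have ev9 : ∀ᶠ L : ℝ in atTop, ((1 - α) * d - η) * Real.log K - d * Real.log (κ / 4) ≤
      (η / 2) * L :=
    (tendsto_id.const_mul_atTop (by linarith : 0 < η / 2)).eventually_ge_atTop _
  obtain ⟨L, h0, h1, h3, h4, h6, h7, h8, h9⟩ :=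
    ((eventually_ge_atTop (0 : ℝ)).and (ev1.and (ev3.and (ev4.and (ev6.and
      (ev7.and (ev8.and ev9))))))).exists
  have hCb : ∀ x : ℝ, 0 < x → x < δ / (|C| + 1) → C * x ≤ δ := by
    intro x hx0 hx
    rw [lt_div_iff₀ (by positivity)] at hx
    have h1 : C * x ≤ |C| * x := mul_le_mul_of_nonneg_right (le_abs_self C) hx0.le
    nlinarith [abs_nonneg C]
  refine ⟨Real.exp (-(a * L)), Real.exp (-(1 * L)), Real.exp (β * L), Real.exp_pos _, h1, ?_,
    h3.le, h4, ?_, ?_, hCb _ (Real.exp_pos _) h6, ?_, ?_, ?_⟩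
  · apply Real.exp_le_exp.2
    nlinarith
  · exact Real.one_le_exp (by positivity)
  · rw [← Real.exp_nat_mul, ← Real.exp_add]
    congr 1
    have : (D : ℝ) * (β * L) = (1 - a) * L := by
      rw [← hβD]; ring
    rw [this]; ring
  · have : Real.exp (-(a * L)) * Real.exp (-(1 * L)) ^ (-α) * Real.exp (β * L) ^ α =
        Real.exp (-((a - α - α * β) * L)) := by
      rw [← Real.exp_mul, ← Real.exp_mul, ← Real.exp_add, ← Real.exp_add]
      congr 1
      ring
    rw [this]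
    exact hCb _ (Real.exp_pos _) h7
  · have e1 : κ * Real.exp (-(a * L)) / (4 * Real.exp (-(1 * L))) =
        κ / 4 * Real.exp ((1 - a) * L) := by
      have : Real.exp (-(a * L)) = Real.exp ((1 - a) * L) * Real.exp (-(1 * L)) := by
        rw [← Real.exp_add]; congr 1; ring
      rw [this]
      have h5 := (Real.exp_pos (-(1 * L))).ne'
      field_simp
    rw [e1]
    rw [div_le_iff₀ hκ] at h8
    linarith
  · have e1 : κ * Real.exp (-(a * L)) / (4 * Real.exp (-(1 * L))) =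
        κ / 4 * Real.exp ((1 - a) * L) := by
      have : Real.exp (-(a * L)) = Real.exp ((1 - a) * L) * Real.exp (-(1 * L)) := by
        rw [← Real.exp_add]; congr 1; ring
      rw [this]
      have h5 := (Real.exp_pos (-(1 * L))).ne'
      field_simp
    have hlK : 0 ≤ Real.log K := Real.log_nonneg hK
    have e2 : |Real.log (Real.exp (-(1 * L)) / K)| = L + Real.log K := by
      rw [Real.log_div (Real.exp_pos _).ne' (by linarith), Real.log_exp,
        abs_of_nonpos (by linarith)]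
      ring
    rw [e1, e2, Real.log_pow, Real.log_mul (by positivity) (Real.exp_pos _).ne', Real.log_exp]
    nlinarith

end Pool.MP74738e.Pos

end

section

/-! MP_74738e_an, Pos, item G4: the residual set. -/

namespace Pool.MP74738e.Pos

open Filter Topology Set Metric Pool.MP74738e
open scoped ENNReal NNReal

universe u v

namespace Res

variable {X : Type u} [MetricSpace X]

/-- lower bound for the upper metric mean dimension -/
theorem lower {T : X → X} {D : ℝ}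
    (h : ∀ n : ℕ, ∃ ε > (0 : ℝ), ε < 1 / ((n : ℝ) + 1) ∧
      (((D - 1 / ((n : ℝ) + 1)) * |Real.log ε| : ℝ) : EReal) ≤ scaleEntropy T ε) :
    ((D : ℝ) : EReal) ≤ upperMdim T := by
  by_contra hcon
  push Not at hcon
  obtain ⟨c, hc1, hc2⟩ := EReal.lt_iff_exists_real_btwn.1 hcon
  have hcD : c < D := by exact_mod_cast hc2
  refine absurd hc1 (not_lt.2 ?_)
  unfold upperMdim
  refine le_limsup_of_frequently_le ?_
  rw [Filter.frequently_iff]
  intro U hU
  obtain ⟨δ, hδ, hUδ⟩ := mem_nhdsGT_iff_exists_Ioo_subset.1 hU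
  rw [mem_Ioi] at hδ
  obtain ⟨n, hn⟩ := exists_nat_gt (max (1 / δ) (1 / (D - c)))
  have hn0 : (0 : ℝ) < (n : ℝ) + 1 := by positivity
  have hn1 : 1 / ((n : ℝ) + 1) < δ := by
    rw [div_lt_iff₀ hn0]
    have h1 : 1 / δ < n := lt_of_le_of_lt (le_max_left _ _) hn
    rw [div_lt_iff₀ hδ] at h1
    nlinarith
  have hn2 : 1 / ((n : ℝ) + 1) < D - c := by
    have hDc : 0 < D - c := by linarith
    rw [div_lt_iff₀ hn0]
    have h1 : 1 / (D - c) < n := lt_of_le_of_lt (le_max_right _ _) hn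
    rw [div_lt_iff₀ hDc] at h1
    nlinarith
  obtain ⟨ε, hε0, hε1, hε2⟩ := h n
  have hn3 : 1 / ((n : ℝ) + 1) ≤ 1 := by
    rw [div_le_one hn0]
    have : (0 : ℝ) ≤ n := Nat.cast_nonneg n
    linarith
  have hlog : 0 < |Real.log ε| := by
    rw [abs_pos]
    have : Real.log ε < 0 := Real.log_neg hε0 (by linarith)
    exact this.ne
  refine ⟨ε, hUδ ⟨hε0, hε1.trans hn1⟩, ?_⟩
  rw [EReal.le_div_iff_mul_le (by exact_mod_cast hlog) (EReal.coe_ne_top _)]
  refine le_trans ?_ hε2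
  rw [← EReal.coe_mul, EReal.coe_le_coe_iff]
  gcongr
  linarith

end Res

open Res in
theorem I_Res (hu : StUp.{u}) (hd : StDen2.{u}) : StRes.{u} := by
  intro X _ _ _ d hd2 hloc N Φ Kf Lf α hKf hLf hα0 hαd
  have hd2' : (2 : ℝ) ≤ d := by exact_mod_cast hd2
  have hα1 : α < 1 := by
    by_contra hcon
    push Not at hcon
    nlinarith
  obtain ⟨A, hA⟩ := hloc.packing
  have hfr : Module.finrank ℝ (V d) = d := by simp
  rw [hfr] at hA
  have hup : ∀ T : HolderMaps α Φ, upperMdim T.1 ≤ (((1 - α) * d : ℝ) : EReal) := by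
    intro T
    obtain ⟨C, hC⟩ := T.2
    exact hu X d A α C hA hα0 hα1 T.1 hC
  let good : ℕ → HolderMaps α Φ → ℝ → Prop := fun n T' θ => T' ∈ bilipHomeos α Φ ∧ 0 < θ ∧
    ∃ ε > (0 : ℝ), ε < 1 / ((n : ℝ) + 1) ∧ ∀ S ∈ LAlpha α Φ, edist S T' ≤ ENNReal.ofReal θ →
      ((((1 - α) * d - 1 / ((n : ℝ) + 1)) * |Real.log ε| : ℝ) : EReal) ≤ scaleEntropy S.1 ε
  let O : ℕ → Set (LAlpha α Φ) := fun n =>
    {S | ∃ T' θ, good n T' θ ∧ edist S.1 T' < ENNReal.ofReal θ}
  have hopen : ∀ n, IsOpen (O n) := by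
    intro n
    have : O n = ⋃ (q : HolderMaps α Φ × ℝ) (_ : good n q.1 q.2),
        {S : LAlpha α Φ | edist S.1 q.1 < ENNReal.ofReal q.2} := by
      ext S
      simp only [mem_iUnion, mem_ofPred_eq, Prod.exists, exists_prop, O]
    rw [this]
    refine isOpen_iUnion fun q => isOpen_iUnion fun _ => ?_
    exact isOpen_lt (continuous_subtype_val.edist continuous_const) continuous_const
  have hdense : ∀ n, Dense (O n) := by
    intro n S
    rw [EMetric.mem_closure_iff]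
    intro δ hδ
    obtain ⟨δ', -, hδ'1, hδ'2⟩ := ENNReal.lt_iff_exists_real_btwn.1 hδ
    have hδ' : 0 < δ' := ENNReal.ofReal_pos.1 hδ'1
    obtain ⟨T, hT, hST⟩ := EMetric.mem_closure_iff.mp S.2 (ENNReal.ofReal (δ' / 2))
      (by simpa using by linarith)
    obtain ⟨T', hT', hTT, θ, hθ, ε, hε0, hε1, hε⟩ := hd X d hd2 hloc N Φ Kf Lf α hKf hLf hα0 hαd
      T hT (δ' / 2) (1 / ((n : ℝ) + 1)) (by linarith) (by positivity)
    refine ⟨⟨T', subset_closure hT'⟩, ⟨T', θ, ⟨hT', hθ, ε, hε0, hε1, hε⟩, ?_⟩, ?_⟩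
    · rw [edist_self]
      exact ENNReal.ofReal_pos.2 hθ
    · show edist S.1 T' < δ
      calc edist S.1 T' ≤ edist S.1 T + edist T T' := edist_triangle _ _ _
        _ ≤ ENNReal.ofReal (δ' / 2) + ENNReal.ofReal (δ' / 2) := by
            rw [edist_comm T T']
            exact add_le_add hST.le hTT
        _ = ENNReal.ofReal δ' := by
            rw [← ENNReal.ofReal_add (by linarith) (by linarith), add_halves]
        _ < δ := hδ'2
  have hres : (⋂ n, O n) ∈ residual (LAlpha α Φ) :=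
    countable_iInter_mem.2 fun n => residual_of_dense_open (hopen n) (hdense n)
  refine mem_of_superset hres fun S hS => ?_
  rw [mem_ofPred_eq]
  refine le_antisymm (hup S.1) (lower fun n => ?_)
  obtain ⟨T', θ, ⟨-, -, ε, hε0, hε1, hε⟩, hST⟩ := mem_iInter.1 hS n
  exact ⟨ε, hε0, hε1, hε S.1 S.2 hST.le⟩

end Pool.MP74738e.Pos

end

section

/-!
# MP_74738e_an, the positive half: almost returning orbits
-/

namespace Pool.MP74738e.Pos

open Filter Topology Set Metric Pool.MP74738e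
open scoped ENNReal NNReal

universe u

namespace Sel

/-- arithmetic of the minimising pair -/
theorem arith {θ a t D : ℝ} (hθ : θ ≤ 2 / 15) (ha : 0 < a) (hD : 0 < D) (hDa : D ≤ θ * a)
    (ht : t < 3 * D / 4) (hk : θ * (a - t) ≤ t) : False := by
  have hθa : 0 < θ * a := lt_of_lt_of_le hD hDa
  have hθ0 : 0 < θ := (pos_iff_pos_of_mul_pos hθa).2 ha
  nlinarith [mul_pos hθ0 hθa, mul_le_mul_of_nonneg_right hθ hθa.le]

theorem core {X : Type u} [MetricSpace X] {d : ℕ} {z : X} {K r : ℝ} {e : X → V d → X}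
    (hA : Atl d {z} K r e) (x : ℕ → X) {s : ℝ} (hs : 0 < s) (hsr : s ≤ r / 64) {i0 j0 : ℕ}
    (hij : i0 < j0) {u0 v0 : V d} (hu0 : ‖u0‖ < s) (hv0 : ‖v0‖ < s) (h1 : e z u0 = x i0)
    (h2 : e z v0 = x j0) :
    ∃ (i j : ℕ) (U W : V d), i < j ∧ ‖U‖ < r / 4 ∧ ‖W‖ < r / 4 ∧ e z U = x i ∧ e z W = x j ∧
      ‖U - W‖ ≤ 3 * s ∧ ∀ l, i < l → l < j → ∀ c ∈ Icc (0 : ℝ) 1, ∀ v,
        ‖v - (W + c • (U - W))‖ < ‖U - W‖ / 4 → e z v ≠ x l := by
  classical
  have hz : z ∈ ({z} : Finset X) := Finset.mem_singleton_self z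
  have hr := hA.pos
  obtain ⟨rr, hrr⟩ : ∃ rr, rr = r / 4 := ⟨_, rfl⟩
  have hrr0 : 0 < rr := by rw [hrr]; linarith
  have hsrr : s ≤ rr / 16 := by rw [hrr]; linarith
  rw [← hrr]
  -- uniqueness
  have huni : ∀ u v : V d, ‖u‖ < rr → ‖v‖ < rr → e z u = e z v → u = v := by
    intro u v hu hv huv
    have h := hA.inv z hz u v (by linarith) (by linarith)
    rw [huv, dist_self, mul_zero] at h
    exact sub_eq_zero.1 (norm_le_zero_iff.1 h)
  let c : ℕ → V d := fun n => if h : ∃ u : V d, ‖u‖ < rr ∧ e z u = x n then h.choose else 0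
  have hc : ∀ n u, ‖u‖ < rr → e z u = x n → c n = u := by
    intro n u hu hun
    have h : ∃ u : V d, ‖u‖ < rr ∧ e z u = x n := ⟨u, hu, hun⟩
    have h3 : c n = h.choose := dif_pos h
    rw [h3]
    exact huni _ _ h.choose_spec.1 hu (h.choose_spec.2.trans hun.symm)
  let P : Finset (ℕ × ℕ) := (Finset.range (j0 + 1) ×ˢ Finset.range (j0 + 1)).filter
    (fun q => q.1 < q.2 ∧ (∃ u : V d, ‖u‖ < rr ∧ e z u = x q.1) ∧
      ∃ u : V d, ‖u‖ < rr ∧ e z u = x q.2)
  let f : ℕ × ℕ → ℝ := fun q => ‖c q.1 - c q.2‖ / min (rr - ‖c q.1‖) (rr - ‖c q.2‖)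
  have hP : ∀ a b ua ub, a < b → b ≤ j0 → ‖ua‖ < rr → ‖ub‖ < rr → e z ua = x a →
      e z ub = x b → (a, b) ∈ P ∧ f (a, b) = ‖ua - ub‖ / min (rr - ‖ua‖) (rr - ‖ub‖) := by
    intro a b ua ub hab hb hua hub hea heb
    constructor
    · refine Finset.mem_filter.2 ⟨Finset.mem_product.2 ⟨?_, ?_⟩, hab, ⟨ua, hua, hea⟩,
        ⟨ub, hub, heb⟩⟩
      · exact Finset.mem_range.2 (by show a < j0 + 1; omega)
      · exact Finset.mem_range.2 (by show b < j0 + 1; omega)
    · show ‖c a - c b‖ / min (rr - ‖c a‖) (rr - ‖c b‖) = _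
      rw [hc a ua hua hea, hc b ub hub heb]
  obtain ⟨h0P, h0f⟩ := hP i0 j0 u0 v0 hij le_rfl (by linarith) (by linarith) h1 h2
  obtain ⟨q, hqP, hqmin⟩ := P.exists_min_image f ⟨_, h0P⟩
  obtain ⟨hq1, hq2, ⟨U, hU, hUx⟩, ⟨W, hW, hWx⟩⟩ := Finset.mem_filter.1 hqP
  have hqj : q.2 ≤ j0 := by
    have := Finset.mem_range.1 (Finset.mem_product.1 hq1).2
    omega
  obtain ⟨-, hqf⟩ := hP q.1 q.2 U W hq2 hqj hU hW hUx hWx
  have hqf' : f q = ‖U - W‖ / min (rr - ‖U‖) (rr - ‖W‖) := hqf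
  obtain ⟨θ, hθ⟩ : ∃ θ, θ = f q := ⟨_, rfl⟩
  have ha : 0 < rr - ‖U‖ := by linarith
  have hb : 0 < rr - ‖W‖ := by linarith
  have hmin : 0 < min (rr - ‖U‖) (rr - ‖W‖) := lt_min ha hb
  have hD : ‖U - W‖ = θ * min (rr - ‖U‖) (rr - ‖W‖) := by
    rw [hθ, hqf', div_mul_cancel₀ _ hmin.ne']
  have hθ0 : 0 ≤ θ := by
    rw [hθ, hqf']
    positivity
  have hkey : ∀ a b ua ub, a < b → b ≤ j0 → ‖ua‖ < rr → ‖ub‖ < rr → e z ua = x a →
      e z ub = x b → θ * min (rr - ‖ua‖) (rr - ‖ub‖) ≤ ‖ua - ub‖ := by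
    intro a b ua ub hab hb hua hub hea heb
    obtain ⟨h3, h4⟩ := hP a b ua ub hab hb hua hub hea heb
    have h5 := hqmin _ h3
    rw [h4, ← hθ] at h5
    have h6 : 0 < min (rr - ‖ua‖) (rr - ‖ub‖) := lt_min (by linarith) (by linarith)
    exact (le_div_iff₀ h6).1 h5
  have hθ1 : θ * (rr - s) ≤ 2 * s := by
    have h3 := hkey i0 j0 u0 v0 hij le_rfl (by linarith) (by linarith) h1 h2
    have h4 : rr - s ≤ min (rr - ‖u0‖) (rr - ‖v0‖) := le_min (by linarith) (by linarith)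
    have h5 : ‖u0 - v0‖ ≤ 2 * s := (norm_sub_le _ _).trans (by linarith)
    exact (mul_le_mul_of_nonneg_left h4 hθ0).trans (h3.trans h5)
  have hθ2 : θ ≤ 2 / 15 := by
    have h3 : θ * (15 * rr / 16) ≤ 2 * s :=
      (mul_le_mul_of_nonneg_left (by linarith) hθ0).trans hθ1
    have h4 : θ * (15 * rr / 16) ≤ 2 / 15 * (15 * rr / 16) := by linarith
    exact le_of_mul_le_mul_right h4 (by positivity)
  have hDs : ‖U - W‖ ≤ 3 * s := by
    have h3 : ‖U - W‖ ≤ θ * rr := by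
      rw [hD]
      apply mul_le_mul_of_nonneg_left _ hθ0
      exact (min_le_left _ _).trans (by have := norm_nonneg U; linarith)
    have h4 : θ * s ≤ 2 / 15 * s := mul_le_mul_of_nonneg_right hθ2 hs.le
    nlinarith
  refine ⟨q.1, q.2, U, W, hq2, hU, hW, hUx, hWx, hDs, ?_⟩
  intro l hil hlj c' hc' v hv hvl
  have hDpos : 0 < ‖U - W‖ := by
    have := norm_nonneg (v - (W + c' • (U - W)))
    linarith
  have hDU : ‖U - W‖ ≤ θ * (rr - ‖U‖) := by
    rw [hD]
    exact mul_le_mul_of_nonneg_left (min_le_left _ _) hθ0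
  have hDW : ‖U - W‖ ≤ θ * (rr - ‖W‖) := by
    rw [hD]
    exact mul_le_mul_of_nonneg_left (min_le_right _ _) hθ0
  rcases le_total (1 / 2) c' with hc2 | hc2
  · -- close to U
    have ht : ‖v - U‖ < 3 * ‖U - W‖ / 4 := by
      have e1 : v - U = (v - (W + c' • (U - W))) - (1 - c') • (U - W) := by
        rw [sub_smul, one_smul]
        abel
      have e2 : ‖(1 - c') • (U - W)‖ ≤ 1 / 2 * ‖U - W‖ := by
        rw [norm_smul, Real.norm_eq_abs, abs_of_nonneg (by linarith [hc'.2])]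
        exact mul_le_mul_of_nonneg_right (by linarith) (norm_nonneg _)
      rw [e1]
      refine lt_of_le_of_lt (norm_sub_le _ _) ?_
      linarith
    have hvn : ‖v‖ ≤ ‖U‖ + ‖v - U‖ := by
      have : v = U + (v - U) := by abel
      calc ‖v‖ = ‖U + (v - U)‖ := by rw [← this]
        _ ≤ ‖U‖ + ‖v - U‖ := norm_add_le _ _
    have hvr : ‖v‖ < rr := by
      have : θ * (rr - ‖U‖) ≤ 2 / 15 * (rr - ‖U‖) := mul_le_mul_of_nonneg_right hθ2 ha.le
      linarith
    have h3 := hkey q.1 l U v hil (by omega) hU hvr hUx hvl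
    rw [norm_sub_rev U v] at h3
    have h4 : rr - ‖U‖ - ‖v - U‖ ≤ min (rr - ‖U‖) (rr - ‖v‖) :=
      le_min (by linarith [norm_nonneg (v - U)]) (by linarith)
    exact arith hθ2 ha hDpos hDU ht ((mul_le_mul_of_nonneg_left h4 hθ0).trans h3)
  · -- close to W
    have ht : ‖v - W‖ < 3 * ‖U - W‖ / 4 := by
      have e1 : v - W = (v - (W + c' • (U - W))) + c' • (U - W) := by abel
      have e2 : ‖c' • (U - W)‖ ≤ 1 / 2 * ‖U - W‖ := by
        rw [norm_smul, Real.norm_eq_abs, abs_of_nonneg hc'.1]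
        exact mul_le_mul_of_nonneg_right hc2 (norm_nonneg _)
      rw [e1]
      refine lt_of_le_of_lt (norm_add_le _ _) ?_
      linarith
    have hvn : ‖v‖ ≤ ‖W‖ + ‖v - W‖ := by
      have : v = W + (v - W) := by abel
      calc ‖v‖ = ‖W + (v - W)‖ := by rw [← this]
        _ ≤ ‖W‖ + ‖v - W‖ := norm_add_le _ _
    have hvr : ‖v‖ < rr := by
      have : θ * (rr - ‖W‖) ≤ 2 / 15 * (rr - ‖W‖) := mul_le_mul_of_nonneg_right hθ2 hb.le
      linarith
    have h3 := hkey l q.2 v W hlj hqj hvr hW hvl hWx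
    have h4 : rr - ‖W‖ - ‖v - W‖ ≤ min (rr - ‖v‖) (rr - ‖W‖) :=
      le_min (by linarith) (by linarith [norm_nonneg (v - W)])
    exact arith hθ2 hb hDpos hDW ht ((mul_le_mul_of_nonneg_left h4 hθ0).trans h3)

end Sel

theorem I_Sel : StSel.{u} := by
  intro X _ _ _ d T hch
  obtain ⟨x0⟩ : Nonempty X := inferInstance
  obtain ⟨z, φ, hφ, hlim⟩ := CompactSpace.tendsto_subseq (fun n => T^[n] x0)
  obtain ⟨K, r, e, hA⟩ := hch z
  refine ⟨z, K, r, e, hA, ?_⟩
  intro η hη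
  have hz : z ∈ ({z} : Finset X) := Finset.mem_singleton_self z
  have hr := hA.pos
  have hK : 0 < K := by linarith [hA.one_le]
  obtain ⟨s, hs, hs1, hs2⟩ : ∃ s : ℝ, 0 < s ∧ s ≤ r / 64 ∧ s ≤ η / 4 :=
    ⟨min (r / 64) (η / 4), by positivity, min_le_left _ _, min_le_right _ _⟩
  have hnear : ∀ᶠ n in atTop, dist (T^[φ n] x0) z < s / K :=
    (Metric.tendsto_nhds.1 hlim) (s / K) (by positivity)
  obtain ⟨n, hn⟩ := eventually_atTop.1 hnear
  have hch0 : ∀ k, n ≤ k → ∃ u : V d, ‖u‖ < s ∧ e z u = T^[φ k] x0 := by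
    intro k hk
    have h1 := hn k hk
    have h2 : dist (T^[φ k] x0) (e z 0) < s / K := by
      rw [hA.zero z hz]
      exact h1
    obtain ⟨v, hv, hev⟩ := hA.opn z hz 0 s (T^[φ k] x0) hs (by rw [norm_zero]; linarith) h2
    exact ⟨v, by simpa using hv, hev⟩
  obtain ⟨u0, hu0, he0⟩ := hch0 n le_rfl
  obtain ⟨v0, hv0, he1⟩ := hch0 (n + 1) (by omega)
  obtain ⟨i, j, U, W, hij, hU, hW, hUx, hWx, hD, hlast⟩ := Sel.core hA (fun n => T^[n] x0) hs hs1
    (hφ (Nat.lt_succ_self n)) hu0 hv0 he0 he1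
  refine ⟨T^[i] x0, j - i, U, W, by omega, hU.le, hW.le, hUx, ?_, by linarith, ?_⟩
  · rw [hWx, ← Function.iterate_add_apply]
    congr 2
    omega
  · intro l hl1 hl2 c hc v hv
    rw [← Function.iterate_add_apply]
    exact hlast (l + i) (by omega) (by omega) c hc v hv

end Pool.MP74738e.Pos

end
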