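import Pool.Agent.Work.MP_74738e_an.Pos.Stmts

/-! Bundle of small proof modules (one section per former module). -/

section

/-!
# MP_74738e_an, the positive half: the chart expression of a bi-Lipschitz map
-/

namespace Pool.MP74738e.Pos

open Filter Topology Set Metric Pool.MP74738e
open scoped ENNReal NNReal

universe u

theorem I_ChR : StChR.{u} := by
  classical
  intro X _ d O K r e hA R L hL hR
  have hK := hA.one_le
  have hr := hA.pos
  have hK0 : 0 < K := by linarith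
  set L' : ℝ := max L 1 with hL'
  have hL1 : 1 ≤ L' := le_max_right _ _
  have hL0 : 0 < L' := by linarith
  have hLL : L ≤ L' := le_max_left _ _
  have hM : 1 ≤ K ^ 2 * L' := by nlinarith
  have hr1 : 0 < r / (2 * K ^ 2 * L') := by positivity
  have hr1r : r / (2 * K ^ 2 * L') ≤ r := by
    rw [div_le_iff₀ (by positivity)]
    nlinarith
  have hLK : 0 < L' * K := by positivity
  have hbil : ∀ x y, dist (R x) (R y) ≤ L' * dist x y ∧ dist x y ≤ L' * dist (R x) (R y) := by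
    intro x y
    obtain ⟨h1, h2⟩ := hL x y
    exact ⟨h1.trans (mul_le_mul_of_nonneg_right hLL dist_nonneg),
      h2.trans (mul_le_mul_of_nonneg_right hLL dist_nonneg)⟩
  have hex : ∀ p ∈ O, ∀ u : V d, ‖u‖ ≤ r / (2 * K ^ 2 * L') →
      ∃ v : V d, ‖v‖ ≤ r ∧ e (R p) v = R (e p u) := by
    intro p hp u hu
    have h0 := hA.zero p hp
    have h0' := hA.zero (R p) (hR p hp)
    have h1 : dist (R (e p u)) (e (R p) 0) < r / K := by
      have h2 := (hbil (e p u) (e p 0)).1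
      have h3 := hA.lip p hp u 0 (hu.trans hr1r) (by rw [norm_zero]; exact hr.le)
      rw [sub_zero] at h3
      rw [h0']
      rw [h0] at h2 h3
      have h4 : L' * (K * ‖u‖) ≤ L' * (K * (r / (2 * K ^ 2 * L'))) := by gcongr
      have h5 : L' * (K * (r / (2 * K ^ 2 * L'))) = r / K / 2 := by
        field_simp
      have h6 : 0 < r / K := by positivity
      have h7 : L' * dist (e p u) p ≤ L' * (K * ‖u‖) := mul_le_mul_of_nonneg_left h3 hL0.le
      linarith
    obtain ⟨v, hv, hve⟩ := hA.opn (R p) (hR p hp) 0 r (R (e p u)) hr (by simp) h1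
    rw [sub_zero] at hv
    exact ⟨v, hv.le, hve⟩
  let Rm : X → V d → V d := fun p u =>
    if h : ∃ v : V d, ‖v‖ ≤ r ∧ e (R p) v = R (e p u) then h.choose else 0
  have hRm : ∀ p ∈ O, ∀ u : V d, ‖u‖ ≤ r / (2 * K ^ 2 * L') →
      ‖Rm p u‖ ≤ r ∧ e (R p) (Rm p u) = R (e p u) := by
    intro p hp u hu
    have h := hex p hp u hu
    have h1 : Rm p u = h.choose := by simp only [Rm]; rw [dif_pos h]
    rw [h1]
    exact h.choose_spec
  refine ⟨r / (2 * K ^ 2 * L'), K ^ 2 * L', Rm, hr1, hr1r, hM, fun p hp => ⟨?_, hRm p hp, ?_⟩⟩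
  · obtain ⟨h1, h2⟩ := hRm p hp 0 (by rw [norm_zero]; exact hr1.le)
    have h3 := hA.inv (R p) (hR p hp) (Rm p 0) 0 h1 (by rw [norm_zero]; exact hr.le)
    rw [h2, hA.zero p hp, hA.zero (R p) (hR p hp), dist_self, mul_zero, sub_zero] at h3
    exact norm_le_zero_iff.1 h3
  · intro u v hu hv
    obtain ⟨h1, h2⟩ := hRm p hp u hu
    obtain ⟨h3, h4⟩ := hRm p hp v hv
    have h5 := hA.inv (R p) (hR p hp) _ _ h1 h3
    have h6 := hA.lip (R p) (hR p hp) _ _ h1 h3
    have h7 := hA.inv p hp u v (hu.trans hr1r) (hv.trans hr1r)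
    have h8 := hA.lip p hp u v (hu.trans hr1r) (hv.trans hr1r)
    obtain ⟨h9, h10⟩ := hbil (e p u) (e p v)
    rw [h2, h4] at h5 h6
    constructor
    · calc ‖Rm p u - Rm p v‖ ≤ K * dist (R (e p u)) (R (e p v)) := h5
        _ ≤ K * (L' * dist (e p u) (e p v)) := by gcongr
        _ ≤ K * (L' * (K * ‖u - v‖)) := by gcongr
        _ = K ^ 2 * L' * ‖u - v‖ := by ring
    · calc ‖u - v‖ ≤ K * dist (e p u) (e p v) := h7
        _ ≤ K * (L' * dist (R (e p u)) (R (e p v))) := by gcongr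
        _ ≤ K * (L' * (K * ‖Rm p u - Rm p v‖)) := by gcongr
        _ = K ^ 2 * L' * ‖Rm p u - Rm p v‖ := by ring

end Pool.MP74738e.Pos

end

section

/-!
# MP_74738e_an, the positive half: the closing lemma
-/

set_option autoImplicit false

namespace Pool.MP74738e.Pos

open Filter Topology Set Metric Pool.MP74738e
open scoped ENNReal NNReal

universe u

namespace Close

/-- choice of the parameter -/
lemma par {A M α δ : ℝ} (hA : 0 ≤ A) (hM : 0 ≤ M) (hα1 : α < 1) (hδ : 0 < δ) :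
    ∃ η > (0 : ℝ), A * η ≤ δ ∧ (2 * (A * η)) ^ (1 - α) * M ≤ δ := by
  have h1 : 0 < 1 - α := by linarith
  set C : ℝ := 2 * A + 1 with hC
  have hC0 : 0 < C := by positivity
  set B : ℝ := (δ / (M + 1)) ^ (1 / (1 - α)) with hB
  have hB0 : 0 < B := by positivity
  refine ⟨min (δ / C) (B / C), lt_min (by positivity) (by positivity), ?_, ?_⟩
  · have h2 : min (δ / C) (B / C) ≤ δ / C := min_le_left _ _
    have h3 : 0 ≤ min (δ / C) (B / C) := (lt_min (by positivity) (by positivity)).le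
    have h4 : C * min (δ / C) (B / C) ≤ δ := by
      have := mul_le_mul_of_nonneg_left h2 hC0.le
      rwa [mul_div_cancel₀ _ hC0.ne'] at this
    nlinarith
  · have h2 : min (δ / C) (B / C) ≤ B / C := min_le_right _ _
    have h3 : 0 ≤ min (δ / C) (B / C) := (lt_min (by positivity) (by positivity)).le
    have h4 : C * min (δ / C) (B / C) ≤ B := by
      have := mul_le_mul_of_nonneg_left h2 hC0.le
      rwa [mul_div_cancel₀ _ hC0.ne'] at this
    have h5 : 2 * (A * min (δ / C) (B / C)) ≤ B := by nlinarith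
    have h6 : (2 * (A * min (δ / C) (B / C))) ^ (1 - α) ≤ B ^ (1 - α) :=
      Real.rpow_le_rpow (by positivity) h5 h1.le
    have h7 : B ^ (1 - α) = δ / (M + 1) := by
      rw [hB, ← Real.rpow_mul (by positivity), one_div, inv_mul_cancel₀ h1.ne', Real.rpow_one]
    rw [h7] at h6
    calc (2 * (A * min (δ / C) (B / C))) ^ (1 - α) * M ≤ δ / (M + 1) * M :=
          mul_le_mul_of_nonneg_right h6 hM
      _ ≤ δ := by
          rw [div_mul_eq_mul_div, div_le_iff₀ (by linarith)]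
          nlinarith

/-- norm on the segment -/
lemma seg {d : ℕ} {U W : V d} {R c : ℝ} (hU : ‖U‖ ≤ R) (hW : ‖W‖ ≤ R) (hc : c ∈ Icc (0 : ℝ) 1) :
    ‖W + c • (U - W)‖ ≤ R := by
  have h1 : W + c • (U - W) = (1 - c) • W + c • U := by
    rw [smul_sub, sub_smul, one_smul]
    abel
  rw [h1]
  have h2 : ‖(1 - c) • W + c • U‖ ≤ (1 - c) * ‖W‖ + c * ‖U‖ := by
    refine (norm_add_le _ _).trans ?_
    rw [norm_smul, norm_smul, Real.norm_eq_abs, Real.norm_eq_abs, abs_of_nonneg hc.1,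
      abs_of_nonneg (show 0 ≤ 1 - c by linarith [hc.2])]
  have h3 : (1 - c) * ‖W‖ ≤ (1 - c) * R := mul_le_mul_of_nonneg_left hW (by linarith [hc.2])
  have h4 : c * ‖U‖ ≤ c * R := mul_le_mul_of_nonneg_left hU hc.1
  linarith

end Close

open Close in
theorem I_Close (ha : StAtl.{u}) (hg : StGlue.{u}) (hi : StInt.{u}) (hp : StPush)
    (hs : StSel.{u}) : StClose.{u} := by
  intro X _ _ _ d hX N Φ Lf hΦ T L α δ hT hα0 hα1 hδ
  obtain ⟨z, K, r, e, hA, hsel⟩ := hs X d T (fun z => by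
    obtain ⟨K, r, e, h, -⟩ := ha X d hX {z}
    exact ⟨K, r, e, h⟩)
  have hK1 : 1 ≤ K := hA.one_le
  have hr : 0 < r := hA.pos
  have hΦ' : ∀ x y, ‖Φ x - Φ y‖ ≤ |Lf| * dist x y := fun x y =>
    (hΦ x y).trans (mul_le_mul_of_nonneg_right (le_abs_self _) dist_nonneg)
  have hT1 : ∀ x y, dist (T x) (T y) ≤ |L| * dist x y := fun x y =>
    (hT x y).1.trans (mul_le_mul_of_nonneg_right (le_abs_self _) dist_nonneg)
  have hT2 : ∀ x y, dist x y ≤ |L| * dist (T x) (T y) := fun x y =>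
    (hT x y).2.trans (mul_le_mul_of_nonneg_right (le_abs_self _) dist_nonneg)
  have hLf0 : 0 ≤ |Lf| := abs_nonneg _
  have hL0 : 0 ≤ |L| := abs_nonneg _
  set Q : ℝ := 6 * K ^ 2 * 2 ^ 8 with hQ
  have hQ0 : 0 ≤ Q := by positivity
  set L1 : ℝ := |Lf| * ((Q + 1) * |L|) with hL1
  have hL10 : 0 ≤ L1 := by positivity
  obtain ⟨η, hη, hη1, hη2⟩ := par (A := |Lf| * K) (M := L1 ^ α) (by positivity)
    (Real.rpow_nonneg hL10 _) hα1 hδ
  obtain ⟨x, m, U, W, hm, hU, hW, heU, heW, hUW, hsep⟩ := hsel η hη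
  by_cases hEq : U = W
  · refine ⟨T, x, m, ⟨L, hT⟩, hm, ?_, ?_, ?_⟩
    · rw [← heW, ← hEq, heU]
    · intro y
      rw [sub_self, norm_zero]
      exact hδ.le
    · intro y y'
      rw [sub_self, sub_self, sub_self, norm_zero]
      exact mul_nonneg hδ.le (Real.rpow_nonneg dist_nonneg _)
  obtain ⟨h, hWU, hL, hLs, hdisp, hsupp⟩ := hp d U W hEq
  have hfar : ∀ u : V d, r / 2 ≤ ‖u‖ → h u = u := by
    intro u hu
    apply hsupp
    intro c hc
    have h1 := seg hU hW hc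
    have h2 : ‖u‖ - ‖W + c • (U - W)‖ ≤ ‖u - (W + c • (U - W))‖ := norm_sub_norm_le _ _
    have h3 : ‖U - W‖ ≤ ‖U‖ + ‖W‖ := norm_sub_le _ _
    linarith
  obtain ⟨G, hG1, hG2, hG3, hG4, hG5⟩ := hg X d {z} K r e hA (fun _ => h)
    (fun _ _ u hu => hfar u hu)
  have hG3' := hG3 (2 ^ 8) (by norm_num) (fun _ _ u v => hL u v)
  have hG4' := hG4 (2 ^ 8) (by norm_num) (fun _ _ u v => hLs u v)
  obtain ⟨hG5', -⟩ := hG5 ‖U - W‖ (norm_nonneg _) (fun _ _ u => hdisp u)
  have hzz : z ∈ ({z} : Finset X) := Finset.mem_singleton_self z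
  -- the orbit of `x`
  have hfix : ∀ l, 1 ≤ l → l < m → G (T^[l] x) = T^[l] x := by
    intro l hl1 hl2
    by_cases hex : ∃ u : V d, ‖u‖ ≤ r ∧ e z u = T^[l] x
    · obtain ⟨u, hu, heu⟩ := hex
      have h1 : h u = u := by
        apply hsupp
        intro c hc
        by_contra hcon
        push Not at hcon
        exact hsep l hl1 hl2 c hc u hcon heu
      rw [← heu, hG1 z hzz u hu, h1]
    · push Not at hex
      apply hG2
      intro p hp' u hu
      rw [Finset.mem_singleton] at hp'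
      subst hp'
      exact hex u hu
  have horb : ∀ l, l < m → (T.trans G)^[l] x = T^[l] x := by
    intro l
    induction l with
    | zero => intro _; rfl
    | succ l ih =>
      intro hl
      rw [Function.iterate_succ_apply', ih (by omega), Equiv.trans_apply,
        ← Function.iterate_succ_apply' (f := T) l x]
      exact hfix (l + 1) (by omega) hl
  refine ⟨T.trans G, x, m, ⟨Q * |L|, ?_⟩, hm, ?_, ?_, ?_⟩
  · intro y y'
    constructor
    · calc dist (G (T y)) (G (T y')) ≤ Q * dist (T y) (T y') := hG3' _ _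
        _ ≤ Q * (|L| * dist y y') := mul_le_mul_of_nonneg_left (hT1 _ _) hQ0
        _ = Q * |L| * dist y y' := by ring
    · have h1 := hG4' (G (T y)) (G (T y'))
      rw [Equiv.symm_apply_apply, Equiv.symm_apply_apply] at h1
      calc dist y y' ≤ |L| * dist (T y) (T y') := hT2 _ _
        _ ≤ |L| * (Q * dist (G (T y)) (G (T y'))) := mul_le_mul_of_nonneg_left h1 hL0
        _ = Q * |L| * dist (G (T y)) (G (T y')) := by ring
  · obtain ⟨l, rfl⟩ : ∃ l, m = l + 1 := ⟨m - 1, by omega⟩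
    rw [Function.iterate_succ_apply', horb l (by omega), Equiv.trans_apply,
      ← Function.iterate_succ_apply' (f := T) l x, ← heW, hG1 z hzz W (by linarith), hWU, heU]
  · intro y
    calc ‖Φ (G (T y)) - Φ (T y)‖ ≤ |Lf| * dist (G (T y)) (T y) := hΦ' _ _
      _ ≤ |Lf| * (K * ‖U - W‖) := mul_le_mul_of_nonneg_left (hG5' _) hLf0
      _ ≤ |Lf| * (K * η) := by
          apply mul_le_mul_of_nonneg_left _ hLf0
          exact mul_le_mul_of_nonneg_left hUW.le (by linarith)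
      _ = |Lf| * K * η := by ring
      _ ≤ δ := hη1
  · have hF1 : ∀ y, ‖Φ ((T.trans G) y) - Φ (T y)‖ ≤ |Lf| * K * η := by
      intro y
      calc ‖Φ (G (T y)) - Φ (T y)‖ ≤ |Lf| * dist (G (T y)) (T y) := hΦ' _ _
        _ ≤ |Lf| * (K * ‖U - W‖) := mul_le_mul_of_nonneg_left (hG5' _) hLf0
        _ ≤ |Lf| * (K * η) := by
            apply mul_le_mul_of_nonneg_left _ hLf0
            exact mul_le_mul_of_nonneg_left hUW.le (by linarith)
        _ = |Lf| * K * η := by ring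
    have hF2 : ∀ y y', ‖(Φ ((T.trans G) y) - Φ (T y)) - (Φ ((T.trans G) y') - Φ (T y'))‖ ≤
        L1 * dist y y' := by
      intro y y'
      have h0 : (Φ ((T.trans G) y) - Φ (T y)) - (Φ ((T.trans G) y') - Φ (T y')) =
          (Φ (G (T y)) - Φ (G (T y'))) - (Φ (T y) - Φ (T y')) := by
        rw [Equiv.trans_apply, Equiv.trans_apply]
        abel
      rw [h0]
      have h1 : ‖Φ (G (T y)) - Φ (G (T y'))‖ ≤ |Lf| * (Q * (|L| * dist y y')) := by
        refine (hΦ' _ _).trans (mul_le_mul_of_nonneg_left ?_ hLf0)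
        exact (hG3' _ _).trans (mul_le_mul_of_nonneg_left (hT1 _ _) hQ0)
      have h2 : ‖Φ (T y) - Φ (T y')‖ ≤ |Lf| * (|L| * dist y y') :=
        (hΦ' _ _).trans (mul_le_mul_of_nonneg_left (hT1 _ _) hLf0)
      calc _ ≤ ‖Φ (G (T y)) - Φ (G (T y'))‖ + ‖Φ (T y) - Φ (T y')‖ := norm_sub_le _ _
        _ ≤ |Lf| * (Q * (|L| * dist y y')) + |Lf| * (|L| * dist y y') := add_le_add h1 h2
        _ = L1 * dist y y' := by rw [hL1]; ring
    intro y y'
    refine (hi X N (fun y => Φ ((T.trans G) y) - Φ (T y)) (|Lf| * K * η) L1 α hα0 hα1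
      (by positivity) hL10 hF1 hF2 y y').trans ?_
    exact mul_le_mul_of_nonneg_right hη2 (Real.rpow_nonneg dist_nonneg _)

end Pool.MP74738e.Pos

end

section

/-! MP_74738e_an, Pos, item C5: the crossing property of maps close to `R'`. -/

namespace Pool.MP74738e.Pos

open Filter Topology Set Metric Pool.MP74738e

universe u v

namespace CrFA

/-- an injective map of a finite set into itself is surjective -/
theorem surj {X : Type u} (O : Finset X) (R : X → X) (h1 : ∀ p ∈ O, R p ∈ O)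
    (h2 : ∀ p ∈ O, ∀ q ∈ O, R p = R q → p = q) : ∀ q ∈ O, ∃ p ∈ O, R p = q := by
  intro q hq
  exact Finset.surj_on_of_inj_on_of_card_le (s := O) (t := O) (fun p _ => R p)
    (fun p hp => h1 p hp) (fun p p' hp hp' h => h2 p hp p' hp' h) le_rfl q hq |>.imp
    fun p h => ⟨h.1, h.2.symm⟩

/-- sub-crossing of a slightly moved path -/
theorem moved (hs : StSub) {d : ℕ} [NeZero d] {ε : ℝ} (hε : 0 < ε) {z : V d} {Y Y' : ℝ → V d}
    {s t : ℝ} (hY' : ContinuousOn Y' (Icc s t)) (hYY : ∀ τ ∈ Icc s t, ‖Y' τ - Y τ‖ < ε / 4)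
    (hY : ∀ τ ∈ Icc s t, ∀ i, i ≠ ix d 0 → |Y τ i - z i| ≤ ε / 2)
    (hC : Cro (fun τ => Y τ (ix d 0)) s t (z (ix d 0) - 2 * ε) (z (ix d 0) + 2 * ε)) :
    ∃ s' t', s ≤ s' ∧ t' ≤ t ∧ (∀ τ ∈ Icc s' t', ‖Y' τ - z‖ ≤ ε) ∧
      Cro (fun τ => Y' τ (ix d 0)) s' t' (z (ix d 0) - ε) (z (ix d 0) + ε) := by
  obtain ⟨hst, -, hends⟩ := hC
  have hsI : s ∈ Icc s t := ⟨le_rfl, hst⟩
  have htI : t ∈ Icc s t := ⟨hst, le_rfl⟩
  have hco : ∀ τ ∈ Icc s t, ∀ i, |Y' τ i - Y τ i| < ε / 4 := fun τ hτ i =>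
    lt_of_le_of_lt (norm_le_pi_norm (Y' τ - Y τ) i) (hYY τ hτ)
  have hC' : Cro (fun τ => Y' τ (ix d 0)) s t (z (ix d 0) - ε) (z (ix d 0) + ε) := by
    refine ⟨hst, (continuous_apply (ix d 0)).comp_continuousOn hY', ?_⟩
    have h1 := abs_lt.1 (hco s hsI (ix d 0))
    have h2 := abs_lt.1 (hco t htI (ix d 0))
    rcases hends with ⟨h3, h4⟩ | ⟨h3, h4⟩
    · left
      constructor
      · show Y' s (ix d 0) ≤ _
        have h3' : Y s (ix d 0) ≤ z (ix d 0) - 2 * ε := h3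
        linarith
      · show _ ≤ Y' t (ix d 0)
        have h4' : z (ix d 0) + 2 * ε ≤ Y t (ix d 0) := h4
        linarith
    · right
      constructor
      · show Y' t (ix d 0) ≤ _
        have h3' : Y t (ix d 0) ≤ z (ix d 0) - 2 * ε := h3
        linarith
      · show _ ≤ Y' s (ix d 0)
        have h4' : z (ix d 0) + 2 * ε ≤ Y s (ix d 0) := h4
        linarith
  obtain ⟨s', t', h1, h2, h3, h4, h5⟩ := hs _ s t _ _ hC' (by linarith)
  have hsub : Icc s' t' ⊆ Icc s t := Icc_subset_Icc h1 h3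
  refine ⟨s', t', h1, h3, fun τ hτ => ?_, h2,
    ((continuous_apply (ix d 0)).comp_continuousOn hY').mono hsub, ?_⟩
  · rw [pi_norm_le_iff_of_nonneg hε.le]
    intro i
    by_cases hi : i = ix d 0
    · subst hi
      rw [Pi.sub_apply, Real.norm_eq_abs, abs_le]
      obtain ⟨h6, h7⟩ := h5 τ hτ
      constructor <;> linarith
    · have h6 := hY τ (hsub hτ) i hi
      have h7 := hco τ (hsub hτ) i
      rw [Pi.sub_apply, Real.norm_eq_abs]
      have h8 : Y' τ i - z i = (Y' τ i - Y τ i) + (Y τ i - z i) := by ring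
      rw [h8]
      refine (abs_add_le _ _).trans ?_
      linarith
  · rcases h4 with ⟨h6, h7⟩ | ⟨h6, h7⟩
    · left
      exact ⟨h6.le, h7.ge⟩
    · right
      exact ⟨h7.le, h6.ge⟩

end CrFA

open CrFA in
theorem I_CrF (hz : StZig) (hb : StBatC) (hs : StSub) (hl : StLocal) : StCrF.{u} := by
  intro X _ d _ hd O K r e hA R hRO hRinj r1 M Rm hR ρ J hJ hρ h3ρ hMr
  have hK := hA.one_le
  have hr := hA.pos
  obtain ⟨hr1, hr1r, hM, hRm⟩ := hR
  have hsurj := surj O R hRO hRinj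
  have hloc := fun p (hp : p ∈ O) => hl d hd M ρ J hM hρ hJ (Rm p) (hRm p hp).1
    (fun u v hu hv => (hRm p hp).2.2 u v (hu.trans h3ρ) (hv.trans h3ρ))
  have hloc' : ∀ q ∈ O, ∃ (a : Fin d) (g : ℝ → ℝ), XiOk M ρ a g ∧ ∀ p ∈ O, R p = q →
      ∀ (ε b : ℝ), 0 < ε → 512 * M ^ 2 ≤ b → ε * b ^ J = ρ → ∀ z z' : V d,
      ‖z‖ ≤ ρ / (256 * M ^ 2) → ‖z'‖ ≤ ρ / (256 * M ^ 2) → (∀ i, ∃ k : ℤ, z' i = k * ε) →
      ∀ (x : ℝ → V d) (s t : ℝ), ContinuousOn x (Icc s t) → (∀ τ ∈ Icc s t, ‖x τ - z‖ ≤ ε) →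
      Cro (fun τ => x τ (ix d 0)) s t (z (ix d 0) - ε) (z (ix d 0) + ε) →
      ∃ s' t', s ≤ s' ∧ t' ≤ t ∧
        (∀ τ ∈ Icc s' t', ‖bat (40 * M * ρ) 0 (gz ε b) J (x τ)‖ ≤ 3 * ρ ∧
          ‖Lam (40 * M * ρ) ε (10 * M * ρ) a g (Rm p (bat (40 * M * ρ) 0 (gz ε b) J (x τ)))‖
            ≤ 20 * M * ρ ∧
          ∀ i, i ≠ ix d 0 → |Lam (40 * M * ρ) ε (10 * M * ρ) a g
            (Rm p (bat (40 * M * ρ) 0 (gz ε b) J (x τ))) i - z' i| ≤ ε / 2) ∧
        Cro (fun τ => Lam (40 * M * ρ) ε (10 * M * ρ) a g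
          (Rm p (bat (40 * M * ρ) 0 (gz ε b) J (x τ))) (ix d 0)) s' t'
          (z' (ix d 0) - 2 * ε) (z' (ix d 0) + 2 * ε) := by
    intro q hq
    obtain ⟨p, hp, rfl⟩ := hsurj q hq
    obtain ⟨a, g, h1, h2⟩ := hloc p hp
    refine ⟨a, g, h1, fun p' hp' hpp => ?_⟩
    obtain rfl := hRinj p' hp' p hp hpp
    exact h2
  choose! a g hag hcr using hloc'
  refine ⟨a, g, hag, ?_⟩
  intro ε b hε hb512 hρε R' hForm
  have hM2 : (1 : ℝ) ≤ M ^ 2 := by nlinarith
  have hb1 : (1 : ℝ) ≤ b := by linarith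
  have hερ : ε ≤ ρ := by
    rw [← hρε]
    exact le_mul_of_one_le_right hε.le (one_le_pow₀ hb1)
  have hρM : ρ ≤ M * ρ := le_mul_of_one_le_left hρ.le hM
  refine ⟨ε / (8 * K), by positivity, ?_⟩
  intro F hF hFR p hp z hz z' hz' γ s t hPC
  obtain ⟨x, hx1, hx2, hx3⟩ := hPC
  obtain ⟨hzn, -⟩ := hz
  obtain ⟨hz'n, hz'k⟩ := hz'
  have hRp := hRO p hp
  obtain ⟨s', t', hs', ht', hin, hC⟩ := hcr (R p) hRp p hp rfl ε b hε hb512 hρε z z' hzn hz'n
    (fun i => by
      obtain ⟨k, hk⟩ := hz'k i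
      exact ⟨4 * k, by rw [hk]; push_cast; ring⟩) x s t hx1 (fun τ hτ => (hx2 τ hτ).2) hx3
  have hsub : Icc s' t' ⊆ Icc s t := Icc_subset_Icc hs' ht'
  -- norms
  have hW : ρ / (256 * M ^ 2) ≤ ρ := div_le_self hρ.le (by linarith)
  have hxr : ∀ τ ∈ Icc s t, ‖x τ‖ ≤ r := by
    intro τ hτ
    have h1 : ‖x τ‖ ≤ ‖x τ - z‖ + ‖z‖ := norm_le_norm_sub_add _ _
    have h2 := (hx2 τ hτ).2
    linarith
  set Y : ℝ → V d := fun τ => Lam (40 * M * ρ) ε (10 * M * ρ) (a (R p)) (g (R p))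
    (Rm p (bat (40 * M * ρ) 0 (gz ε b) J (x τ))) with hYdef
  have hYn : ∀ τ ∈ Icc s' t', ‖Y τ‖ ≤ 20 * M * ρ := fun τ hτ => (hin τ hτ).2.1
  have hRY : ∀ τ ∈ Icc s' t', R' (γ τ) = e (R p) (Y τ) := by
    intro τ hτ
    rw [(hx2 τ (hsub hτ)).1]
    exact hForm p hp (x τ) (hxr τ (hsub hτ)) ((hin τ hτ).1.trans h3ρ)
  have hex : ∀ τ ∈ Icc s' t', ∃ v, ‖v - Y τ‖ < ε / 4 ∧ e (R p) v = F (γ τ) := by
    intro τ hτ
    refine hA.opn (R p) hRp (Y τ) (ε / 4) (F (γ τ)) (by positivity) ?_ ?_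
    · have := hYn τ hτ
      linarith
    · rw [← hRY τ hτ]
      refine lt_of_le_of_lt (hFR (γ τ)) ?_
      rw [div_div]
      apply div_lt_div_of_pos_left hε (by positivity)
      nlinarith
  choose! Y' hY'1 hY'2 using hex
  have hY'n : ∀ τ ∈ Icc s' t', ‖Y' τ‖ ≤ r := by
    intro τ hτ
    have h1 : ‖Y' τ‖ ≤ ‖Y' τ - Y τ‖ + ‖Y τ‖ := norm_le_norm_sub_add _ _
    have h2 := hY'1 τ hτ
    have h3 := hYn τ hτ
    linarith
  -- continuity
  have hγ : ContinuousOn γ (Icc s t) := by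
    intro τ hτ
    rw [ContinuousWithinAt, tendsto_iff_dist_tendsto_zero]
    have h1 : Tendsto (fun σ => K * ‖x σ - x τ‖) (𝓝[Icc s t] τ) (𝓝 0) := by
      have h2 : Tendsto (fun σ => ‖x σ - x τ‖) (𝓝[Icc s t] τ) (𝓝 0) :=
        tendsto_iff_norm_sub_tendsto_zero.1 (hx1 τ hτ)
      simpa using h2.const_mul K
    refine squeeze_zero' (Eventually.of_forall fun _ => dist_nonneg) ?_ h1
    filter_upwards [self_mem_nhdsWithin] with σ hσ
    rw [(hx2 τ hτ).1, (hx2 σ hσ).1]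
    exact hA.lip p hp _ _ (hxr σ hσ) (hxr τ hτ)
  have hFγ : ContinuousOn (F ∘ γ) (Icc s' t') := hF.comp_continuousOn (hγ.mono hsub)
  have hY'c : ContinuousOn Y' (Icc s' t') := by
    intro τ hτ
    rw [ContinuousWithinAt, tendsto_iff_norm_sub_tendsto_zero]
    have h1 : Tendsto (fun σ => K * dist (F (γ σ)) (F (γ τ))) (𝓝[Icc s' t'] τ) (𝓝 0) := by
      have h2 : Tendsto (fun σ => dist (F (γ σ)) (F (γ τ))) (𝓝[Icc s' t'] τ) (𝓝 0) :=
        tendsto_iff_dist_tendsto_zero.1 (hFγ τ hτ)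
      simpa using h2.const_mul K
    refine squeeze_zero' (Eventually.of_forall fun _ => norm_nonneg _) ?_ h1
    filter_upwards [self_mem_nhdsWithin] with σ hσ
    rw [← hY'2 τ hτ, ← hY'2 σ hσ]
    exact hA.inv (R p) hRp _ _ (hY'n σ hσ) (hY'n τ hτ)
  obtain ⟨s'', t'', h1, h2, h3, h4⟩ := moved hs hε hY'c hY'1 (fun τ hτ => (hin τ hτ).2.2) hC
  have hsub' : Icc s'' t'' ⊆ Icc s' t' := Icc_subset_Icc h1 h2
  refine ⟨s'', t'', hs'.trans h1, h2.trans ht', Y', hY'c.mono hsub', fun τ hτ => ?_, h4⟩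
  exact ⟨(hY'2 τ (hsub' hτ)).symm, h3 τ hτ⟩

end Pool.MP74738e.Pos

end

section

namespace Pool.MP74738e.Pos

open Filter Topology Set Metric Pool.MP74738e

universe u v

namespace Den2

lemma holder_of_lip {X : Type u} [MetricSpace X] [BoundedSpace X] {α : ℝ} (hα : 0 < α)
    (hα1 : α < 1) (T : X → X) (L : ℝ) (hT : ∀ x y, dist (T x) (T y) ≤ L * dist x y) :
    ∃ C : ℝ, ∀ x y, dist (T x) (T y) ≤ C * dist x y ^ α := by
  obtain ⟨D, hD⟩ : ∃ D : ℝ, ∀ x y : X, dist x y ≤ D := by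
    obtain ⟨D, hD⟩ := (Metric.isBounded_iff.mp (Bornology.IsBounded.all (univ : Set X)))
    exact ⟨D, fun x y => hD (mem_univ x) (mem_univ y)⟩
  refine ⟨|L| * max D 0 ^ (1 - α), fun x y => ?_⟩
  rcases eq_or_ne x y with rfl | hxy
  · simp [Real.zero_rpow hα.ne']
  · have hpos : 0 < dist x y := dist_pos.mpr hxy
    have h1 : dist x y ^ (1 - α) ≤ max D 0 ^ (1 - α) :=
      Real.rpow_le_rpow hpos.le (le_max_of_le_left (hD x y)) (by linarith)
    calc dist (T x) (T y) ≤ L * dist x y := hT x y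
      _ ≤ |L| * dist x y := mul_le_mul_of_nonneg_right (le_abs_self L) hpos.le
      _ = |L| * (dist x y ^ (1 - α) * dist x y ^ α) := by
          rw [← Real.rpow_add hpos, sub_add_cancel, Real.rpow_one]
      _ ≤ |L| * (max D 0 ^ (1 - α) * dist x y ^ α) := by
          apply mul_le_mul_of_nonneg_left _ (abs_nonneg L)
          exact mul_le_mul_of_nonneg_right h1 (Real.rpow_nonneg hpos.le α)
      _ = |L| * max D 0 ^ (1 - α) * dist x y ^ α := by ring

end Den2

open Den2 in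
theorem I_Den2 (hc : StClose.{u}) (hd : StDen1.{u}) : StDen2.{u} := by
  intro X _ _ _ d h2 hX N Φ Kf Lf α hK hL hα hαd T hT δ η hδ hη
  have hα1 : α < 1 := by
    by_contra h
    have h3 : (2 : ℝ) ≤ d := by exact_mod_cast h2
    nlinarith
  obtain ⟨hbij, K, hKT⟩ := hT
  have hδ8 : 0 < δ / 8 := by positivity
  obtain ⟨T1, x, m, ⟨L1, hB1⟩, hm, hper, a1, a2⟩ := hc X d hX N Φ Lf hL
    (Equiv.ofBijective T.1 hbij) K α (δ / 8) hKT hα hα1 hδ8
  obtain ⟨T2, ⟨L2, hB2⟩, b1, b2, θ, hθ, ε, hε, hεη, hS⟩ := hd X d h2 hX N Φ Kf Lf α hK hL hα hαd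
    T1 L1 hB1 x m hm hper (δ / 8) η hδ8 hη
  have hH : ∃ C : ℝ, ∀ x y, dist (T2 x) (T2 y) ≤ C * dist x y ^ α :=
    holder_of_lip hα hα1 T2 L2 fun x y => (hB2 x y).1
  refine ⟨⟨T2, hH⟩, ⟨T2.bijective, L2, hB2⟩, ?_, θ, hθ, ε, hε, hεη, ?_⟩
  · change dAlpha α Φ T2 T.1 ≤ ENNReal.ofReal δ
    refine (dAlpha_le (δ := δ / 4) (by positivity) (fun x => ?_) (fun x y => ?_)).trans ?_
    · have h3 := a1 x
      have h4 := b1 x
      rw [Equiv.ofBijective_apply] at h3
      calc ‖Φ (T2 x) - Φ (T.1 x)‖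
          = ‖(Φ (T2 x) - Φ (T1 x)) + (Φ (T1 x) - Φ (T.1 x))‖ := by rw [sub_add_sub_cancel]
        _ ≤ ‖Φ (T2 x) - Φ (T1 x)‖ + ‖Φ (T1 x) - Φ (T.1 x)‖ := norm_add_le _ _
        _ ≤ δ / 4 := by linarith
    · have h3 := a2 x y
      have h4 := b2 x y
      rw [Equiv.ofBijective_apply, Equiv.ofBijective_apply] at h3
      have h5 : (Φ (T2 x) - Φ (T.1 x)) - (Φ (T2 y) - Φ (T.1 y))
          = ((Φ (T2 x) - Φ (T1 x)) - (Φ (T2 y) - Φ (T1 y)))
            + ((Φ (T1 x) - Φ (T.1 x)) - (Φ (T1 y) - Φ (T.1 y))) := by abel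
      calc ‖(Φ (T2 x) - Φ (T.1 x)) - (Φ (T2 y) - Φ (T.1 y))‖
          ≤ ‖(Φ (T2 x) - Φ (T1 x)) - (Φ (T2 y) - Φ (T1 y))‖
            + ‖(Φ (T1 x) - Φ (T.1 x)) - (Φ (T1 y) - Φ (T.1 y))‖ := by
              rw [h5]; exact norm_add_le _ _
        _ ≤ δ / 8 * dist x y ^ α + δ / 8 * dist x y ^ α := add_le_add h4 h3
        _ = δ / 4 * dist x y ^ α := by ring
    · exact ENNReal.ofReal_le_ofReal (by linarith)
  · intro S hSL hSd
    apply hS S hSL
    change dAlpha α Φ S.1 T2 ≤ ENNReal.ofReal θ at hSd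
    exact fun x => norm_sub_le_of_dAlpha hθ.le hSd x

end Pool.MP74738e.Pos

end

section

/-!
# MP_74738e_an, the positive half, item C2: glueing homeomorphisms in charts
-/

namespace Pool.MP74738e.Pos

open Filter Topology Set Metric Pool.MP74738e
open scoped ENNReal NNReal

universe u v

namespace Glue

variable {X : Type u} [MetricSpace X] {d : ℕ}

open Classical in
/-- the glued map -/
noncomputable def gl (O : Finset X) (r : ℝ) (e : X → V d → X) (k : X → V d → V d) (x : X) : X :=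
  if hx : ∃ q : X × V d, q.1 ∈ O ∧ ‖q.2‖ ≤ r ∧ e q.1 q.2 = x then
    e hx.choose.1 (k hx.choose.1 hx.choose.2) else x

variable {O : Finset X} {K r : ℝ} {e : X → V d → X}

theorem uniq (hA : Atl d O K r e) {p q : X} (hp : p ∈ O) (hq : q ∈ O) {a b : V d} (ha : ‖a‖ ≤ r)
    (hb : ‖b‖ ≤ r) (h : e p a = e q b) : p = q ∧ a = b := by
  have h1 := hA.disj p hp q hq a b ha hb h
  subst h1
  refine ⟨rfl, ?_⟩
  have h2 := hA.inv p hp a b ha hb
  rw [h, dist_self, mul_zero] at h2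
  exact sub_eq_zero.mp (norm_le_zero_iff.mp h2)

theorem gl_eq (hA : Atl d O K r e) (k : X → V d → V d) {p : X} (hp : p ∈ O) {a : V d}
    (ha : ‖a‖ ≤ r) : gl O r e k (e p a) = e p (k p a) := by
  have hx : ∃ q : X × V d, q.1 ∈ O ∧ ‖q.2‖ ≤ r ∧ e q.1 q.2 = e p a := ⟨(p, a), hp, ha, rfl⟩
  unfold gl
  rw [dif_pos hx]
  obtain ⟨h1, h2, h3⟩ := hx.choose_spec
  obtain ⟨h4, h5⟩ := uniq hA h1 hp h2 ha h3
  rw [h4, h5]

theorem gl_out (k : X → V d → V d) {x : X} (h : ∀ p ∈ O, ∀ a, ‖a‖ ≤ r → e p a ≠ x) :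
    gl O r e k x = x := by
  unfold gl
  rw [dif_neg]
  rintro ⟨q, h1, h2, h3⟩
  exact h q.1 h1 q.2 h2 h3

/-- the maps are the identity outside of the ball of radius `r / 2` -/
def Supp (O : Finset X) (r : ℝ) (k : X → (V d ≃ V d)) : Prop :=
  ∀ p ∈ O, ∀ a, r / 2 ≤ ‖a‖ → k p a = a

theorem supp_symm {k : X → (V d ≃ V d)} (hk : Supp O r k) : Supp O r (fun p => (k p).symm) := by
  intro p hp a ha
  rw [Equiv.symm_apply_eq]
  exact (hk p hp a ha).symm

theorem small {k : X → (V d ≃ V d)} (hk : Supp O r k) {p : X} (hp : p ∈ O) {a : V d}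
    (ha : ‖a‖ < r / 2) : ‖k p a‖ < r / 2 := by
  by_contra hcon
  push Not at hcon
  have h1 := hk p hp (k p a) hcon
  have h2 := (k p).injective h1
  rw [h2] at hcon
  linarith

theorem le_r {k : X → (V d ≃ V d)} (hr : 0 < r) (hk : Supp O r k) {p : X} (hp : p ∈ O)
    {a : V d} (ha : ‖a‖ ≤ r) : ‖k p a‖ ≤ r := by
  rcases lt_or_ge ‖a‖ (r / 2) with h | h
  · have := small hk hp h
    linarith
  · rw [hk p hp a h]
    exact ha

theorem gl_gl (hA : Atl d O K r e) {k k' : X → (V d ≃ V d)} (hk : Supp O r k)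
    (hkk : ∀ p a, k' p (k p a) = a) (x : X) :
    gl O r e (fun p => k' p) (gl O r e (fun p => k p) x) = x := by
  by_cases hx : ∃ p ∈ O, ∃ a, ‖a‖ ≤ r ∧ e p a = x
  · obtain ⟨p, hp, a, ha, rfl⟩ := hx
    rw [gl_eq hA _ hp ha, gl_eq hA _ hp (le_r hA.pos hk hp ha), hkk]
  · push Not at hx
    rw [gl_out _ hx, gl_out _ hx]

theorem disp (hA : Atl d O K r e) {k : X → (V d ≃ V d)} (hk : Supp O r k) {A : ℝ} (hA0 : 0 ≤ A)
    (h : ∀ p ∈ O, ∀ a, ‖a‖ ≤ r → ‖k p a - a‖ ≤ A) (x : X) :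
    dist (gl O r e (fun p => k p) x) x ≤ K * A := by
  have hK : 0 ≤ K := zero_le_one.trans hA.one_le
  by_cases hx : ∃ p ∈ O, ∃ a, ‖a‖ ≤ r ∧ e p a = x
  · obtain ⟨p, hp, a, ha, rfl⟩ := hx
    rw [gl_eq hA _ hp ha]
    exact (hA.lip p hp _ _ (le_r hA.pos hk hp ha) ha).trans
      (mul_le_mul_of_nonneg_left (h p hp a ha) hK)
  · push Not at hx
    rw [gl_out _ hx, dist_self]
    positivity

theorem disp_r (hA : Atl d O K r e) {k : X → (V d ≃ V d)} (hk : Supp O r k) (x : X) :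
    dist (gl O r e (fun p => k p) x) x ≤ K * r := by
  refine disp hA hk hA.pos.le (fun p hp a ha => ?_) x
  rcases lt_or_ge ‖a‖ (r / 2) with h | h
  · have h1 := small hk hp h
    have h2 := norm_sub_le (k p a) a
    linarith
  · rw [hk p hp a h, sub_self, norm_zero]
    exact hA.pos.le

/-- a point in the inner part of a chart -/
theorem lip1 (hA : Atl d O K r e) {k : X → (V d ≃ V d)} (hk : Supp O r k) {L : ℝ} (hL : 1 ≤ L)
    (hkL : ∀ p ∈ O, ∀ a b, ‖k p a - k p b‖ ≤ L * ‖a - b‖) {p : X} (hp : p ∈ O) {a : V d}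
    (ha : ‖a‖ < r / 2) (y : X) :
    dist (gl O r e (fun p => k p) (e p a)) (gl O r e (fun p => k p) y) ≤
      6 * K ^ 2 * L * dist (e p a) y := by
  have hK : 1 ≤ K := hA.one_le
  have hK0 : 0 < K := by linarith
  have hr := hA.pos
  have ha' : ‖a‖ ≤ r := by linarith
  have hdn : 0 ≤ dist (e p a) y := dist_nonneg
  by_cases hy : ∃ b, ‖b‖ ≤ r ∧ e p b = y
  · obtain ⟨b, hb, rfl⟩ := hy
    rw [gl_eq hA _ hp ha', gl_eq hA _ hp hb]
    have h1 := hA.lip p hp _ _ (le_r hr hk hp ha') (le_r hr hk hp hb)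
    have h2 := hkL p hp a b
    have h3 := hA.inv p hp a b ha' hb
    calc dist (e p (k p a)) (e p (k p b)) ≤ K * ‖k p a - k p b‖ := h1
      _ ≤ K * (L * (K * dist (e p a) (e p b))) := by
          refine mul_le_mul_of_nonneg_left (h2.trans ?_) hK0.le
          exact mul_le_mul_of_nonneg_left h3 (by linarith)
      _ = K ^ 2 * L * dist (e p a) (e p b) := by ring
      _ ≤ 6 * K ^ 2 * L * dist (e p a) (e p b) := by
          have : 0 ≤ K ^ 2 * L * dist (e p a) (e p b) := by positivity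
          linarith
  · have hfar : r / 2 / K ≤ dist (e p a) y := by
      by_contra hcon
      push Not at hcon
      rw [dist_comm] at hcon
      obtain ⟨b, hb1, hb2⟩ := hA.opn p hp a (r / 2) y (by linarith) (by linarith) hcon
      refine hy ⟨b, ?_, hb2⟩
      have h1 : ‖b‖ ≤ ‖b - a‖ + ‖a‖ := by
        have := norm_add_le (b - a) a
        rwa [sub_add_cancel] at this
      linarith
    have h1 := disp_r hA hk (e p a)
    have h2 := disp_r hA hk y
    have h3 : dist (gl O r e (fun p => k p) (e p a)) (gl O r e (fun p => k p) y) ≤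
        dist (gl O r e (fun p => k p) (e p a)) (e p a) + dist (e p a) y +
          dist y (gl O r e (fun p => k p) y) := dist_triangle4 _ _ _ _
    rw [dist_comm y] at h3
    have h4 : r ≤ 2 * K * dist (e p a) y := by
      rw [div_div, div_le_iff₀ (by positivity)] at hfar
      linarith
    have h5 : K * r ≤ 2 * K ^ 2 * dist (e p a) y := by
      have := mul_le_mul_of_nonneg_left h4 hK0.le
      linarith
    have h6 : dist (gl O r e (fun p => k p) (e p a)) (gl O r e (fun p => k p) y) ≤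
        (4 * K ^ 2 + 1) * dist (e p a) y := by linarith
    refine h6.trans (mul_le_mul_of_nonneg_right ?_ hdn)
    have h7 : 1 ≤ K ^ 2 := one_le_pow₀ hK
    have h8 : K ^ 2 ≤ K ^ 2 * L := le_mul_of_one_le_right (by positivity) hL
    linarith

theorem lip (hA : Atl d O K r e) {k : X → (V d ≃ V d)} (hk : Supp O r k) {L : ℝ} (hL : 1 ≤ L)
    (hkL : ∀ p ∈ O, ∀ a b, ‖k p a - k p b‖ ≤ L * ‖a - b‖) (x y : X) :
    dist (gl O r e (fun p => k p) x) (gl O r e (fun p => k p) y) ≤ 6 * K ^ 2 * L * dist x y := by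
  have hfix : ∀ x, (¬ ∃ p ∈ O, ∃ a, ‖a‖ < r / 2 ∧ e p a = x) →
      gl O r e (fun p => k p) x = x := by
    intro x hx
    push Not at hx
    by_cases h1 : ∃ p ∈ O, ∃ a, ‖a‖ ≤ r ∧ e p a = x
    · obtain ⟨p, hp, a, ha, rfl⟩ := h1
      rw [gl_eq hA _ hp ha]
      rcases lt_or_ge ‖a‖ (r / 2) with h | h
      · exact absurd rfl (hx p hp a h)
      · rw [hk p hp a h]
    · push Not at h1
      exact gl_out _ h1
  by_cases hx : ∃ p ∈ O, ∃ a, ‖a‖ < r / 2 ∧ e p a = x
  · obtain ⟨p, hp, a, ha, rfl⟩ := hx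
    exact lip1 hA hk hL hkL hp ha y
  · by_cases hy : ∃ p ∈ O, ∃ a, ‖a‖ < r / 2 ∧ e p a = y
    · obtain ⟨p, hp, a, ha, rfl⟩ := hy
      rw [dist_comm, dist_comm x]
      exact lip1 hA hk hL hkL hp ha x
    · rw [hfix x hx, hfix y hy]
      have h7 : 1 ≤ K ^ 2 := one_le_pow₀ hA.one_le
      have h8 : K ^ 2 ≤ K ^ 2 * L := le_mul_of_one_le_right (by positivity) hL
      refine le_mul_of_one_le_left dist_nonneg ?_
      linarith

end Glue

open Glue in
/-- C2: glueing homeomorphisms in charts -/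
theorem I_Glue : StGlue.{u} := by
  intro X _ d O K r e hA h hh
  have hs : Supp O r h := hh
  have hs' : Supp O r (fun p => (h p).symm) := supp_symm hs
  let G : X ≃ X :=
    { toFun := gl O r e (fun p => h p)
      invFun := gl O r e (fun p => (h p).symm)
      left_inv := fun x => gl_gl hA (k := h) (k' := fun p => (h p).symm) hs
        (fun p a => (h p).symm_apply_apply a) x
      right_inv := fun x => gl_gl hA (k := fun p => (h p).symm) (k' := h) hs'
        (fun p a => (h p).apply_symm_apply a) x }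
  refine ⟨G, ?_, ?_, ?_, ?_, ?_⟩
  · intro p hp a ha
    exact gl_eq hA (fun p => h p) hp ha
  · intro x hx
    exact gl_out (fun p => h p) hx
  · intro L hL hhL x y
    exact lip hA hs hL hhL x y
  · intro L hL hhL x y
    exact lip hA hs' hL hhL x y
  · intro A hA0 hhA
    refine ⟨fun x => disp hA hs hA0 (fun p hp a _ => ?_) x,
      fun x => disp hA hs' hA0 (fun p hp a _ => hhA p hp a) x⟩
    have h1 := hhA p hp (h p a)
    rw [Equiv.symm_apply_apply] at h1
    rw [norm_sub_rev]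
    exact h1

end Pool.MP74738e.Pos

end

section

namespace Pool.MP74738e.Pos

open Pool.MP74738e

namespace Grid

/-- the point with integer coordinates `k` -/
noncomputable def pt {d : ℕ} (ε : ℝ) (k : Fin d → ℤ) : V d := fun i => (k i : ℝ) * (4 * ε)

lemma pt_inj {d : ℕ} {ε : ℝ} (hε : 0 < ε) : Function.Injective (pt (d := d) ε) := by
  intro k k' h
  funext i
  have h1 : (k i : ℝ) * (4 * ε) = (k' i : ℝ) * (4 * ε) := congrFun h i
  have h2 : (k i : ℝ) = (k' i : ℝ) := mul_right_cancel₀ (by positivity) h1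
  exact_mod_cast h2

lemma pt_sep {d : ℕ} {ε : ℝ} (hε : 0 < ε) (k k' : Fin d → ℤ) (h : k ≠ k') :
    4 * ε ≤ ‖pt ε k - pt ε k'‖ := by
  obtain ⟨i, hi⟩ := Function.ne_iff.mp h
  have h1 := norm_le_pi_norm (pt ε k - pt ε k') i
  refine le_trans ?_ h1
  rw [Pi.sub_apply, Real.norm_eq_abs]
  have h2 : pt ε k i - pt ε k' i = ((k i - k' i : ℤ) : ℝ) * (4 * ε) := by
    unfold pt
    push_cast
    ring
  rw [h2, abs_mul, abs_of_pos (by positivity : (0 : ℝ) < 4 * ε)]
  have h3 : (1 : ℤ) ≤ |k i - k' i| := Int.one_le_abs (sub_ne_zero.mpr hi)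
  have h4 : (1 : ℝ) ≤ |((k i - k' i : ℤ) : ℝ)| := by exact_mod_cast h3
  nlinarith

end Grid

open Grid in
theorem I_Grid : StGrid := by
  classical
  intro d ε W hε hW
  have h4 : (0 : ℝ) < 4 * ε := by positivity
  set m : ℤ := ⌊W / (4 * ε)⌋ with hm
  have hm0 : 0 ≤ m := Int.floor_nonneg.mpr (by positivity)
  have hm1 : (m : ℝ) ≤ W / (4 * ε) := Int.floor_le _
  have hm2 : W / (4 * ε) < m + 1 := Int.lt_floor_add_one _
  refine ⟨(Fintype.piFinset (fun _ : Fin d => Finset.Icc (-m) m)).image (pt ε), ?_, ?_, ?_⟩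
  · intro z
    rw [Finset.mem_image]
    constructor
    · rintro ⟨k, hk, rfl⟩
      rw [Fintype.mem_piFinset] at hk
      refine ⟨?_, fun i => ⟨k i, rfl⟩⟩
      rw [pi_norm_le_iff_of_nonneg hW]
      intro i
      have h1 := Finset.mem_Icc.mp (hk i)
      have h2 : |k i| ≤ m := abs_le.mpr h1
      have h3 : |(k i : ℝ)| ≤ (m : ℝ) := by exact_mod_cast h2
      have h5 : ‖pt ε k i‖ = |(k i : ℝ)| * (4 * ε) := by
        unfold pt
        rw [Real.norm_eq_abs, abs_mul, abs_of_pos h4]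
      rw [h5]
      have h6 : |(k i : ℝ)| ≤ W / (4 * ε) := h3.trans hm1
      rwa [le_div_iff₀ h4] at h6
    · rintro ⟨hz, hk⟩
      choose k hk using hk
      refine ⟨k, ?_, ?_⟩
      · rw [Fintype.mem_piFinset]
        intro i
        rw [Finset.mem_Icc, ← abs_le, hm, Int.le_floor]
        have h1 : |z i| ≤ W := by
          have := norm_le_pi_norm z i
          rw [Real.norm_eq_abs] at this
          linarith
        rw [hk i, abs_mul, abs_of_pos h4, ← le_div_iff₀ h4] at h1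
        push_cast
        exact h1
      · funext i
        exact (hk i).symm
  · rw [Finset.card_image_of_injective _ (pt_inj hε), Fintype.card_piFinset]
    simp only [Int.card_Icc, Finset.prod_const, Finset.card_univ, Fintype.card_fin]
    push_cast
    apply pow_le_pow_left₀ (by positivity)
    have h1 : ((m + 1 - -m).toNat : ℤ) = m + 1 - -m := Int.toNat_of_nonneg (by omega)
    have h2 : (((m + 1 - -m).toNat : ℕ) : ℝ) = (m : ℝ) + 1 + m := by
      have h3 : (((m + 1 - -m).toNat : ℤ) : ℝ) = ((m + 1 - -m : ℤ) : ℝ) := by rw [h1]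
      rw [← Int.cast_natCast, h3]
      push_cast
      ring
    rw [h2]
    have h5 : (0 : ℝ) ≤ m := by exact_mod_cast hm0
    linarith
  · intro z hz z' hz' hne
    rw [Finset.mem_image] at hz hz'
    obtain ⟨k, -, rfl⟩ := hz
    obtain ⟨k', -, rfl⟩ := hz'
    exact pt_sep hε k k' (fun h => hne (by rw [h]))

end Pool.MP74738e.Pos

end

section

/-!
# MP_74738e_an, the positive half: item Grow2
-/

set_option autoImplicit false

namespace Pool.MP74738e.Pos

open Filter Topology Set Metric Pool.MP74738e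

namespace Grow2

theorem gz_cont (hz : StZig) {ε b : ℝ} (hε : 0 < ε) (hb : 0 < b) (j : ℕ) :
    Continuous (gz ε b j) := by
  obtain ⟨-, hL, -, -⟩ := hz (ε * b ^ (j - 1)) (ε * b ^ j) (by positivity) (by positivity)
  have hK : 0 ≤ 4 * (ε * b ^ j) / (ε * b ^ (j - 1)) := by positivity
  have : LipschitzWith ⟨4 * (ε * b ^ j) / (ε * b ^ (j - 1)), hK⟩ (gz ε b j) := by
    refine LipschitzWith.of_dist_le_mul fun s t => ?_
    rw [Real.dist_eq, Real.dist_eq]
    exact hL s t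
  exact this.continuous

end Grow2

theorem I_Grow2 (hz : StZig) (hb : StBatC) (hg : StGrow) : StGrow2 := by
  intro d _ hd rc ε b J z hε hb4 hJ hrc hz4 x s t hx hxz hcro
  have hb0 : 0 < b := by linarith
  obtain ⟨A, hA⟩ : ∃ A, A = ε * b ^ J := ⟨_, rfl⟩
  have hA0 : 0 < A := by rw [hA]; positivity
  obtain ⟨A', hA'⟩ : ∃ A', A' = ε * b ^ (J - 1) := ⟨_, rfl⟩
  have hA'0 : 0 < A' := by rw [hA']; positivity
  have hz0 : 0 ≤ ‖z‖ := norm_nonneg z
  have hrc0 : 0 < rc := by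
    rw [← hA] at hrc
    linarith
  obtain ⟨g1, g2, ⟨τ₁, hτ₁, h1⟩, ⟨τ₂, hτ₂, h2⟩⟩ :=
    hg d hd rc ε b J z hε hb4 hrc x s t hx hxz hcro
  obtain ⟨hcont, -, -⟩ := hb d rc 0 (gz ε b) hrc0 (fun j => Grow2.gz_cont hz hε hb0 j)
  rw [← hA] at hz4 g1 h1 h2 hrc
  rw [← hA'] at g2
  rw [← hA, ← hA']
  have hzi : ∀ i, |z i| ≤ ‖z‖ := fun i => norm_le_pi_norm z i
  set y : ℝ → V d := fun τ => bat rc 0 (gz ε b) J (x τ) with hy
  have hyc : ContinuousOn y (Icc s t) := (hcont J).comp_continuousOn hx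
  have hfc : ContinuousOn (fun τ => y τ (ix d J)) (Icc s t) :=
    (continuous_apply (ix d J)).comp_continuousOn hyc
  have hivt := isPreconnected_Icc.intermediate_value hτ₁ hτ₂ hfc
  have hzJ := abs_le.1 (hzi (ix d J))
  have e1 : y τ₁ (ix d J) ≤ z (ix d J) - A / 2 := h1
  have e2 : z (ix d J) + A / 2 ≤ y τ₂ (ix d J) := h2
  refine ⟨fun τ hτ => ?_, ?_, ?_⟩
  · show ‖y τ‖ ≤ _
    rw [pi_norm_le_iff_of_nonneg (by positivity)]
    intro i
    have e3 : |y τ i - z i| ≤ 2 * A := g1 τ hτ i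
    rw [Real.norm_eq_abs]
    have e4 := abs_add_le (y τ i - z i) (z i)
    rw [sub_add_cancel] at e4
    have e5 := hzi i
    linarith
  · obtain ⟨τ, hτ, hτ0⟩ := hivt (show (0 : ℝ) ∈ Icc (y τ₁ (ix d J)) (y τ₂ (ix d J)) from
      ⟨by linarith, by linarith⟩)
    refine ⟨τ, hτ, ?_⟩
    show ‖y τ‖ ≤ _
    rw [pi_norm_le_iff_of_nonneg (by positivity)]
    intro i
    rw [Real.norm_eq_abs]
    by_cases hi : i = ix d J
    · have e3 : y τ (ix d J) = 0 := hτ0
      rw [hi, e3, abs_zero]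
      positivity
    · have e3 : |y τ i - z i| ≤ 2 * A' := g2 τ hτ i hi
      have e4 := abs_add_le (y τ i - z i) (z i)
      rw [sub_add_cancel] at e4
      have e5 := hzi i
      linarith
  · obtain ⟨τ, hτ, hτ0⟩ := hivt (show A / 4 ∈ Icc (y τ₁ (ix d J)) (y τ₂ (ix d J)) from
      ⟨by linarith, by linarith⟩)
    refine ⟨τ, hτ, ?_⟩
    show ‖y τ - Pi.single (ix d J) (A / 4)‖ ≤ _
    rw [pi_norm_le_iff_of_nonneg (by positivity)]
    intro i
    rw [Real.norm_eq_abs, Pi.sub_apply]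
    by_cases hi : i = ix d J
    · have e3 : y τ (ix d J) = A / 4 := hτ0
      rw [hi, e3, Pi.single_eq_same, sub_self, abs_zero]
      positivity
    · have e3 : |y τ i - z i| ≤ 2 * A' := g2 τ hτ i hi
      rw [Pi.single_eq_of_ne hi, sub_zero]
      have e4 := abs_add_le (y τ i - z i) (z i)
      rw [sub_add_cancel] at e4
      have e5 := hzi i
      linarith

end Pool.MP74738e.Pos

end

section

/-!
# MP_74738e_an, item Itb: limits of itineraries
-/

namespace Pool.MP74738e.Pos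

open Filter Topology Set Metric Pool.MP74738e

universe u

namespace ItbA

/-- points of the orbit stay in `O` -/
theorem mem_iter {X : Type u} {O : Finset X} {R : X → X} (hR : ∀ p ∈ O, R p ∈ O) {p : X}
    (hp : p ∈ O) (i : ℕ) : R^[i] p ∈ O := by
  induction i with
  | zero => exact hp
  | succ n ih => rw [Function.iterate_succ_apply']; exact hR _ ih

/-- the closed balls in the charts are compact -/
theorem ball_closed {X : Type u} [MetricSpace X] {d : ℕ} {O : Finset X} {K r : ℝ}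
    {e : X → V d → X} (hA : Atl d O K r e) {p : X} (hp : p ∈ O) {c : V d} {ε : ℝ}
    (hc : ‖c‖ + ε ≤ r) : IsClosed (e p '' closedBall c ε) := by
  apply IsCompact.isClosed
  apply (isCompact_closedBall c ε).image_of_continuousOn
  have hn : ∀ u ∈ closedBall c ε, ‖u‖ ≤ r := by
    intro u hu
    rw [mem_closedBall, dist_eq_norm] at hu
    have h1 : ‖u‖ ≤ ‖c‖ + ‖u - c‖ := by
      calc ‖u‖ = ‖c + (u - c)‖ := by congr 1; abel
        _ ≤ _ := norm_add_le _ _
    linarith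
  have hK : 0 ≤ K := zero_le_one.trans hA.one_le
  have h2 : LipschitzOnWith (Real.toNNReal K) (e p) (closedBall c ε) := by
    apply LipschitzOnWith.of_dist_le_mul
    intro u hu v hv
    rw [Real.coe_toNNReal K hK, dist_eq_norm]
    exact hA.lip p hp u v (hn u hu) (hn v hv)
  exact h2.continuousOn

/-- iterates of `S` applied to iterates of the inverse -/
theorem iter_symm {X : Type u} (S : X ≃ X) (x : X) {n i : ℕ} (hi : i ≤ n) :
    S^[n - i] (S.symm^[n] x) = S.symm^[i] x := by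
  obtain ⟨m, rfl⟩ := Nat.exists_eq_add_of_le hi
  rw [Nat.add_sub_cancel_left, Nat.add_comm i m, Function.iterate_add_apply]
  exact (Function.RightInverse.iterate (f := S) (g := S.symm)
    (fun y => S.apply_symm_apply y) m) _

end ItbA

open ItbA in
theorem I_Itb : StItb.{u} := by
  intro X _ _ d O K r e hA ε W hε hW R T hR hT p hp hS w hw n
  have h1 : ∀ k : ℕ, ∃ (S : X ≃ X) (x : X), (∀ y, dist (S y) (T y) ≤ 1 / ((k : ℝ) + 1)) ∧
      ∀ i ≤ n, ∃ u, ‖u - w i‖ ≤ ε ∧ e (R^[i] p) u = S.symm^[i] x := by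
    intro k
    obtain ⟨S, hS1, hS2⟩ := hS (1 / ((k : ℝ) + 1)) Nat.one_div_pos_of_nat
    obtain ⟨x, hx⟩ := hS2 w hw n
    exact ⟨S, x, hS1, hx⟩
  choose S x hS1 hS2 using h1
  obtain ⟨y, φ, hφ, hy⟩ := CompactSpace.tendsto_subseq (fun k => (S k).symm^[n] (x k))
  have hlim : ∀ j : ℕ, Tendsto (fun k => (S (φ k))^[j] ((S (φ k)).symm^[n] (x (φ k)))) atTop
      (𝓝 (T^[j] y)) := by
    intro j
    induction j with
    | zero => exact hy
    | succ j ih =>
      have h2 : Tendsto (fun k => T ((S (φ k))^[j] ((S (φ k)).symm^[n] (x (φ k))))) atTop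
          (𝓝 (T (T^[j] y))) := (hT.tendsto _).comp ih
      rw [Function.iterate_succ_apply']
      rw [tendsto_iff_dist_tendsto_zero] at h2 ⊢
      have h3 : Tendsto (fun k => 1 / ((φ k : ℝ) + 1)) atTop (𝓝 0) :=
        tendsto_one_div_add_atTop_nhds_zero_nat.comp hφ.tendsto_atTop
      have h4 := h3.add h2
      rw [add_zero] at h4
      refine squeeze_zero (fun _ => dist_nonneg) (fun k => ?_) h4
      rw [Function.iterate_succ_apply']
      exact (dist_triangle _ (T ((S (φ k))^[j] ((S (φ k)).symm^[n] (x (φ k))))) _).trans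
        (add_le_add_left (hS1 _ _) _)
  refine ⟨y, fun i hi => ?_⟩
  have hpi := mem_iter hR hp i
  have hwi : ‖w i‖ + ε ≤ r := by
    have := (hw i).1
    linarith
  have hcl := ball_closed hA hpi hwi
  have hmem : T^[n - i] y ∈ e (R^[i] p) '' closedBall (w i) ε := by
    refine hcl.mem_of_tendsto (hlim (n - i)) (Eventually.of_forall fun k => ?_)
    obtain ⟨u, hu1, hu2⟩ := hS2 (φ k) i hi
    rw [iter_symm _ _ hi, ← hu2]
    exact ⟨u, by rw [mem_closedBall, dist_eq_norm]; exact hu1, rfl⟩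
  obtain ⟨u, hu1, hu2⟩ := hmem
  exact ⟨u, by rw [mem_closedBall, dist_eq_norm] at hu1; exact hu1, hu2⟩

end Pool.MP74738e.Pos

end

section

namespace Pool.MP74738e.Pos

namespace LaE

lemma lip_of_coord {d : ℕ} (l a : Fin d) (f : V d → V d) (x y : V d)
    (h1 : |f x l - f y l| ≤ 2 * ‖x - y‖ + 2 * 1 * |x a - y a|)
    (h2 : ∀ x i, i ≠ l → f x i = x i) : ‖f x - f y‖ ≤ 4 * ‖x - y‖ := by
  have hn : 0 ≤ ‖x - y‖ := norm_nonneg _
  rw [pi_norm_le_iff_of_nonneg (by linarith)]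
  intro i
  have hi : ∀ i, |x i - y i| ≤ ‖x - y‖ := fun i => by
    have := norm_le_pi_norm (x - y) i
    simpa [Real.norm_eq_abs] using this
  by_cases h : i = l
  · subst h
    rw [Pi.sub_apply, Real.norm_eq_abs]
    have := hi a
    linarith
  · rw [Pi.sub_apply, Real.norm_eq_abs, h2 x i h, h2 y i h]
    have := hi i
    linarith

end LaE

open LaE in
theorem I_LaE (hz : StZig) (hs : StShear) (hb : StBat) : StLaE := by
  intro d _ hd M ρ ε a g hM hε hερ hXi
  obtain ⟨hX1, hX2, hX3⟩ := hXi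
  have hρ : 0 < ρ := lt_of_lt_of_le hε hερ
  have hMρ : 0 < M * ρ := mul_pos (by linarith) hρ
  obtain ⟨h1, h1e, h1L, h1c, h1d, h1o, h1s⟩ := hs d (40 * M * ρ) (4 * M * ρ) 1 (ix d 1) a g
    (by nlinarith) (by nlinarith) (by norm_num) hX2 (fun s t => by simpa using hX3 s t) hX1
  obtain ⟨hz1, hz2, -, -⟩ := hz ε (10 * M * ρ) hε (by nlinarith)
  obtain ⟨h2, h2e, ⟨L, h2L⟩, h2c, h2d, h2s⟩ := hb d hd (40 * M * ρ) (10 * M * ρ)
    (4 * (10 * M * ρ) / ε) 1 (fun _ => zig ε (10 * M * ρ)) (by nlinarith) (by nlinarith)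
    (by positivity) (fun j _ _ => ⟨hz1, hz2⟩) (d - 1) (by omega)
  refine ⟨h1.trans h2, ?_, ⟨|L| * (2 + 1), ?_⟩, ?_, ?_, ?_⟩
  · intro x
    rw [Equiv.trans_apply, h2e, h1e]
    rfl
  · intro x y
    rw [Equiv.trans_apply, Equiv.trans_apply]
    calc ‖h2 (h1 x) - h2 (h1 y)‖ ≤ L * ‖h1 x - h1 y‖ := h2L _ _
      _ ≤ |L| * ‖h1 x - h1 y‖ := mul_le_mul_of_nonneg_right (le_abs_self L) (norm_nonneg _)
      _ ≤ |L| * ((2 + 1) * ‖x - y‖) := mul_le_mul_of_nonneg_left (h1L x y) (abs_nonneg _)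
      _ = |L| * (2 + 1) * ‖x - y‖ := by ring
  · intro x y
    rw [Equiv.symm_trans_apply, Equiv.symm_trans_apply]
    have e1 := lip_of_coord (ix d 1) a h1.symm (h2.symm x) (h2.symm y) (h1c _ _) h1o
    have e2 := h2c x y
    have e3 : 1 ≤ M * (ρ / ε) := by
      have : 1 ≤ ρ / ε := by rw [le_div_iff₀ hε]; linarith
      nlinarith
    have e4 : 4 * (2 ^ d * (1 + 2 * (4 * (10 * M * ρ) / ε))) ≤ 2 ^ d * 400 * M * (ρ / ε) := by
      have e5 : 4 * (2 ^ d * (1 + 2 * (4 * (10 * M * ρ) / ε)))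
          = 2 ^ d * (4 + 320 * (M * (ρ / ε))) := by
        field_simp
        ring
      have e6 : 2 ^ d * 400 * M * (ρ / ε) = 2 ^ d * (400 * (M * (ρ / ε))) := by ring
      rw [e5, e6]
      apply mul_le_mul_of_nonneg_left _ (by positivity)
      linarith
    calc ‖h1.symm (h2.symm x) - h1.symm (h2.symm y)‖ ≤ 4 * ‖h2.symm x - h2.symm y‖ := e1
      _ ≤ 4 * (2 ^ d * (1 + 2 * (4 * (10 * M * ρ) / ε)) * ‖x - y‖) := by linarith
      _ = 4 * (2 ^ d * (1 + 2 * (4 * (10 * M * ρ) / ε))) * ‖x - y‖ := by ring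
      _ ≤ 2 ^ d * 400 * M * (ρ / ε) * ‖x - y‖ := mul_le_mul_of_nonneg_right e4 (norm_nonneg _)
  · intro x
    rw [Equiv.symm_trans_apply]
    calc ‖h1.symm (h2.symm x) - x‖
        = ‖(h1.symm (h2.symm x) - h2.symm x) + (h2.symm x - x)‖ := by rw [sub_add_sub_cancel]
      _ ≤ ‖h1.symm (h2.symm x) - h2.symm x‖ + ‖h2.symm x - x‖ := norm_add_le _ _
      _ ≤ 4 * M * ρ + 10 * M * ρ := add_le_add (h1d _) (h2d _)
      _ = 14 * M * ρ := by ring
  · intro x hx
    have hx' : 2 * (40 * M * ρ) ≤ ‖x‖ := by linarith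
    rw [Equiv.trans_apply, h1s x hx', h2s x hx']

end Pool.MP74738e.Pos

end

section

namespace Pool.MP74738e.Pos

open Filter Topology Set Metric Pool.MP74738e
open scoped ENNReal NNReal

namespace Push

/-- perturbations of the identity by a contraction -/
theorem pert {d : ℕ} (p : V d → V d) (hp : ∀ x y, ‖p x - p y‖ ≤ 1 / 2 * ‖x - y‖) (A : ℝ)
    (hA : ∀ x, ‖p x‖ ≤ A) : ∃ h : V d ≃ V d, (∀ x, h x = x + p x) ∧
      (∀ x y, ‖h x - h y‖ ≤ 2 * ‖x - y‖) ∧ (∀ x y, ‖h.symm x - h.symm y‖ ≤ 2 * ‖x - y‖) ∧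
      ∀ x, ‖h.symm x - x‖ ≤ A := by
  have low : ∀ x y, ‖x - y‖ ≤ 2 * ‖(x + p x) - (y + p y)‖ := by
    intro x y
    have h1 : x - y = ((x + p x) - (y + p y)) - (p x - p y) := by abel
    have h2 : ‖x - y‖ ≤ ‖(x + p x) - (y + p y)‖ + ‖p x - p y‖ := by
      calc ‖x - y‖ = ‖((x + p x) - (y + p y)) - (p x - p y)‖ := by rw [← h1]
        _ ≤ _ := norm_sub_le _ _
    have h3 := hp x y
    linarith
  have inj : Function.Injective fun x => x + p x := by
    intro x y hxy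
    have h1 := low x y
    have h2 : (x + p x) - (y + p y) = 0 := sub_eq_zero.2 hxy
    rw [h2, norm_zero, mul_zero] at h1
    exact sub_eq_zero.1 (norm_le_zero_iff.1 h1)
  have sur : Function.Surjective fun x => x + p x := by
    intro y
    have hc : ContractingWith (1 / 2 : ℝ≥0) (fun x => y - p x) := by
      refine ⟨by norm_num, ?_⟩
      apply LipschitzWith.of_dist_le_mul
      intro a b
      rw [dist_eq_norm, dist_eq_norm]
      have h1 : (y - p a) - (y - p b) = -(p a - p b) := by abel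
      rw [h1, norm_neg]
      have := hp a b
      simpa using this
    obtain ⟨x, hx⟩ : ∃ x, y - p x = x := ⟨_, hc.fixedPoint_isFixedPt⟩
    refine ⟨x, ?_⟩
    show x + p x = y
    nth_rewrite 1 [← hx]
    abel
  refine ⟨Equiv.ofBijective _ ⟨inj, sur⟩, fun x => rfl, ?_, ?_, ?_⟩
  · intro x y
    show ‖(x + p x) - (y + p y)‖ ≤ _
    have h1 : (x + p x) - (y + p y) = (x - y) + (p x - p y) := by abel
    rw [h1]
    have h2 := norm_add_le (x - y) (p x - p y)
    have h3 := hp x y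
    have h4 := norm_nonneg (x - y)
    linarith
  · intro x y
    obtain ⟨a, rfl⟩ := sur x
    obtain ⟨b, rfl⟩ := sur y
    have e1 : (Equiv.ofBijective _ ⟨inj, sur⟩).symm (a + p a) = a :=
      (Equiv.ofBijective _ ⟨inj, sur⟩).symm_apply_apply a
    have e2 : (Equiv.ofBijective _ ⟨inj, sur⟩).symm (b + p b) = b :=
      (Equiv.ofBijective _ ⟨inj, sur⟩).symm_apply_apply b
    show ‖(Equiv.ofBijective _ ⟨inj, sur⟩).symm (a + p a) -
      (Equiv.ofBijective _ ⟨inj, sur⟩).symm (b + p b)‖ ≤ 2 * ‖(a + p a) - (b + p b)‖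
    rw [e1, e2]
    exact low a b
  · intro x
    obtain ⟨a, rfl⟩ := sur x
    have e1 : (Equiv.ofBijective _ ⟨inj, sur⟩).symm (a + p a) = a :=
      (Equiv.ofBijective _ ⟨inj, sur⟩).symm_apply_apply a
    show ‖(Equiv.ofBijective _ ⟨inj, sur⟩).symm (a + p a) - (a + p a)‖ ≤ A
    rw [e1]
    have h1 : a - (a + p a) = -(p a) := by abel
    rw [h1, norm_neg]
    exact hA a

/-- one step of the pushing -/
theorem step {d : ℕ} (y v : V d) (D : ℝ) (hD : 0 < D) (hv : ‖v‖ ≤ D / 8) :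
    ∃ h : V d ≃ V d, h y = y + v ∧
      (∀ x y, ‖h x - h y‖ ≤ 2 * ‖x - y‖) ∧ (∀ x y, ‖h.symm x - h.symm y‖ ≤ 2 * ‖x - y‖) ∧
      (∀ x, ‖h.symm x - x‖ ≤ D / 8) ∧ ∀ x, D / 4 ≤ ‖x - y‖ → h x = x := by
  have b0 : ∀ x : V d, 0 ≤ max 0 (1 - ‖x - y‖ / (D / 4)) := fun x => le_max_left _ _
  have b1 : ∀ x : V d, max 0 (1 - ‖x - y‖ / (D / 4)) ≤ 1 := by
    intro x
    apply max_le zero_le_one
    have : 0 ≤ ‖x - y‖ / (D / 4) := by positivity
    linarith
  have bl : ∀ x x' : V d, |max 0 (1 - ‖x - y‖ / (D / 4)) - max 0 (1 - ‖x' - y‖ / (D / 4))| ≤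
      ‖x - x'‖ / (D / 4) := by
    intro x x'
    refine (abs_max_sub_max_le_max (0 : ℝ) _ 0 _).trans ?_
    rw [sub_self, abs_zero, max_eq_right (abs_nonneg _)]
    have h1 : (1 - ‖x - y‖ / (D / 4)) - (1 - ‖x' - y‖ / (D / 4)) =
      (‖x' - y‖ - ‖x - y‖) / (D / 4) := by ring
    rw [h1, abs_div, abs_of_pos (show (0:ℝ) < D / 4 by positivity)]
    apply div_le_div_of_nonneg_right _ (by positivity)
    have h2 := abs_norm_sub_norm_le (x' - y) (x - y)
    have h3 : (x' - y) - (x - y) = -(x - x') := by abel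
    rw [h3, norm_neg] at h2
    exact h2
  obtain ⟨h, h1, h2, h3, h4⟩ := pert (fun x : V d => (max 0 (1 - ‖x - y‖ / (D / 4))) • v)
    (by
      intro x x'
      show ‖(max 0 (1 - ‖x - y‖ / (D / 4))) • v - (max 0 (1 - ‖x' - y‖ / (D / 4))) • v‖ ≤ _
      rw [← sub_smul, norm_smul, Real.norm_eq_abs]
      calc |max 0 (1 - ‖x - y‖ / (D / 4)) - max 0 (1 - ‖x' - y‖ / (D / 4))| * ‖v‖
          ≤ (‖x - x'‖ / (D / 4)) * (D / 8) :=
            mul_le_mul (bl x x') hv (norm_nonneg _) (by positivity)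
        _ = 1 / 2 * ‖x - x'‖ := by
            field_simp
            ring) (D / 8)
    (by
      intro x
      show ‖(max 0 (1 - ‖x - y‖ / (D / 4))) • v‖ ≤ _
      rw [norm_smul, Real.norm_eq_abs, abs_of_nonneg (b0 x)]
      calc max 0 (1 - ‖x - y‖ / (D / 4)) * ‖v‖ ≤ 1 * (D / 8) :=
            mul_le_mul (b1 x) hv (norm_nonneg _) zero_le_one
        _ = D / 8 := one_mul _)
  refine ⟨h, ?_, h2, h3, h4, ?_⟩
  · rw [h1]
    simp
  · intro x hx
    rw [h1]
    have : 1 - ‖x - y‖ / (D / 4) ≤ 0 := by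
      rw [sub_nonpos, one_le_div (by positivity)]
      exact hx
    rw [max_eq_left this, zero_smul, add_zero]

/-- iterated pushing -/
theorem iter {d : ℕ} (U W : V d) (hUW : U ≠ W) (k : ℕ) (hk : k ≤ 8) :
    ∃ h : V d ≃ V d, h W = W + ((k : ℝ) / 8) • (U - W) ∧
      (∀ x y, ‖h x - h y‖ ≤ 2 ^ k * ‖x - y‖) ∧
      (∀ x y, ‖h.symm x - h.symm y‖ ≤ 2 ^ k * ‖x - y‖) ∧
      (∀ x, ‖h.symm x - x‖ ≤ k * (‖U - W‖ / 8)) ∧
      ∀ x, (∀ c ∈ Icc (0 : ℝ) 1, ‖U - W‖ / 4 ≤ ‖x - (W + c • (U - W))‖) → h x = x := by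
  induction k with
  | zero =>
    refine ⟨Equiv.refl _, ?_, ?_, ?_, ?_, ?_⟩
    · simp
    · intro x y; simp
    · intro x y; simp
    · intro x; simp
    · intro x _; rfl
  | succ k ih =>
    obtain ⟨h, h1, h2, h3, h4, h5⟩ := ih (by omega)
    have hD : 0 < ‖U - W‖ := norm_pos_iff.2 (sub_ne_zero.2 hUW)
    obtain ⟨P, p1, p2, p3, p4, p5⟩ := step (W + ((k : ℝ) / 8) • (U - W)) ((1 / 8 : ℝ) • (U - W))
      ‖U - W‖ hD (by rw [norm_smul]; norm_num; linarith)
    refine ⟨h.trans P, ?_, ?_, ?_, ?_, ?_⟩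
    · rw [Equiv.trans_apply, h1, p1, add_assoc, ← add_smul]
      congr 2
      push_cast
      ring
    · intro x y
      rw [Equiv.trans_apply, Equiv.trans_apply]
      calc ‖P (h x) - P (h y)‖ ≤ 2 * ‖h x - h y‖ := p2 _ _
        _ ≤ 2 * (2 ^ k * ‖x - y‖) := by
            have := h2 x y
            linarith
        _ = 2 ^ (k + 1) * ‖x - y‖ := by ring
    · intro x y
      rw [Equiv.symm_trans_apply, Equiv.symm_trans_apply]
      calc ‖h.symm (P.symm x) - h.symm (P.symm y)‖ ≤ 2 ^ k * ‖P.symm x - P.symm y‖ := h3 _ _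
        _ ≤ 2 ^ k * (2 * ‖x - y‖) := by
            apply mul_le_mul_of_nonneg_left (p3 x y) (by positivity)
        _ = 2 ^ (k + 1) * ‖x - y‖ := by ring
    · intro x
      rw [Equiv.symm_trans_apply]
      have e1 : h.symm (P.symm x) - x = (h.symm (P.symm x) - P.symm x) + (P.symm x - x) := by
        abel
      rw [e1]
      refine (norm_add_le _ _).trans ?_
      have := h4 (P.symm x)
      have := p4 x
      push_cast
      linarith
    · intro x hx
      rw [Equiv.trans_apply, h5 x hx]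
      apply p5
      apply hx
      have hk' : (k : ℝ) ≤ 8 := by exact_mod_cast (show k ≤ 8 by omega)
      exact ⟨by positivity, by linarith⟩

end Push

theorem I_Push : StPush := by
  intro d U W hUW
  obtain ⟨h, h1, h2, h3, h4, h5⟩ := Push.iter U W hUW 8 le_rfl
  refine ⟨h, ?_, h2, h3, ?_, h5⟩
  · rw [h1]
    norm_num
  · intro x
    refine (h4 x).trans (le_of_eq ?_)
    push_cast
    ring

end Pool.MP74738e.Pos

end

section

/-!
# MP_74738e_an, the positive half, item A3: shears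
-/

namespace Pool.MP74738e.Pos

open Filter Topology Set Metric Pool.MP74738e
open scoped ENNReal NNReal

namespace Shear

variable {d : ℕ} {ρ A B : ℝ} {l a : Fin d} {g : ℝ → ℝ}

/-- the displacement -/
noncomputable def uu (ρ : ℝ) (a : Fin d) (g : ℝ → ℝ) (x : V d) : ℝ := cut ρ x * g (x a)

theorem sh_self (x : V d) : sh ρ l a g x l = x l + uu ρ a g x := by
  unfold sh uu
  rw [Function.update_self]

theorem sh_ne (x : V d) (i : Fin d) (hi : i ≠ l) : sh ρ l a g x i = x i := by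
  unfold sh
  rw [Function.update_of_ne hi]

theorem uu_le (hc : StCut) (hρ : 0 < ρ) (hgA : ∀ t, |g t| ≤ A) (x : V d) :
    |uu ρ a g x| ≤ A := by
  obtain ⟨h0, h1, -, -, -⟩ := hc d ρ hρ x x
  have hA : 0 ≤ A := (abs_nonneg _).trans (hgA 0)
  unfold uu
  rw [abs_mul, abs_of_nonneg h0]
  calc cut ρ x * |g (x a)| ≤ 1 * A := mul_le_mul h1 (hgA _) (abs_nonneg _) zero_le_one
    _ = A := one_mul A

/-- the displacement, when the values of `g` are close -/
theorem uu_sub (hc : StCut) (hρ : 0 < ρ) (hAρ : A ≤ ρ / 2) (hgA : ∀ t, |g t| ≤ A) (x y : V d)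
    {c : ℝ} (hcc : |g (x a) - g (y a)| ≤ c) :
    |uu ρ a g x - uu ρ a g y| ≤ ‖x - y‖ / 2 + c := by
  obtain ⟨-, -, h2, -, -⟩ := hc d ρ hρ x y
  obtain ⟨h0, h1, -, -, -⟩ := hc d ρ hρ y y
  have hA : 0 ≤ A := (abs_nonneg _).trans (hgA 0)
  have hc0 : 0 ≤ c := (abs_nonneg _).trans hcc
  have e : uu ρ a g x - uu ρ a g y = (cut ρ x - cut ρ y) * g (x a) +
      cut ρ y * (g (x a) - g (y a)) := by
    unfold uu
    ring
  rw [e]
  refine (abs_add_le _ _).trans (add_le_add ?_ ?_)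
  · rw [abs_mul]
    calc |cut ρ x - cut ρ y| * |g (x a)| ≤ ‖x - y‖ / ρ * (ρ / 2) :=
          mul_le_mul h2 ((hgA _).trans hAρ) (abs_nonneg _) (by positivity)
      _ = ‖x - y‖ / 2 := by field_simp
  · rw [abs_mul, abs_of_nonneg h0]
    calc cut ρ y * |g (x a) - g (y a)| ≤ 1 * c := mul_le_mul h1 hcc (abs_nonneg _) zero_le_one
      _ = c := one_mul c

theorem norm_le_of (x y : V d) {c : ℝ} (hc : 0 ≤ c) (h : ∀ i, |x i - y i| ≤ c) : ‖x - y‖ ≤ c := by
  rw [pi_norm_le_iff_of_nonneg hc]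
  intro i
  rw [Pi.sub_apply, Real.norm_eq_abs]
  exact h i

theorem coord_le (x y : V d) (i : Fin d) : |x i - y i| ≤ ‖x - y‖ := by
  have := norm_le_pi_norm (x - y) i
  rwa [Pi.sub_apply, Real.norm_eq_abs] at this

end Shear

open Shear in
/-- A3: shears -/
theorem I_Shear (hc : StCut) : StShear := by
  intro d ρ A B l a g hρ hAρ hB hgA hgB hal
  have hA : 0 ≤ A := (abs_nonneg _).trans (hgA 0)
  -- points which differ only in the coordinate l
  have hline : ∀ x y : V d, (∀ i, i ≠ l → x i = y i) →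
      |uu ρ a g x - uu ρ a g y| ≤ |x l - y l| / 2 := by
    intro x y hxy
    have hg : |g (x a) - g (y a)| ≤ 0 := by
      rcases hal with h1 | h1
      · rw [hxy a h1, sub_self, abs_zero]
      · rw [h1 (x a) (y a), sub_self, abs_zero]
    have h2 := uu_sub (A := A) hc hρ hAρ hgA x y hg
    have h3 : ‖x - y‖ ≤ |x l - y l| := by
      refine norm_le_of x y (abs_nonneg _) fun i => ?_
      by_cases hi : i = l
      · rw [hi]
      · rw [hxy i hi, sub_self, abs_zero]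
        exact abs_nonneg _
    linarith
  have hinj : Function.Injective (sh ρ l a g) := by
    intro x y hxy
    have h1 : ∀ i, i ≠ l → x i = y i := by
      intro i hi
      have := congrFun hxy i
      rwa [sh_ne x i hi, sh_ne y i hi] at this
    have h2 : x l + uu ρ a g x = y l + uu ρ a g y := by
      have := congrFun hxy l
      rwa [sh_self, sh_self] at this
    have h3 := hline x y h1
    have h4 : x l - y l = -(uu ρ a g x - uu ρ a g y) := by linarith
    have h5 : |x l - y l| ≤ |x l - y l| / 2 := by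
      conv_lhs => rw [h4, abs_neg]
      exact h3
    have h6 : |x l - y l| = 0 := le_antisymm (by linarith) (abs_nonneg _)
    funext i
    by_cases hi : i = l
    · rw [hi]
      exact sub_eq_zero.mp (abs_eq_zero.mp h6)
    · exact h1 i hi
  have hsurj : Function.Surjective (sh ρ l a g) := by
    intro y
    let φ : ℝ → ℝ := fun t => y l - uu ρ a g (Function.update y l t)
    have hφ : ContractingWith (1 / 2 : ℝ≥0) φ := by
      refine ⟨by
        rw [← NNReal.coe_lt_coe]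
        norm_num, LipschitzWith.of_dist_le_mul fun s t => ?_⟩
      rw [Real.dist_eq, Real.dist_eq]
      have h1 := hline (Function.update y l t) (Function.update y l s) (fun i hi => by
        rw [Function.update_of_ne hi, Function.update_of_ne hi])
      rw [Function.update_self, Function.update_self] at h1
      have e : φ s - φ t = uu ρ a g (Function.update y l t) - uu ρ a g (Function.update y l s) := by
        simp only [φ]
        ring
      rw [e, abs_sub_comm s t]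
      refine h1.trans (le_of_eq ?_)
      push_cast
      ring
    have hfix : φ (hφ.fixedPoint φ) = hφ.fixedPoint φ := hφ.fixedPoint_isFixedPt
    refine ⟨Function.update y l (hφ.fixedPoint φ), ?_⟩
    funext i
    by_cases hi : i = l
    · rw [hi, sh_self, Function.update_self]
      simp only [φ] at hfix ⊢
      linarith
    · rw [sh_ne _ i hi, Function.update_of_ne hi]
  let h : V d ≃ V d := Equiv.ofBijective (sh ρ l a g) ⟨hinj, hsurj⟩
  have hh : ∀ x, h x = sh ρ l a g x := fun x => rfl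
  have hs : ∀ x, sh ρ l a g (h.symm x) = x := fun x => h.apply_symm_apply x
  have hsl : ∀ x, h.symm x l + uu ρ a g (h.symm x) = x l := by
    intro x
    have := congrFun (hs x) l
    rwa [sh_self] at this
  have hsi : ∀ x i, i ≠ l → h.symm x i = x i := by
    intro x i hi
    have := congrFun (hs x) i
    rwa [sh_ne _ i hi] at this
  refine ⟨h, hh, ?_, ?_, ?_, hsi, ?_⟩
  · intro x y
    have hnn := norm_nonneg (x - y)
    refine norm_le_of _ _ (by positivity) fun i => ?_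
    by_cases hi : i = l
    · rw [hi, hh, hh, sh_self, sh_self]
      have h1 : |g (x a) - g (y a)| ≤ B * ‖x - y‖ :=
        (hgB _ _).trans (mul_le_mul_of_nonneg_left (coord_le x y a) hB)
      have h2 := uu_sub hc hρ hAρ hgA x y h1
      have h3 := coord_le x y l
      have e : x l + uu ρ a g x - (y l + uu ρ a g y) =
          (x l - y l) + (uu ρ a g x - uu ρ a g y) := by ring
      rw [e]
      refine (abs_add_le _ _).trans ?_
      linarith
    · rw [hh, hh, sh_ne _ i hi, sh_ne _ i hi]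
      refine (coord_le x y i).trans ?_
      nlinarith
  · intro x y
    have hcc : |g (h.symm x a) - g (h.symm y a)| ≤ B * |x a - y a| := by
      rcases hal with h1 | h1
      · rw [hsi x a h1, hsi y a h1]
        exact hgB _ _
      · rw [h1 (h.symm x a) (h.symm y a), sub_self, abs_zero]
        positivity
    have h2 := uu_sub hc hρ hAρ hgA (h.symm x) (h.symm y) hcc
    have h3 := coord_le x y l
    have h4 : h.symm x l - h.symm y l = (x l - y l) +
        -(uu ρ a g (h.symm x) - uu ρ a g (h.symm y)) := by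
      have := hsl x
      have := hsl y
      linarith
    have h5 : |h.symm x l - h.symm y l| ≤ |x l - y l| +
        |uu ρ a g (h.symm x) - uu ρ a g (h.symm y)| := by
      rw [h4]
      refine (abs_add_le _ _).trans ?_
      rw [abs_neg]
    have h6 : 0 ≤ B * |x a - y a| := by positivity
    by_cases hD : |h.symm x l - h.symm y l| ≤ ‖x - y‖
    · have := norm_nonneg (x - y)
      linarith
    · push Not at hD
      have h7 : ‖h.symm x - h.symm y‖ ≤ |h.symm x l - h.symm y l| := by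
        refine norm_le_of _ _ (abs_nonneg _) fun i => ?_
        by_cases hi : i = l
        · rw [hi]
        · rw [hsi x i hi, hsi y i hi]
          exact (coord_le x y i).trans hD.le
      linarith
  · intro x
    refine norm_le_of _ _ hA fun i => ?_
    by_cases hi : i = l
    · rw [hi]
      have h1 := hsl x
      have h2 : h.symm x l - x l = -uu ρ a g (h.symm x) := by linarith
      rw [h2, abs_neg]
      exact uu_le hc hρ hgA _
    · rw [hsi x i hi, sub_self, abs_zero]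
      exact hA
  · intro x hx
    obtain ⟨-, -, -, -, h5⟩ := hc d ρ hρ x x
    rw [hh]
    funext i
    by_cases hi : i = l
    · rw [hi, sh_self]
      unfold uu
      rw [h5 hx, zero_mul, add_zero]
    · rw [sh_ne _ i hi]

end Pool.MP74738e.Pos

end
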