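import Pool.Agent.Work.MP_74738e_an.Pos.Stmts

/-! Bundle of small proof modules (one section per former module). -/

section

namespace Pool.MP74738e.Pos

open Filter Topology Set Metric Pool.MP74738e

universe u v

namespace AtlA

variable {X : Type u} [MetricSpace X] {d : ℕ}

/-- the local data at one point -/
structure Loc (p : X) (φ : X → V d) (K ρ R : ℝ) (e : V d → X) : Prop where
  bl : ∀ y ∈ ball p ρ, ∀ z ∈ ball p ρ,
    dist (φ y) (φ z) ≤ K * dist y z ∧ dist y z ≤ K * dist (φ y) (φ z)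
  one_le : 1 ≤ K
  pos : 0 < ρ
  posR : 0 < R
  mem : ∀ u, ‖u‖ < R → e u ∈ ball p ρ
  eq : ∀ u, ‖u‖ < R → φ (e u) = φ p + u

lemma exists_loc (h : LocEuclid (V d) X) (p : X) :
    ∃ (φ : X → V d) (K ρ R : ℝ) (e : V d → X), Loc p φ K ρ R e := by
  obtain ⟨φ, K, ρ, hK, hρ, hbl, hn⟩ := h p
  obtain ⟨R, hR, hsub⟩ := Metric.mem_nhds_iff.mp hn
  have h1 : ∀ u : V d, ∃ y : X, ‖u‖ < R → y ∈ ball p ρ ∧ φ y = φ p + u := by
    intro u
    by_cases hu : ‖u‖ < R
    · have h2 : φ p + u ∈ ball (φ p) R := by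
        rw [mem_ball, dist_eq_norm, add_sub_cancel_left]
        exact hu
      obtain ⟨y, hy, hy'⟩ := hsub h2
      exact ⟨y, fun _ => ⟨hy, hy'⟩⟩
    · exact ⟨p, fun h => absurd h hu⟩
  choose e he using h1
  exact ⟨φ, K, ρ, R, e, ⟨hbl, hK, hρ, hR, fun u hu => (he u hu).1, fun u hu => (he u hu).2⟩⟩

variable {p : X} {φ : X → V d} {K ρ R : ℝ} {e : V d → X}

lemma Loc.mono (h : Loc p φ K ρ R e) {K' : ℝ} (hK : K ≤ K') : Loc p φ K' ρ R e where
  bl y hy z hz := by
    obtain ⟨h1, h2⟩ := h.bl y hy z hz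
    exact ⟨h1.trans (mul_le_mul_of_nonneg_right hK dist_nonneg),
      h2.trans (mul_le_mul_of_nonneg_right hK dist_nonneg)⟩
  one_le := h.one_le.trans hK
  pos := h.pos
  posR := h.posR
  mem := h.mem
  eq := h.eq

lemma Loc.inj (h : Loc p φ K ρ R e) {y z : X} (hy : y ∈ ball p ρ) (hz : z ∈ ball p ρ)
    (hyz : φ y = φ z) : y = z := by
  have h1 := (h.bl y hy z hz).2
  rw [hyz, dist_self, mul_zero] at h1
  exact dist_le_zero.mp h1

lemma Loc.zero (h : Loc p φ K ρ R e) : e 0 = p := by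
  have h0 : ‖(0 : V d)‖ < R := by rw [norm_zero]; exact h.posR
  apply h.inj (h.mem 0 h0) (mem_ball_self h.pos)
  rw [h.eq 0 h0, add_zero]

lemma Loc.dist_eq (h : Loc p φ K ρ R e) {u v : V d} (hu : ‖u‖ < R) (hv : ‖v‖ < R) :
    dist (φ (e u)) (φ (e v)) = ‖u - v‖ := by
  rw [h.eq u hu, h.eq v hv, dist_eq_norm, add_sub_add_left_eq_sub]

lemma Loc.lip (h : Loc p φ K ρ R e) {u v : V d} (hu : ‖u‖ < R) (hv : ‖v‖ < R) :
    dist (e u) (e v) ≤ K * ‖u - v‖ := by
  have h1 := (h.bl _ (h.mem u hu) _ (h.mem v hv)).2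
  rwa [h.dist_eq hu hv] at h1

lemma Loc.inv (h : Loc p φ K ρ R e) {u v : V d} (hu : ‖u‖ < R) (hv : ‖v‖ < R) :
    ‖u - v‖ ≤ K * dist (e u) (e v) := by
  have h1 := (h.bl _ (h.mem u hu) _ (h.mem v hv)).1
  rwa [h.dist_eq hu hv] at h1

lemma Loc.dist_center (h : Loc p φ K ρ R e) {u : V d} (hu : ‖u‖ < R) :
    dist (e u) p ≤ K * ‖u‖ := by
  have h0 : ‖(0 : V d)‖ < R := by rw [norm_zero]; exact h.posR
  have h1 := h.lip hu h0
  rwa [h.zero, sub_zero] at h1

lemma Loc.opn (h : Loc p φ K ρ R e) {r : ℝ} (hr : r < R) (hr' : K * r < ρ) (u : V d) (s : ℝ)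
    (y : X) (hs : 0 < s) (hus : ‖u‖ + s ≤ r) (hy : dist y (e u) < s / K) :
    ∃ v, ‖v - u‖ < s ∧ e v = y := by
  have hK : 0 < K := lt_of_lt_of_le one_pos h.one_le
  have huR : ‖u‖ < R := by linarith
  have hu0 := norm_nonneg u
  have h1 : s / K ≤ K * s := by
    rw [div_le_iff₀ hK]
    have h2 : 1 * 1 ≤ K * K := mul_self_le_mul_self (by norm_num) h.one_le
    nlinarith
  have h3 : y ∈ ball p ρ := by
    rw [mem_ball]
    calc dist y p ≤ dist y (e u) + dist (e u) p := dist_triangle _ _ _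
      _ ≤ K * s + K * ‖u‖ := add_le_add (hy.le.trans h1) (h.dist_center huR)
      _ = K * (‖u‖ + s) := by ring
      _ ≤ K * r := mul_le_mul_of_nonneg_left hus hK.le
      _ < ρ := hr'
  have h4 : ‖(φ y - φ p) - u‖ < s := by
    have h5 : (φ y - φ p) - u = φ y - φ (e u) := by
      rw [h.eq u huR, sub_sub]
    rw [h5, ← dist_eq_norm]
    refine lt_of_le_of_lt (h.bl y h3 _ (h.mem u huR)).1 ?_
    rw [lt_div_iff₀ hK] at hy
    linarith
  refine ⟨φ y - φ p, h4, ?_⟩
  have h6 : ‖φ y - φ p‖ < R := by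
    have h7 : ‖φ y - φ p‖ ≤ ‖(φ y - φ p) - u‖ + ‖u‖ := by
      have := norm_add_le ((φ y - φ p) - u) u
      rwa [sub_add_cancel] at this
    linarith
  apply h.inj (h.mem _ h6) h3
  rw [h.eq _ h6, add_sub_cancel]

end AtlA

open AtlA in
theorem I_Atl : StAtl.{u} := by
  intro X _ d hX O
  choose φ K0 ρ R e he using fun p : X => exists_loc hX p
  have hK0 : ∀ p, 1 ≤ K0 p := fun p => (he p).one_le
  have hKs : ∀ p ∈ O, K0 p ≤ 1 + ∑ q ∈ O, K0 q := by
    intro p hp
    have := Finset.single_le_sum (f := K0) (fun q _ => by linarith [hK0 q]) hp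
    linarith
  set K : ℝ := 1 + ∑ q ∈ O, K0 q with hK
  have hK1 : 1 ≤ K := by
    have : 0 ≤ ∑ q ∈ O, K0 q := Finset.sum_nonneg fun q _ => by linarith [hK0 q]
    linarith
  have hloc : ∀ p ∈ O, Loc p (φ p) K (ρ p) (R p) (e p) := fun p hp => (he p).mono (hKs p hp)
  have hev : ∀ᶠ r in 𝓝[>] (0 : ℝ), ∀ p ∈ O, r < R p ∧ K * r < ρ p ∧
      ∀ p' ∈ O, p ≠ p' → 2 * K * r < dist p p' := by
    have hlin : ∀ c t : ℝ, 0 < t → ∀ᶠ r in 𝓝[>] (0 : ℝ), c * r < t := by
      intro c t ht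
      have hc : Tendsto (fun r : ℝ => c * r) (𝓝[>] 0) (𝓝 (c * 0)) :=
        ((continuous_const.mul continuous_id).tendsto 0).mono_left nhdsWithin_le_nhds
      rw [mul_zero] at hc
      exact hc.eventually (gt_mem_nhds ht)
    rw [Filter.eventually_all_finset]
    intro p hp
    have h1 := hlin 1 (R p) (he p).posR
    have h2 := hlin K (ρ p) (he p).pos
    have h3 : ∀ᶠ r in 𝓝[>] (0 : ℝ), ∀ p' ∈ O, p ≠ p' → 2 * K * r < dist p p' := by
      rw [Filter.eventually_all_finset]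
      intro p' _
      by_cases hpp : p = p'
      · exact Eventually.of_forall fun r h => absurd hpp h
      · filter_upwards [hlin (2 * K) (dist p p') (dist_pos.mpr hpp)] with r hr _
        exact hr
    filter_upwards [h1, h2, h3] with r h1 h2 h3
    exact ⟨by linarith, h2, h3⟩
  obtain ⟨r, hr, hr0⟩ := (hev.and self_mem_nhdsWithin).exists
  have hr0' : 0 < r := hr0
  have key : ∀ s, 0 < s → s ≤ r → Atl d O K s e := by
    intro s hs hsr
    refine ⟨hK1, hs, fun p hp => (hloc p hp).zero, ?_, ?_, ?_, ?_⟩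
    · intro p hp u v hu hv
      have := (hr p hp).1
      exact (hloc p hp).lip (by linarith) (by linarith)
    · intro p hp u v hu hv
      have := (hr p hp).1
      exact (hloc p hp).inv (by linarith) (by linarith)
    · intro p hp u t y ht hut hy
      exact (hloc p hp).opn (hr p hp).1 (hr p hp).2.1 u t y ht (hut.trans hsr) hy
    · intro p hp p' hp' u v hu hv huv
      by_contra hne
      have h1 := (hr p hp).2.2 p' hp' hne
      have h2 := (hr p hp).1
      have h3 := (hr p' hp').1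
      have h4 := (hloc p hp).dist_center (u := u) (by linarith)
      have h5 := (hloc p' hp').dist_center (u := v) (by linarith)
      rw [← huv] at h5
      have h6 : dist p p' ≤ dist (e p u) p + dist (e p u) p' := dist_triangle_left _ _ _
      have h7 : K * ‖u‖ ≤ K * r := mul_le_mul_of_nonneg_left (hu.trans hsr) (by linarith)
      have h8 : K * ‖v‖ ≤ K * r := mul_le_mul_of_nonneg_left (hv.trans hsr) (by linarith)
      linarith
  exact ⟨K, r, e, key r hr0' le_rfl, key⟩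

end Pool.MP74738e.Pos

end

section

/-!
# Item Grow: the growth map
-/

namespace Pool.MP74738e.Pos

open Filter Topology Set Metric Pool.MP74738e
open scoped ENNReal NNReal

namespace Grow

lemma zig_cont (hz : StZig) {p A : ℝ} (hp : 0 < p) (hA : 0 ≤ A) : Continuous (zig p A) := by
  have h := (hz p A hp hA).2.1
  have hK : 0 ≤ 4 * A / p := by positivity
  have : LipschitzWith ⟨4 * A / p, hK⟩ (zig p A) := by
    apply LipschitzWith.of_dist_le_mul
    intro s t
    rw [Real.dist_eq, Real.dist_eq]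
    exact h s t
  exact this.continuous

lemma gz_cont (hz : StZig) {ε b : ℝ} (hε : 0 < ε) (hb : 0 < b) (j : ℕ) :
    Continuous (gz ε b j) :=
  zig_cont hz (by positivity) (by positivity)

lemma ix_ne {d : ℕ} [NeZero d] (hd : 2 ≤ d) (J : ℕ) : ix d J ≠ ix d (J + 1) := by
  intro h
  have h1 : J % d = (J + 1) % d := congrArg Fin.val h
  have h2 : J ≡ J + 1 [MOD d] := h1
  have h3 : 0 ≡ 1 [MOD d] := by
    have : J + 0 ≡ J + 1 [MOD d] := h2
    exact Nat.ModEq.add_left_cancel' J this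
  have h4 : 0 % d = 1 % d := h3
  rw [Nat.zero_mod, Nat.mod_eq_of_lt (by omega)] at h4
  omega

end Grow

theorem I_Grow (hz : StZig) (hc : StCut) (hb : StBatC) : StGrow := by
  intro d _ hd rc ε b J z hε hb4 hrc x s t hx hxz hcro
  induction J with
  | zero =>
    have h1 : ∀ τ ∈ Icc s t, ∀ i, |x τ i - z i| ≤ ε := by
      intro τ hτ i
      have := norm_le_pi_norm (x τ - z) i
      rw [Pi.sub_apply, Real.norm_eq_abs] at this
      exact this.trans (hxz τ hτ)
    simp only [bat, id, pow_zero, mul_one, Nat.zero_sub]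
    refine ⟨fun τ hτ i => (h1 τ hτ i).trans (by linarith),
      fun τ hτ i _ => (h1 τ hτ i).trans (by linarith), ?_, ?_⟩
    · rcases hcro with ⟨hst, _, h2 | h2⟩
      · exact ⟨s, ⟨le_rfl, hst⟩, by linarith [h2.1]⟩
      · exact ⟨t, ⟨hst, le_rfl⟩, by linarith [h2.1]⟩
    · rcases hcro with ⟨hst, _, h2 | h2⟩
      · exact ⟨t, ⟨hst, le_rfl⟩, by linarith [h2.2]⟩
      · exact ⟨s, ⟨le_rfl, hst⟩, by linarith [h2.2]⟩
  | succ J ih =>
    have hb0 : 0 < b := by linarith
    have hAJ : 0 < ε * b ^ J := by positivity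
    have hA1 : ε * b ^ (J + 1) = b * (ε * b ^ J) := by ring
    have h4 : 4 * (ε * b ^ J) ≤ ε * b ^ (J + 1) := by
      rw [hA1]; exact mul_le_mul_of_nonneg_right hb4 hAJ.le
    have hrc' : ‖z‖ + 2 * (ε * b ^ J) ≤ rc := by linarith
    have hrc0 : 0 < rc := by have := norm_nonneg z; linarith
    obtain ⟨h1, _, ⟨τ1, hτ1, h5⟩, ⟨τ2, hτ2, h6⟩⟩ := ih hrc'
    set y : ℝ → V d := fun τ => bat rc 0 (gz ε b) J (x τ) with hy
    have hcut : ∀ τ ∈ Icc s t, cut rc (y τ) = 1 := by
      intro τ hτ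
      refine (hc d rc hrc0 (y τ) (y τ)).2.2.2.1 ?_
      have h7 : ‖y τ - z‖ ≤ 2 * (ε * b ^ J) := by
        rw [pi_norm_le_iff_of_nonneg (by positivity)]
        intro i
        rw [Pi.sub_apply, Real.norm_eq_abs]
        exact h1 τ hτ i
      have h8 : ‖y τ‖ ≤ ‖y τ - z‖ + ‖z‖ := by
        have := norm_add_le (y τ - z) z
        rwa [sub_add_cancel] at this
      linarith
    have hnew : ∀ τ ∈ Icc s t, bat rc 0 (gz ε b) (J + 1) (x τ) =
        Function.update (y τ) (ix d (J + 1)) (y τ (ix d (J + 1)) +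
          zig (ε * b ^ J) (ε * b ^ (J + 1)) (y τ (ix d J))) := by
      intro τ hτ
      have e : bat rc 0 (gz ε b) (J + 1) (x τ) =
        sh rc (ix d (0 + J + 1)) (ix d (0 + J)) (gz ε b (J + 1)) (y τ) := rfl
      rw [e, sh, hcut τ hτ, one_mul, zero_add]
      rfl
    have hl : ∀ τ ∈ Icc s t, bat rc 0 (gz ε b) (J + 1) (x τ) (ix d (J + 1)) =
        y τ (ix d (J + 1)) + zig (ε * b ^ J) (ε * b ^ (J + 1)) (y τ (ix d J)) := by
      intro τ hτ
      rw [hnew τ hτ, Function.update_self]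
    have hne : ∀ τ ∈ Icc s t, ∀ i, i ≠ ix d (J + 1) →
        bat rc 0 (gz ε b) (J + 1) (x τ) i = y τ i := by
      intro τ hτ i hi
      rw [hnew τ hτ, Function.update_of_ne hi]
    obtain ⟨g1, _, g2, g3⟩ := hz (ε * b ^ J) (ε * b ^ (J + 1)) hAJ (by positivity)
    have hcont : ContinuousOn (fun τ => y τ (ix d J)) (Icc s t) := by
      have h7 := (hb d rc 0 (gz ε b) hrc0 (fun j => Grow.gz_cont hz hε hb0 j)).1 J
      exact (continuous_apply (ix d J)).comp_continuousOn (h7.comp_continuousOn hx)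
    have hivt : ∀ v, z (ix d J) - ε * b ^ J / 2 ≤ v → v ≤ z (ix d J) + ε * b ^ J / 2 →
        ∃ τ ∈ Icc s t, y τ (ix d J) = v := by
      intro v hv1 hv2
      have h7 := (isPreconnected_Icc.image _ hcont).Icc_subset (mem_image_of_mem _ hτ1)
        (mem_image_of_mem _ hτ2)
      obtain ⟨τ, h8, h9⟩ := h7 ⟨h5.trans hv1, hv2.trans h6⟩
      exact ⟨τ, h8, h9⟩
    have hlz : ∀ τ ∈ Icc s t, |y τ (ix d (J + 1)) - z (ix d (J + 1))| ≤ 2 * (ε * b ^ J) :=
      fun τ hτ => h1 τ hτ _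
    refine ⟨?_, ?_, ?_, ?_⟩
    · intro τ hτ i
      by_cases hi : i = ix d (J + 1)
      · rw [hi, hl τ hτ]
        have h7 := hlz τ hτ
        have h8 := g1 (y τ (ix d J))
        rw [abs_le] at h7 h8 ⊢
        constructor <;> linarith [h7.1, h7.2, h8.1, h8.2]
      · rw [hne τ hτ i hi]
        exact (h1 τ hτ i).trans (by linarith)
    · intro τ hτ i hi
      rw [hne τ hτ i hi, Nat.add_sub_cancel]
      exact h1 τ hτ i
    · obtain ⟨τ, hτ, h7⟩ := hivt (round (z (ix d J) / (ε * b ^ J)) * (ε * b ^ J)) (by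
          have h8 := abs_sub_round (z (ix d J) / (ε * b ^ J))
          rw [abs_le] at h8
          have h9 : z (ix d J) = z (ix d J) / (ε * b ^ J) * (ε * b ^ J) := by field_simp
          nlinarith [h8.2]) (by
          have h8 := abs_sub_round (z (ix d J) / (ε * b ^ J))
          rw [abs_le] at h8
          have h9 : z (ix d J) = z (ix d J) / (ε * b ^ J) * (ε * b ^ J) := by field_simp
          nlinarith [h8.1])
      refine ⟨τ, hτ, ?_⟩
      rw [hl τ hτ, h7, g2]
      have h8 := hlz τ hτ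
      rw [abs_le] at h8
      linarith [h8.2]
    · obtain ⟨τ, hτ, h7⟩ := hivt (⌊z (ix d J) / (ε * b ^ J)⌋ * (ε * b ^ J) + (ε * b ^ J) / 2) (by
          have h8 := Int.lt_floor_add_one (z (ix d J) / (ε * b ^ J))
          have h9 : z (ix d J) = z (ix d J) / (ε * b ^ J) * (ε * b ^ J) := by field_simp
          nlinarith) (by
          have h8 := Int.floor_le (z (ix d J) / (ε * b ^ J))
          have h9 : z (ix d J) = z (ix d J) / (ε * b ^ J) * (ε * b ^ J) := by field_simp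
          nlinarith)
      refine ⟨τ, hτ, ?_⟩
      rw [hl τ hτ, h7, g3]
      have h8 := hlz τ hτ
      rw [abs_le] at h8
      linarith [h8.1]

end Pool.MP74738e.Pos

end

section

/-!
# Item Hol: the Hölder estimate
-/

namespace Pool.MP74738e.Pos

open Filter Topology Set Metric Pool.MP74738e
open scoped ENNReal NNReal

universe u v

namespace Hol

/-- the estimate of one term -/
theorem one {α c1 c2 ρ ε b : ℝ} {m k : ℕ} (ha : 0 < α) (ha1 : α < 1) (hc1 : 0 ≤ c1)
    (hc2 : 0 ≤ c2) (hρ : 0 < ρ) (hε : 0 < ε) (hb : 1 ≤ b)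
    (hmk : -(m : ℝ) * (1 - α) + k * α ≤ α) :
    (2 * (c1 * (ρ / b ^ m))) ^ (1 - α) * (c2 * b ^ k * (ρ / ε)) ^ α ≤
      (2 * c1) ^ (1 - α) * c2 ^ α * (ρ * ε ^ (-α) * b ^ α) := by
  have hb0 : 0 < b := lt_of_lt_of_le one_pos hb
  have h1 : (2 * (c1 * (ρ / b ^ m))) ^ (1 - α) =
      (2 * c1) ^ (1 - α) * ρ ^ (1 - α) * b ^ (-(m : ℝ) * (1 - α)) := by
    have e : 2 * (c1 * (ρ / b ^ m)) = (2 * c1) * ρ * b ^ (-(m : ℝ)) := by
      rw [Real.rpow_neg hb0.le, Real.rpow_natCast]
      ring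
    rw [e, Real.mul_rpow (by positivity) (by positivity), Real.mul_rpow (by positivity) hρ.le,
      ← Real.rpow_mul hb0.le]
  have h2 : (c2 * b ^ k * (ρ / ε)) ^ α = c2 ^ α * b ^ ((k : ℝ) * α) * (ρ ^ α * ε ^ (-α)) := by
    rw [Real.mul_rpow (by positivity) (by positivity), Real.mul_rpow hc2 (by positivity),
      ← Real.rpow_natCast, ← Real.rpow_mul hb0.le, Real.div_rpow hρ.le hε.le,
      Real.rpow_neg hε.le]
    ring
  have h3 : ρ ^ (1 - α) * ρ ^ α = ρ := by
    rw [← Real.rpow_add hρ]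
    simp
  have h4 : b ^ (-(m : ℝ) * (1 - α)) * b ^ ((k : ℝ) * α) ≤ b ^ α := by
    rw [← Real.rpow_add hb0]
    exact Real.rpow_le_rpow_of_exponent_le hb hmk
  rw [h1, h2]
  calc (2 * c1) ^ (1 - α) * ρ ^ (1 - α) * b ^ (-(m : ℝ) * (1 - α)) *
        (c2 ^ α * b ^ ((k : ℝ) * α) * (ρ ^ α * ε ^ (-α)))
      = (2 * c1) ^ (1 - α) * c2 ^ α * ((ρ ^ (1 - α) * ρ ^ α) * ε ^ (-α) *
        (b ^ (-(m : ℝ) * (1 - α)) * b ^ ((k : ℝ) * α))) := by ring
    _ ≤ (2 * c1) ^ (1 - α) * c2 ^ α * (ρ * ε ^ (-α) * b ^ α) := by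
        rw [h3]
        have : 0 ≤ ρ * ε ^ (-α) := by positivity
        gcongr

/-- the partial compositions -/
def VV {X : Type u} (G : ℕ → X → X) (Kb : ℕ) (y : X) : ℕ → X
  | 0 => y
  | n + 1 => G (Kb - 1 - n) (VV G Kb y n)

theorem itc_VV {X : Type u} (G : ℕ → X → X) (Kb : ℕ) (y : X) : ∀ n ≤ Kb,
    itc G (Kb - n) (VV G Kb y n) = itc G Kb y := by
  intro n
  induction n with
  | zero => intro _; rfl
  | succ n ih =>
      intro hn
      have h := ih (by omega)
      have e : Kb - n = (Kb - (n + 1)) + 1 := by omega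
      rw [e] at h
      have e2 : Kb - (n + 1) = Kb - 1 - n := by omega
      change itc G (Kb - (n + 1)) (G (Kb - (n + 1)) (VV G Kb y n)) = itc G Kb y at h
      change itc G (Kb - (n + 1)) (G (Kb - 1 - n) (VV G Kb y n)) = itc G Kb y
      rw [← e2]
      exact h

theorem VV_last {X : Type u} (G : ℕ → X → X) (Kb : ℕ) (y : X) : VV G Kb y Kb = itc G Kb y := by
  have h := itc_VV G Kb y Kb le_rfl
  simpa [itc] using h

theorem VV_lip {X : Type u} [MetricSpace X] (G : ℕ → X → X) (Kb : ℕ) (C b D : ℝ) (hC : 1 ≤ C)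
    (hb : 1 ≤ b) (hG : ∀ i < Kb, ∀ x y, dist (G i x) (G i y) ≤ C * b * dist x y)
    (f : X → X) (hf : ∀ x y, dist (f x) (f y) ≤ D * dist x y) : ∀ n ≤ Kb, ∀ x y,
    dist (VV G Kb (f x) n) (VV G Kb (f y) n) ≤ (C * b) ^ n * D * dist x y := by
  intro n
  induction n with
  | zero => intro _ x y; simpa [VV] using hf x y
  | succ n ih =>
      intro hn x y
      have h := ih (by omega) x y
      have h2 := hG (Kb - 1 - n) (by omega) (VV G Kb (f x) n) (VV G Kb (f y) n)
      have hCb : 0 ≤ C * b := by positivity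
      calc dist (VV G Kb (f x) (n + 1)) (VV G Kb (f y) (n + 1))
          = dist (G (Kb - 1 - n) (VV G Kb (f x) n)) (G (Kb - 1 - n) (VV G Kb (f y) n)) := rfl
        _ ≤ C * b * dist (VV G Kb (f x) n) (VV G Kb (f y) n) := h2
        _ ≤ C * b * ((C * b) ^ n * D * dist x y) := by gcongr
        _ = (C * b) ^ (n + 1) * D * dist x y := by ring

end Hol

open Hol in
theorem I_Hol (hi : StInt.{u}) : StHol.{u} := by
  intro d Kb α C Lf hd hKb ha had hC hLf
  have hd' : (2 : ℝ) ≤ d := by exact_mod_cast hd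
  have ha1 : α < 1 := by
    by_contra h
    push Not at h
    nlinarith
  have hC0 : 0 < C := lt_of_lt_of_le one_pos hC
  set cn : ℕ → ℝ := fun n => (2 * (Lf * C)) ^ (1 - α) * (2 * Lf * C ^ (n + 3)) ^ α with hcn
  set cl : ℝ := (2 * (Lf * C * C)) ^ (1 - α) * (2 * Lf * C ^ 2) ^ α with hcl
  have hcn0 : ∀ n, 0 ≤ cn n := fun n => by positivity
  have hcl0 : 0 ≤ cl := by positivity
  refine ⟨(∑ n ∈ Finset.range Kb, cn n) + cl + Kb * (Lf * C) + Lf * C * C, ?_, ?_⟩
  · have : 0 ≤ ∑ n ∈ Finset.range Kb, cn n := Finset.sum_nonneg fun n _ => hcn0 n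
    positivity
  intro X _ N Φ T T' P G ρ ε b hε hερ hb hΦ hT hT' hG1 hG2 hP1 hP2
  have hρ : 0 < ρ := lt_of_lt_of_le hε hερ
  have hb0 : 0 < b := lt_of_lt_of_le one_pos hb
  have hsum0 : 0 ≤ ∑ n ∈ Finset.range Kb, cn n := Finset.sum_nonneg fun n _ => hcn0 n
  set W : ℕ → X → X := fun n x => VV G Kb (T (P x)) n with hW
  have hWK : ∀ x, W Kb x = T' x := fun x => by
    rw [hW, hT']
    exact VV_last G Kb (T (P x))
  have htel : ∀ x, Φ (T' x) - Φ (T x) =
      (∑ n ∈ Finset.range Kb, (Φ (W (n + 1) x) - Φ (W n x))) + (Φ (T (P x)) - Φ (T x)) := by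
    intro x
    rw [Finset.sum_range_sub (fun n => Φ (W n x)), hWK]
    change _ = Φ (T' x) - Φ (T (P x)) + _
    abel
  have hnn : ∀ n < Kb, ∀ x, ‖Φ (W (n + 1) x) - Φ (W n x)‖ ≤
      Lf * C * (ρ / b ^ ((d - 1) * n)) := by
    intro n hn x
    have h1 := hG1 (Kb - 1 - n) (by omega) (W n x)
    have e : Kb - 1 - (Kb - 1 - n) = n := by omega
    rw [e] at h1
    calc ‖Φ (W (n + 1) x) - Φ (W n x)‖ ≤ Lf * dist (W (n + 1) x) (W n x) := hΦ _ _
      _ ≤ Lf * (C * (ρ / b ^ ((d - 1) * n))) := by gcongr; exact h1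
      _ = Lf * C * (ρ / b ^ ((d - 1) * n)) := by ring
  have hlast : ∀ x, ‖Φ (T (P x)) - Φ (T x)‖ ≤ Lf * C * C * ρ := by
    intro x
    calc ‖Φ (T (P x)) - Φ (T x)‖ ≤ Lf * dist (T (P x)) (T x) := hΦ _ _
      _ ≤ Lf * (C * dist (P x) x) := by gcongr; exact hT _ _
      _ ≤ Lf * (C * (C * ρ)) := by gcongr; exact hP1 x
      _ = Lf * C * C * ρ := by ring
  have hTP : ∀ x y, dist (T (P x)) (T (P y)) ≤ C * (C * (ρ / ε)) * dist x y := by
    intro x y
    calc dist (T (P x)) (T (P y)) ≤ C * dist (P x) (P y) := hT _ _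
      _ ≤ C * (C * (ρ / ε) * dist x y) := by gcongr; exact hP2 x y
      _ = C * (C * (ρ / ε)) * dist x y := by ring
  have hWlip : ∀ n ≤ Kb, ∀ x y, dist (W n x) (W n y) ≤
      (C * b) ^ n * (C * (C * (ρ / ε))) * dist x y := by
    intro n hn x y
    exact VV_lip G Kb C b _ hC hb hG2 (fun x => T (P x)) hTP n hn x y
  refine ⟨?_, ?_⟩
  · intro x
    rw [htel x]
    calc ‖(∑ n ∈ Finset.range Kb, (Φ (W (n + 1) x) - Φ (W n x))) + (Φ (T (P x)) - Φ (T x))‖
        ≤ ‖∑ n ∈ Finset.range Kb, (Φ (W (n + 1) x) - Φ (W n x))‖ + ‖Φ (T (P x)) - Φ (T x)‖ :=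
          norm_add_le _ _
      _ ≤ (∑ n ∈ Finset.range Kb, ‖Φ (W (n + 1) x) - Φ (W n x)‖) + Lf * C * C * ρ := by
          gcongr
          · exact norm_sum_le _ _
          · exact hlast x
      _ ≤ (∑ n ∈ Finset.range Kb, Lf * C * ρ) + Lf * C * C * ρ := by
          gcongr with n hn
          refine (hnn n (Finset.mem_range.1 hn) x).trans ?_
          have : ρ / b ^ ((d - 1) * n) ≤ ρ := div_le_self hρ.le (one_le_pow₀ hb)
          have h0 : 0 ≤ Lf * C := by positivity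
          exact mul_le_mul_of_nonneg_left this h0
      _ = (Kb * (Lf * C) + Lf * C * C) * ρ := by
          rw [Finset.sum_const, Finset.card_range, nsmul_eq_mul]
          ring
      _ ≤ _ := by
          refine mul_le_mul_of_nonneg_right ?_ hρ.le
          linarith
  · intro x y
    set Q : ℝ := ρ * ε ^ (-α) * b ^ α with hQ
    have hQ0 : 0 ≤ Q := by positivity
    have hterm : ∀ n < Kb, ‖(Φ (W (n + 1) x) - Φ (W n x)) - (Φ (W (n + 1) y) - Φ (W n y))‖ ≤
        cn n * Q * dist x y ^ α := by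
      intro n hn
      have hL : ∀ x y, ‖(Φ (W (n + 1) x) - Φ (W n x)) - (Φ (W (n + 1) y) - Φ (W n y))‖ ≤
          2 * Lf * C ^ (n + 3) * b ^ (n + 1) * (ρ / ε) * dist x y := by
        intro x y
        have e : (Φ (W (n + 1) x) - Φ (W n x)) - (Φ (W (n + 1) y) - Φ (W n y)) =
          (Φ (W (n + 1) x) - Φ (W (n + 1) y)) - (Φ (W n x) - Φ (W n y)) := by abel
        rw [e]
        have h1 : ‖Φ (W (n + 1) x) - Φ (W (n + 1) y)‖ ≤
            Lf * ((C * b) ^ (n + 1) * (C * (C * (ρ / ε))) * dist x y) :=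
          (hΦ _ _).trans (mul_le_mul_of_nonneg_left (hWlip (n + 1) (by omega) x y) hLf)
        have h2 : ‖Φ (W n x) - Φ (W n y)‖ ≤
            Lf * ((C * b) ^ n * (C * (C * (ρ / ε))) * dist x y) :=
          (hΦ _ _).trans (mul_le_mul_of_nonneg_left (hWlip n (by omega) x y) hLf)
        have h3 : (C * b) ^ n ≤ (C * b) ^ (n + 1) := by
          refine pow_le_pow_right₀ ?_ (Nat.le_succ n)
          nlinarith
        have h4 : Lf * ((C * b) ^ n * (C * (C * (ρ / ε))) * dist x y) ≤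
            Lf * ((C * b) ^ (n + 1) * (C * (C * (ρ / ε))) * dist x y) := by
          gcongr
        calc ‖(Φ (W (n + 1) x) - Φ (W (n + 1) y)) - (Φ (W n x) - Φ (W n y))‖
            ≤ ‖Φ (W (n + 1) x) - Φ (W (n + 1) y)‖ + ‖Φ (W n x) - Φ (W n y)‖ := norm_sub_le _ _
          _ ≤ 2 * (Lf * ((C * b) ^ (n + 1) * (C * (C * (ρ / ε))) * dist x y)) := by linarith
          _ = 2 * Lf * C ^ (n + 3) * b ^ (n + 1) * (ρ / ε) * dist x y := by
              rw [mul_pow]
              ring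
      have hs0 : 0 ≤ Lf * C * (ρ / b ^ ((d - 1) * n)) := by positivity
      have hL0 : 0 ≤ 2 * Lf * C ^ (n + 3) * b ^ (n + 1) * (ρ / ε) := by positivity
      have h := hi X N (fun x => Φ (W (n + 1) x) - Φ (W n x)) _ _ α ha ha1 hs0 hL0
        (hnn n hn) hL x y
      refine h.trans ?_
      have ho := one (m := (d - 1) * n) (k := n + 1) (c1 := Lf * C)
        (c2 := 2 * Lf * C ^ (n + 3)) ha ha1 (by positivity) (by positivity) hρ hε hb (by
          have hd1 : ((d - 1 : ℕ) : ℝ) = (d : ℝ) - 1 := by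
            rw [Nat.cast_sub (by omega)]
            simp
          push_cast
          rw [hd1]
          have hn0 : (0 : ℝ) ≤ n := Nat.cast_nonneg n
          nlinarith [mul_nonneg hn0 (sub_nonneg.2 had)])
      exact mul_le_mul_of_nonneg_right ho (by positivity)
    have hlastH : ‖(Φ (T (P x)) - Φ (T x)) - (Φ (T (P y)) - Φ (T y))‖ ≤
        cl * Q * dist x y ^ α := by
      have hL : ∀ x y, ‖(Φ (T (P x)) - Φ (T x)) - (Φ (T (P y)) - Φ (T y))‖ ≤
          2 * Lf * C ^ 2 * b ^ 0 * (ρ / ε) * dist x y := by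
        intro x y
        have e : (Φ (T (P x)) - Φ (T x)) - (Φ (T (P y)) - Φ (T y)) =
          (Φ (T (P x)) - Φ (T (P y))) - (Φ (T x) - Φ (T y)) := by abel
        rw [e]
        have h1 : ‖Φ (T (P x)) - Φ (T (P y))‖ ≤ Lf * (C * (C * (ρ / ε)) * dist x y) :=
          (hΦ _ _).trans (mul_le_mul_of_nonneg_left (hTP x y) hLf)
        have h2 : ‖Φ (T x) - Φ (T y)‖ ≤ Lf * (C * dist x y) :=
          (hΦ _ _).trans (mul_le_mul_of_nonneg_left (hT x y) hLf)
        have h3 : 1 ≤ C * (ρ / ε) := by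
          have : 1 ≤ ρ / ε := (one_le_div hε).2 hερ
          nlinarith
        have h4 : Lf * (C * dist x y) ≤ Lf * (C * (C * (ρ / ε)) * dist x y) := by
          have : C ≤ C * (C * (ρ / ε)) := le_mul_of_one_le_right hC0.le h3
          gcongr
        calc ‖(Φ (T (P x)) - Φ (T (P y))) - (Φ (T x) - Φ (T y))‖
            ≤ ‖Φ (T (P x)) - Φ (T (P y))‖ + ‖Φ (T x) - Φ (T y)‖ := norm_sub_le _ _
          _ ≤ 2 * (Lf * (C * (C * (ρ / ε)) * dist x y)) := by linarith
          _ = 2 * Lf * C ^ 2 * b ^ 0 * (ρ / ε) * dist x y := by ring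
      have hs : ∀ x, ‖Φ (T (P x)) - Φ (T x)‖ ≤ Lf * C * C * (ρ / b ^ 0) := by
        intro x
        rw [pow_zero, div_one]
        exact hlast x
      have h := hi X N (fun x => Φ (T (P x)) - Φ (T x)) _ _ α ha ha1 (by positivity)
        (by positivity) hs hL x y
      refine h.trans ?_
      have ho := one (m := 0) (k := 0) (c1 := Lf * C * C)
        (c2 := 2 * Lf * C ^ 2) ha ha1 (by positivity) (by positivity) hρ hε hb (by
          push_cast
          linarith)
      exact mul_le_mul_of_nonneg_right ho (by positivity)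
    rw [htel x, htel y]
    have e : (∑ n ∈ Finset.range Kb, (Φ (W (n + 1) x) - Φ (W n x))) + (Φ (T (P x)) - Φ (T x)) -
        ((∑ n ∈ Finset.range Kb, (Φ (W (n + 1) y) - Φ (W n y))) + (Φ (T (P y)) - Φ (T y))) =
        (∑ n ∈ Finset.range Kb, ((Φ (W (n + 1) x) - Φ (W n x)) -
          (Φ (W (n + 1) y) - Φ (W n y)))) +
          ((Φ (T (P x)) - Φ (T x)) - (Φ (T (P y)) - Φ (T y))) := by
      rw [Finset.sum_sub_distrib (s := Finset.range Kb)
        (fun n => Φ (W (n + 1) x) - Φ (W n x)) (fun n => Φ (W (n + 1) y) - Φ (W n y))]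
      abel
    rw [e]
    have hdist0 : 0 ≤ dist x y ^ α := by positivity
    calc ‖(∑ n ∈ Finset.range Kb, ((Φ (W (n + 1) x) - Φ (W n x)) -
          (Φ (W (n + 1) y) - Φ (W n y)))) +
          ((Φ (T (P x)) - Φ (T x)) - (Φ (T (P y)) - Φ (T y)))‖
        ≤ ‖∑ n ∈ Finset.range Kb, ((Φ (W (n + 1) x) - Φ (W n x)) -
          (Φ (W (n + 1) y) - Φ (W n y)))‖ +
          ‖(Φ (T (P x)) - Φ (T x)) - (Φ (T (P y)) - Φ (T y))‖ := norm_add_le _ _
      _ ≤ (∑ n ∈ Finset.range Kb, cn n * Q * dist x y ^ α) + cl * Q * dist x y ^ α := by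
          refine add_le_add ((norm_sum_le _ _).trans ?_) hlastH
          exact Finset.sum_le_sum fun n hn => hterm n (Finset.mem_range.1 hn)
      _ = ((∑ n ∈ Finset.range Kb, cn n) + cl) * Q * dist x y ^ α := by
          rw [← Finset.sum_mul, ← Finset.sum_mul]
          ring
      _ ≤ _ := by
          refine mul_le_mul_of_nonneg_right ?_ hdist0
          refine mul_le_mul_of_nonneg_right ?_ hQ0
          have : 0 ≤ (Kb : ℝ) * (Lf * C) + Lf * C * C := by positivity
          linarith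

end Pool.MP74738e.Pos

end

section

/-!
# MP_74738e_an, item Itf: crossing gives itineraries
-/

namespace Pool.MP74738e.Pos

open Filter Topology Set Metric Pool.MP74738e
open scoped ENNReal NNReal

universe u

namespace ItfA

/-- points of `O` are mapped into `O` by all iterates -/
lemma iterate_mem {X : Type u} {O : Finset X} {R : X → X} (hR : ∀ p ∈ O, R p ∈ O) {p : X}
    (hp : p ∈ O) (i : ℕ) : R^[i] p ∈ O := by
  induction i with
  | zero => simpa using hp
  | succ i ih =>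
    rw [Function.iterate_succ_apply']
    exact hR _ ih

/-- the first path crosses the first box -/
lemma start {X : Type u} {d : ℕ} [NeZero d] (e : X → V d → X) {ε : ℝ} (hε : 0 < ε) (p : X)
    (z : V d) :
    PC e ε p z (fun τ => e p (Function.update z (ix d 0) (z (ix d 0) + τ))) (-ε) ε := by
  refine ⟨fun τ => Function.update z (ix d 0) (z (ix d 0) + τ), ?_, ?_, ?_, ?_, ?_⟩
  · apply Continuous.continuousOn
    exact continuous_const.update _ (continuous_const.add continuous_id)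
  · intro τ hτ
    refine ⟨rfl, ?_⟩
    rw [pi_norm_le_iff_of_nonneg hε.le]
    intro i
    by_cases hi : i = ix d 0
    · subst hi
      simp only [Pi.sub_apply, Function.update_self, add_sub_cancel_left, Real.norm_eq_abs]
      exact abs_le.2 ⟨hτ.1, hτ.2⟩
    · simp only [Pi.sub_apply, Function.update_of_ne hi, sub_self, norm_zero]
      exact hε.le
  · linarith
  · apply Continuous.continuousOn
    simp only [Function.update_self]
    exact continuous_const.add continuous_id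
  · left
    simp only [Function.update_self]
    constructor
    · linarith
    · linarith

end ItfA

theorem I_Itf : StItf.{u} := by
  intro X _ d _ O K r e _ ε W hε _ R F hR hC p hp w hw n
  have key : ∀ n : ℕ, ∃ s t,
      PC e ε (R^[n] p) (w n)
        (F^[n] ∘ fun τ => e p (Function.update (w 0) (ix d 0) (w 0 (ix d 0) + τ))) s t ∧
      ∀ τ ∈ Icc s t, ∀ i ≤ n, ∃ u, ‖u - w i‖ ≤ ε ∧ e (R^[i] p) u =
        F^[i] (e p (Function.update (w 0) (ix d 0) (w 0 (ix d 0) + τ))) := by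
    intro n
    induction n with
    | zero =>
      refine ⟨-ε, ε, ItfA.start e hε p (w 0), ?_⟩
      intro τ hτ i hi
      obtain rfl : i = 0 := Nat.le_zero.1 hi
      obtain ⟨x, _, hx, _⟩ := ItfA.start e hε p (w 0)
      exact ⟨x τ, (hx τ hτ).2, (hx τ hτ).1.symm⟩
    | succ n ih =>
      obtain ⟨s, t, hPC, hall⟩ := ih
      obtain ⟨s', t', hs, ht, hPC'⟩ := hC _ (ItfA.iterate_mem hR hp n) (w n) (hw n) (w (n + 1))
        (hw (n + 1)) _ s t hPC
      have hfun : (F ∘ (F^[n] ∘ fun τ =>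
          e p (Function.update (w 0) (ix d 0) (w 0 (ix d 0) + τ)))) =
          (F^[n + 1] ∘ fun τ => e p (Function.update (w 0) (ix d 0) (w 0 (ix d 0) + τ))) := by
        rw [Function.iterate_succ' F n, Function.comp_assoc]
      rw [hfun, ← Function.iterate_succ_apply' R n p] at hPC'
      refine ⟨s', t', hPC', ?_⟩
      intro τ hτ i hi
      rcases Nat.lt_or_ge n i with h | h
      · obtain rfl : i = n + 1 := by omega
        obtain ⟨x, _, hx, _⟩ := hPC'
        exact ⟨x τ, (hx τ hτ).2, (hx τ hτ).1.symm⟩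
      · exact hall τ ⟨hs.trans hτ.1, hτ.2.trans ht⟩ i h
  obtain ⟨s, t, hPC, hall⟩ := key n
  obtain ⟨x, _, _, hst, _⟩ := hPC
  exact ⟨_, hall s ⟨le_refl _, hst⟩⟩

end Pool.MP74738e.Pos

end

section

/-!
# MP_74738e_an, item C1b: change of the model space
-/

namespace Pool.MP74738e.Pos

open Filter Topology Set Metric Pool.MP74738e

universe u v

theorem I_Mod : StMod.{u, v} := by
  intro X _ E _ _ _ h x
  obtain ⟨φ, K, ρ, hK, hρ, hφ, hn⟩ := h x
  have hfr : Module.finrank ℝ E = Module.finrank ℝ (V (Module.finrank ℝ E)) := by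
    simp
  obtain ⟨A⟩ : Nonempty (E ≃L[ℝ] V (Module.finrank ℝ E)) :=
    ⟨ContinuousLinearEquiv.ofFinrankEq hfr⟩
  obtain ⟨C, hC, h1, h2⟩ : ∃ C : ℝ, 1 ≤ C ∧ (∀ a b, dist (A a) (A b) ≤ C * dist a b) ∧
      ∀ a b, dist a b ≤ C * dist (A a) (A b) := by
    refine ⟨max 1 (max ‖(A : E →L[ℝ] V (Module.finrank ℝ E))‖
      ‖(A.symm : V (Module.finrank ℝ E) →L[ℝ] E)‖), le_max_left _ _, ?_, ?_⟩
    · intro a b
      have h3 := (A : E →L[ℝ] V (Module.finrank ℝ E)).le_opNorm (a - b)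
      rw [dist_eq_norm, dist_eq_norm, ← map_sub]
      refine le_trans h3 (mul_le_mul_of_nonneg_right ?_ (norm_nonneg _))
      exact le_trans (le_max_left _ _) (le_max_right _ _)
    · intro a b
      have h3 := (A.symm : V (Module.finrank ℝ E) →L[ℝ] E).le_opNorm (A a - A b)
      have h4 : (A.symm : V (Module.finrank ℝ E) →L[ℝ] E) (A a - A b) = a - b := by
        simp
      rw [h4] at h3
      rw [dist_eq_norm, dist_eq_norm]
      refine le_trans h3 (mul_le_mul_of_nonneg_right ?_ (norm_nonneg _))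
      exact le_trans (le_max_right _ _) (le_max_right _ _)
  have hC0 : 0 ≤ C := le_trans zero_le_one hC
  refine ⟨fun y => A (φ y), K * C, ρ, ?_, hρ, ?_, ?_⟩
  · nlinarith
  · intro y hy z hz
    obtain ⟨h5, h6⟩ := hφ y hy z hz
    constructor
    · calc dist (A (φ y)) (A (φ z)) ≤ C * dist (φ y) (φ z) := h1 _ _
        _ ≤ C * (K * dist y z) := mul_le_mul_of_nonneg_left h5 hC0
        _ = K * C * dist y z := by ring
    · calc dist y z ≤ K * dist (φ y) (φ z) := h6
        _ ≤ K * (C * dist (A (φ y)) (A (φ z))) :=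
          mul_le_mul_of_nonneg_left (h2 _ _) (le_trans zero_le_one hK)
        _ = K * C * dist (A (φ y)) (A (φ z)) := by ring
  · have h7 : (fun y => A (φ y)) '' ball x ρ = A '' (φ '' ball x ρ) := by
      rw [image_image]
    rw [h7]
    exact A.toHomeomorph.isOpenMap.image_mem_nhds hn

end Pool.MP74738e.Pos

end

section

/-!
# MP_74738e_an, item Sub: crossing an interval exactly
-/

namespace Pool.MP74738e.Pos

open Filter Topology Set Metric Pool.MP74738e
open scoped ENNReal NNReal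

namespace SubC

theorem up (f : ℝ → ℝ) (s t a b : ℝ) (hst : s ≤ t) (hf : ContinuousOn f (Icc s t))
    (hs : f s ≤ a) (ht : b ≤ f t) (hab : a ≤ b) :
    ∃ s' t', s ≤ s' ∧ s' ≤ t' ∧ t' ≤ t ∧ f s' = a ∧ f t' = b ∧
      ∀ τ ∈ Icc s' t', a ≤ f τ ∧ f τ ≤ b := by
  -- the first time with `f ≥ b`
  have hc1 : IsCompact (Icc s t ∩ f ⁻¹' Ici b) :=
    isCompact_Icc.of_isClosed_subset (hf.preimage_isClosed_of_isClosed isClosed_Icc isClosed_Ici)
      inter_subset_left
  have hn1 : (Icc s t ∩ f ⁻¹' Ici b).Nonempty := ⟨t, ⟨hst, le_refl t⟩, ht⟩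
  obtain ⟨t', ⟨⟨h1, h2⟩, h3⟩, h4⟩ := hc1.exists_isLeast hn1
  have h3' : b ≤ f t' := h3
  have hf1 : ContinuousOn f (Icc s t') := hf.mono (Icc_subset_Icc_right h2)
  have h5 : f t' = b := by
    obtain ⟨τ, hτ, hτb⟩ := intermediate_value_Icc h1 hf1 ⟨hs.trans hab, h3'⟩
    have h6 : t' ≤ τ := h4 ⟨⟨hτ.1, hτ.2.trans h2⟩, hτb.ge⟩
    rw [le_antisymm h6 hτ.2, hτb]
  -- the last time with `f ≤ a`
  have hc2 : IsCompact (Icc s t' ∩ f ⁻¹' Iic a) :=
    isCompact_Icc.of_isClosed_subset (hf1.preimage_isClosed_of_isClosed isClosed_Icc isClosed_Iic)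
      inter_subset_left
  have hn2 : (Icc s t' ∩ f ⁻¹' Iic a).Nonempty := ⟨s, ⟨le_refl s, h1⟩, hs⟩
  obtain ⟨s', ⟨⟨g1, g2⟩, g3⟩, g4⟩ := hc2.exists_isGreatest hn2
  have g3' : f s' ≤ a := g3
  have hf2 : ContinuousOn f (Icc s' t') := hf1.mono (Icc_subset_Icc_left g1)
  have g5 : f s' = a := by
    obtain ⟨τ, hτ, hτa⟩ := intermediate_value_Icc g2 hf2 ⟨g3', hab.trans h5.ge⟩
    have g6 : τ ≤ s' := g4 ⟨⟨g1.trans hτ.1, hτ.2⟩, hτa.le⟩
    rw [le_antisymm hτ.1 g6, hτa]
  refine ⟨s', t', g1, g2, h2, g5, h5, fun τ hτ => ⟨?_, ?_⟩⟩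
  · by_contra hcon
    have g6 : τ ≤ s' := g4 ⟨⟨g1.trans hτ.1, hτ.2⟩, (not_le.1 hcon).le⟩
    apply hcon
    rw [le_antisymm g6 hτ.1, g5]
  · by_contra hcon
    have h6 : t' ≤ τ := h4 ⟨⟨g1.trans hτ.1, hτ.2.trans h2⟩, (not_le.1 hcon).le⟩
    apply hcon
    rw [le_antisymm hτ.2 h6, h5]

end SubC

theorem I_Sub : StSub := by
  rintro f s t a b ⟨hst, hf, h | h⟩ hab
  · obtain ⟨s', t', h1, h2, h3, h4, h5, h6⟩ := SubC.up f s t a b hst hf h.1 h.2 hab
    exact ⟨s', t', h1, h2, h3, Or.inl ⟨h4, h5⟩, h6⟩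
  · obtain ⟨s', t', h1, h2, h3, h4, h5, h6⟩ := SubC.up (fun τ => -f τ) s t (-b) (-a) hst hf.neg
      (neg_le_neg h.2) (neg_le_neg h.1) (neg_le_neg hab)
    refine ⟨s', t', h1, h2, h3, Or.inr ⟨neg_injective h4, neg_injective h5⟩, fun τ hτ => ?_⟩
    exact ⟨neg_le_neg_iff.1 (h6 τ hτ).2, neg_le_neg_iff.1 (h6 τ hτ).1⟩

end Pool.MP74738e.Pos

end

section

/-!
# Item Up: upper bound for Hölder maps
-/

namespace Pool.MP74738e.Pos

open Filter Topology Set Metric Pool.MP74738e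
open scoped ENNReal NNReal

universe u

namespace Up

variable {X : Type u} [MetricSpace X]

open Classical in
/-- the codes of `T x` for the points `x` with the code `b0` -/
lemma step {d : ℕ} {A α C ε : ℝ} (hA : Packing A d X) (hα : 0 < α) (hα1 : α < 1)
    (hC : 1 ≤ C) {T : X → X} (hT : ∀ x y, dist (T x) (T y) ≤ C * dist x y ^ α) (hε : 0 < ε)
    (hε1 : ε ≤ 1) (P : Finset X) (c : X → X) (hc : ∀ x, dist x (c x) ≤ ε)
    (hP : ∀ y ∈ P, ∀ z ∈ P, y ≠ z → ε ≤ dist y z) (b0 : X) :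
    (((P.filter (fun p => ∃ x, c x = b0 ∧ c (T x) = p)).card : ℕ) : ℝ) ≤
      A * (2 * C * ε ^ α / ε) ^ d := by
  have h1 : ε ≤ ε ^ α := by
    conv_lhs => rw [← Real.rpow_one ε]
    exact Real.rpow_le_rpow_of_exponent_ge hε hε1 hα1.le
  have h2 : ε ^ α ≤ C * ε ^ α := by
    have : 0 ≤ ε ^ α := (Real.rpow_pos_of_pos hε α).le
    nlinarith
  refine hA (T b0) ε (2 * C * ε ^ α) hε (by nlinarith) _ ?_ ?_
  · intro y hy
    obtain ⟨_, x, hx, rfl⟩ := Finset.mem_filter.mp hy
    have h3 : dist (T x) (T b0) ≤ C * ε ^ α := by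
      refine (hT x b0).trans ?_
      have : dist x b0 ≤ ε := by rw [← hx]; exact hc x
      gcongr
    have h4 : dist (c (T x)) (T x) ≤ ε := by rw [dist_comm]; exact hc (T x)
    have := dist_triangle (c (T x)) (T x) (T b0)
    linarith
  · intro y hy z hz
    exact hP y (Finset.mem_filter.mp hy).1 z (Finset.mem_filter.mp hz).1

lemma ent [CompactSpace X] [Nonempty X] {d : ℕ} {A α C : ℝ} (hA : Packing A d X) (hα : 0 < α)
    (hα1 : α < 1) (hC : 1 ≤ C) {T : X → X}
    (hT : ∀ x y, dist (T x) (T y) ≤ C * dist x y ^ α) {ε : ℝ} (hε : 0 < ε) (hε1 : ε ≤ 1) :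
    scaleEntropy T (2 * ε) ≤
      ((Real.log (A * (2 * C) ^ d) + (1 - α) * d * |Real.log ε| : ℝ) : EReal) := by
  classical
  obtain ⟨P, c, hcP, hc, hPsep⟩ := hA.exists_net hε
  have hstep := step hA hα hα1 hC hT hε hε1 P c hc hPsep
  set S : X → Finset X := fun b0 => P.filter (fun p => ∃ x, c x = b0 ∧ c (T x) = p) with hS
  set N : ℕ := ⌊A * (2 * C * ε ^ α / ε) ^ d⌋₊ with hN
  have hSN : ∀ b0, (S b0).card ≤ N := fun b0 => Nat.le_floor (hstep b0)
  obtain ⟨x0⟩ := ‹Nonempty X›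
  have hN1 : 1 ≤ N := by
    refine le_trans ?_ (hSN (c x0))
    exact Finset.card_pos.mpr ⟨c (T x0), Finset.mem_filter.mpr ⟨hcP _, x0, rfl, rfl⟩⟩
  have hN1' : (1 : ℝ) ≤ N := by exact_mod_cast hN1
  have hBcount : ∀ b0 ∈ P, ((P ×ˢ P).filter
      (fun q => ∃ x, c x = b0 ∧ c (T x) = q.1 ∧ c (T (T x)) = q.2)).card ≤ N * N := by
    intro b0 _
    calc ((P ×ˢ P).filter
        (fun q => ∃ x, c x = b0 ∧ c (T x) = q.1 ∧ c (T (T x)) = q.2)).card
        ≤ ((S b0).biUnion (fun q1 => (S q1).image (fun q2 => (q1, q2)))).card := by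
          apply Finset.card_le_card
          intro q hq
          obtain ⟨h1, x, h2, h3, h4⟩ := Finset.mem_filter.mp hq
          obtain ⟨h5, h6⟩ := Finset.mem_product.mp h1
          refine Finset.mem_biUnion.mpr ⟨q.1, Finset.mem_filter.mpr ⟨h5, x, h2, h3⟩, ?_⟩
          exact Finset.mem_image.mpr ⟨q.2, Finset.mem_filter.mpr ⟨h6, T x, h3, h4⟩, rfl⟩
      _ ≤ (S b0).card * N := by
          apply Finset.card_biUnion_le_card_mul
          intro q1 _
          exact Finset.card_image_le.trans (hSN q1)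
      _ ≤ N * N := Nat.mul_le_mul_right N (hSN b0)
  have hP1 : 1 ≤ P.card := Finset.card_pos.mpr ⟨c x0, hcP x0⟩
  refine (scaleEntropy_le T (2 * ε) P.card (N * N) hP1 (Nat.mul_le_mul hN1 hN1)
    (sepNum_le T ε P c hcP hc (N * N) hBcount)).trans ?_
  have hpos : 0 < A * (2 * C * ε ^ α / ε) ^ d := by
    by_contra hcon
    have h0 : N = 0 := by
      rw [hN]; exact Nat.floor_eq_zero.mpr (lt_of_le_of_lt (not_lt.mp hcon) one_pos)
    omega
  have hfl : (N : ℝ) ≤ A * (2 * C * ε ^ α / ε) ^ d := Nat.floor_le hpos.le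
  have hεα : 0 < ε ^ α := Real.rpow_pos_of_pos hε α
  have hq : 0 < (2 * C * ε ^ α / ε) ^ d := by positivity
  have hApos : 0 < A := by
    by_contra hcon
    have : A * (2 * C * ε ^ α / ε) ^ d ≤ 0 := mul_nonpos_of_nonpos_of_nonneg (not_lt.mp hcon) hq.le
    linarith
  have hlogN : Real.log N ≤ Real.log (A * (2 * C) ^ d) + (1 - α) * d * |Real.log ε| := by
    calc Real.log N ≤ Real.log (A * (2 * C * ε ^ α / ε) ^ d) :=
          Real.log_le_log (by linarith) hfl
      _ = Real.log ((A * (2 * C) ^ d) * (ε ^ α / ε) ^ d) := by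
          rw [show 2 * C * ε ^ α / ε = (2 * C) * (ε ^ α / ε) by ring, mul_pow, ← mul_assoc]
      _ = Real.log (A * (2 * C) ^ d) + d * (α * Real.log ε - Real.log ε) := by
          rw [Real.log_mul (by positivity) (by positivity), Real.log_pow,
            Real.log_div hεα.ne' hε.ne', Real.log_rpow hε]
      _ = Real.log (A * (2 * C) ^ d) + (1 - α) * d * |Real.log ε| := by
          rw [abs_of_nonpos (Real.log_nonpos hε.le hε1)]
          ring
  have hlogB : Real.log ((N * N : ℕ) : ℝ) / 2 = Real.log N := by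
    push_cast
    rw [Real.log_mul (by positivity) (by positivity)]
    ring
  rw [hlogB]
  exact_mod_cast hlogN

end Up

theorem I_Up : StUp.{u} := by
  intro X _ _ _ d A α C hA hα hα1 T hT
  have hT' : ∀ x y, dist (T x) (T y) ≤ max C 1 * dist x y ^ α := fun x y =>
    (hT x y).trans (mul_le_mul_of_nonneg_right (le_max_left _ _)
      (Real.rpow_nonneg dist_nonneg _))
  set C' := max C 1 with hC'
  have hC1 : 1 ≤ C' := le_max_right _ _
  refine upperMdim_le (K := Real.log (A * (2 * C') ^ d) + (1 - α) * d * Real.log 2) ?_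
  have h3 : ∀ᶠ δ : ℝ in 𝓝[>] 0, δ < 1 :=
    Filter.Tendsto.eventually_lt_const one_pos (tendsto_id.mono_left nhdsWithin_le_nhds)
  filter_upwards [h3, self_mem_nhdsWithin] with δ h6 h7
  have hδ : (0 : ℝ) < δ := h7
  have h8 := Up.ent hA hα hα1 hC1 hT' (show (0 : ℝ) < δ / 2 by linarith) (by linarith)
  rw [mul_div_cancel₀ δ (two_ne_zero)] at h8
  refine h8.trans ?_
  have h9 : |Real.log (δ / 2)| = |Real.log δ| + Real.log 2 := by
    rw [Real.log_div hδ.ne' two_ne_zero, abs_of_nonpos, abs_of_nonpos]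
    · ring
    · exact Real.log_nonpos hδ.le h6.le
    · have := Real.log_nonpos hδ.le h6.le
      have := Real.log_nonneg (show (1 : ℝ) ≤ 2 by norm_num)
      linarith
  rw [h9]
  apply le_of_eq
  congr 1
  ring

end Pool.MP74738e.Pos

end

section

set_option autoImplicit false

namespace Pool.MP74738e.Pos

open Filter Topology Set Metric Pool.MP74738e
open scoped ENNReal NNReal

namespace Xi

/-- truncation is `1`-Lipschitz -/
theorem trunc (c a b : ℝ) : |max (-c) (min a c) - max (-c) (min b c)| ≤ |a - b| := by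
  have h1 : |max (-c) (min a c) - max (-c) (min b c)| ≤ |min a c - min b c| := by
    have := abs_max_sub_max_le_max (-c) (min a c) (-c) (min b c)
    simpa using this
  have h2 : |min a c - min b c| ≤ |a - b| := by
    have := abs_min_sub_min_le_max a c b c
    simpa using this
  exact h1.trans h2

theorem trunc_eq (c a : ℝ) (h : |a| ≤ c) : max (-c) (min a c) = a := by
  have := abs_le.1 h
  rw [min_eq_left this.2, max_eq_right this.1]

theorem trunc_le (c a : ℝ) (hc : 0 ≤ c) : |max (-c) (min a c)| ≤ c :=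
  abs_le.2 ⟨le_max_left _ _, max_le (by linarith) (min_le_right _ _)⟩

theorem sign (a b : ℝ) : ∃ l : ℝ, (l = 1 ∨ l = -1) ∧ |b| ≤ |a + l * b| := by
  rcases le_total 0 a with ha | ha <;> rcases le_total 0 b with hb | hb
  · refine ⟨1, Or.inl rfl, ?_⟩
    rw [abs_of_nonneg hb, abs_of_nonneg (by linarith)]; linarith
  · refine ⟨-1, Or.inr rfl, ?_⟩
    rw [abs_of_nonpos hb, abs_of_nonneg (by linarith)]; linarith
  · refine ⟨-1, Or.inr rfl, ?_⟩
    rw [abs_of_nonneg hb, abs_of_nonpos (by linarith)]; linarith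
  · refine ⟨1, Or.inl rfl, ?_⟩
    rw [abs_of_nonpos hb, abs_of_nonpos (by linarith)]; linarith

/-- the alternatives -/
theorem alt (A B τ e : ℝ) (hτ : 8 * e ≤ |τ|) (hA : |A - τ| ≤ 2 * e) (hB : |B + τ| ≤ 2 * e)
    (he : 0 ≤ e) : (A ≤ -(4 * e) ∧ 4 * e ≤ B) ∨ (B ≤ -(4 * e) ∧ 4 * e ≤ A) := by
  have h1 := abs_le.1 hA
  have h2 := abs_le.1 hB
  rcases le_total 0 τ with h | h
  · rw [abs_of_nonneg h] at hτ
    right; constructor <;> linarith
  · rw [abs_of_nonpos h] at hτ
    left; constructor <;> linarith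

end Xi

theorem I_Xi : StXi := by
  intro d _ hd M ρ q hM hρ hq1 hq2
  have hM0 : 0 < M := by linarith
  set e : ℝ := ρ / (64 * M) with he
  have he0 : 0 < e := by positivity
  have e4 : ρ / (4 * M) = 16 * e := by rw [he]; field_simp; norm_num
  have e16 : ρ / (16 * M) = 4 * e := by rw [he]; field_simp; norm_num
  have heM : e ≤ M * ρ := by
    rw [he, div_le_iff₀ (by positivity)]
    nlinarith [mul_pos hM0 hρ, mul_le_mul_of_nonneg_right hM hρ.le,
      mul_le_mul_of_nonneg_left hM (mul_pos hM0 hρ).le]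
  have hMρ : 0 < M * ρ := by positivity
  rw [e4] at hq1
  rw [e16]
  obtain ⟨i, hi⟩ : ∃ i, 16 * e ≤ |q i| := by
    by_contra hcon
    push Not at hcon
    have : ‖q‖ < 16 * e := (pi_norm_lt_iff (by positivity)).2 fun i => by
      rw [Real.norm_eq_abs]; exact hcon i
    linarith
  have hqi : ∀ j, |q j| ≤ M * ρ := fun j => by
    have := norm_le_pi_norm q j
    rw [Real.norm_eq_abs] at this
    linarith
  have hu : ∀ (u : V d), ‖u‖ ≤ e → ∀ j, |u j| ≤ e := fun u h j => by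
    have := norm_le_pi_norm u j
    rw [Real.norm_eq_abs] at this
    linarith
  have hv : ∀ (v : V d), ‖v - q‖ ≤ e → ∀ j, |v j - q j| ≤ e := fun v h j => by
    have := norm_le_pi_norm (v - q) j
    rw [Real.norm_eq_abs, Pi.sub_apply] at this
    linarith
  by_cases hi1 : i = ix d 1
  · refine ⟨ix d 1, fun _ => -(q i) / 2, ⟨Or.inr fun _ _ => rfl, fun _ => ?_, fun s t => ?_⟩, ?_⟩
    · have h1 := abs_le.1 (hqi i)
      rw [abs_le]; constructor <;> linarith
    · rw [sub_self, abs_zero]; exact abs_nonneg _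
    · intro u v h1 h2
      have h3 := abs_le.1 (hu u h1 (ix d 1))
      have h4 := abs_le.1 (hv v h2 (ix d 1))
      refine Xi.alt _ _ (-(q i) / 2) e ?_ ?_ ?_ he0.le
      · rw [abs_div, abs_neg, abs_two]; linarith
      · rw [abs_le]; constructor <;> linarith
      · rw [hi1, abs_le]; constructor <;> linarith
  · obtain ⟨l, hl, hl2⟩ := Xi.sign (q (ix d 1)) (q i)
    set τ : ℝ := -(q (ix d 1) + l * q i) / 2 with hτ
    have hlabs : |l| = 1 := by rcases hl with h | h <;> rw [h] <;> norm_num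
    have hτ1 : 8 * e ≤ |τ| := by
      rw [hτ, abs_div, abs_neg, abs_two]; linarith
    have hτ2 : |τ| ≤ M * ρ := by
      rw [hτ, abs_div, abs_neg, abs_two]
      have h1 : |q (ix d 1) + l * q i| ≤ |q (ix d 1)| + |l * q i| := abs_add_le _ _
      rw [abs_mul, hlabs, one_mul] at h1
      have := hqi i
      have := hqi (ix d 1)
      linarith
    refine ⟨i, fun t => l * max (-(3 * (M * ρ))) (min t (3 * (M * ρ))) + τ,
      ⟨Or.inl hi1, fun t => ?_, fun s t => ?_⟩, ?_⟩
    · have h1 := abs_add_le (l * max (-(3 * (M * ρ))) (min t (3 * (M * ρ)))) τ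
      rw [abs_mul, hlabs, one_mul] at h1
      have h2 := Xi.trunc_le (3 * (M * ρ)) t (by positivity)
      have h3 : 4 * M * ρ = 4 * (M * ρ) := by ring
      rw [h3]
      linarith
    · have h1 : (l * max (-(3 * (M * ρ))) (min s (3 * (M * ρ))) + τ) -
          (l * max (-(3 * (M * ρ))) (min t (3 * (M * ρ))) + τ) =
          l * (max (-(3 * (M * ρ))) (min s (3 * (M * ρ))) -
            max (-(3 * (M * ρ))) (min t (3 * (M * ρ)))) := by ring
      show |(l * max (-(3 * (M * ρ))) (min s (3 * (M * ρ))) + τ) -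
          (l * max (-(3 * (M * ρ))) (min t (3 * (M * ρ))) + τ)| ≤ |s - t|
      rw [h1, abs_mul, hlabs, one_mul]
      exact Xi.trunc _ _ _
    · intro u v h1 h2
      have h3 := hu u h1 (ix d 1)
      have h4 := hv v h2 (ix d 1)
      have h5 := hu u h1 i
      have h6 := hv v h2 i
      have h7 : |v i| ≤ 3 * (M * ρ) := by
        have h8 : |v i| ≤ |v i - q i| + |q i| := by
          have := abs_add_le (v i - q i) (q i)
          simpa using this
        have := hqi i
        linarith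
      show (u (ix d 1) + (l * max (-(3 * (M * ρ))) (min (u i) (3 * (M * ρ))) + τ) ≤ _ ∧
        _ ≤ v (ix d 1) + (l * max (-(3 * (M * ρ))) (min (v i) (3 * (M * ρ))) + τ)) ∨
        (v (ix d 1) + (l * max (-(3 * (M * ρ))) (min (v i) (3 * (M * ρ))) + τ) ≤ _ ∧
        _ ≤ u (ix d 1) + (l * max (-(3 * (M * ρ))) (min (u i) (3 * (M * ρ))) + τ))
      rw [Xi.trunc_eq _ (u i) (by linarith), Xi.trunc_eq _ (v i) h7]
      refine Xi.alt _ _ τ e hτ1 ?_ ?_ he0.le
      · have h8 : u (ix d 1) + (l * u i + τ) - τ = u (ix d 1) + l * u i := by ring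
        rw [h8]
        have h9 := abs_add_le (u (ix d 1)) (l * u i)
        rw [abs_mul, hlabs, one_mul] at h9
        linarith
      · have h8 : v (ix d 1) + (l * v i + τ) + τ =
            (v (ix d 1) - q (ix d 1)) + l * (v i - q i) := by rw [hτ]; ring
        rw [h8]
        have h9 := abs_add_le (v (ix d 1) - q (ix d 1)) (l * (v i - q i))
        rw [abs_mul, hlabs, one_mul] at h9
        linarith

end Pool.MP74738e.Pos

end

section

namespace Pool.MP74738e.Pos

namespace Zig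

/-- distance to the integers -/
noncomputable def dd (x : ℝ) : ℝ := |x - round x|

lemma dd_nonneg (x : ℝ) : 0 ≤ dd x := abs_nonneg _

lemma dd_le (x : ℝ) : dd x ≤ 1 / 2 := abs_sub_round x

lemma dd_le_add (x y : ℝ) : dd x ≤ dd y + |x - y| := by
  unfold dd
  have h1 : |x - round x| ≤ |x - round y| := round_le x (round y)
  have h2 : |x - round y| ≤ |x - y| + |y - round y| := abs_sub_le x y _
  linarith

lemma dd_sub (x y : ℝ) : |dd x - dd y| ≤ |x - y| := by
  rw [abs_le]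
  have h1 := dd_le_add x y
  have h2 := dd_le_add y x
  rw [abs_sub_comm y x] at h2
  constructor <;> linarith

lemma dd_int (k : ℤ) : dd (k : ℝ) = 0 := by
  unfold dd
  simp

lemma dd_half (k : ℤ) : dd ((k : ℝ) + 1 / 2) = 1 / 2 := by
  apply le_antisymm (dd_le _)
  unfold dd
  set n : ℤ := round ((k : ℝ) + 1 / 2)
  rcases le_or_gt n k with h | h
  · have h' : (n : ℝ) ≤ (k : ℝ) := by exact_mod_cast h
    rw [le_abs]
    left
    linarith
  · have h' : (k : ℝ) + 1 ≤ (n : ℝ) := by exact_mod_cast h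
    rw [le_abs]
    right
    linarith

lemma zig_eq (p A t : ℝ) : zig p A t = A * (4 * dd (t / p) - 1) := rfl

end Zig

open Zig in
theorem I_Zig : StZig := by
  intro p A hp hA
  refine ⟨?_, ?_, ?_, ?_⟩
  · intro t
    rw [zig_eq, abs_mul, abs_of_nonneg hA]
    have h1 := dd_nonneg (t / p)
    have h2 := dd_le (t / p)
    have h3 : |4 * dd (t / p) - 1| ≤ 1 := by
      rw [abs_le]
      constructor <;> linarith
    calc A * |4 * dd (t / p) - 1| ≤ A * 1 := mul_le_mul_of_nonneg_left h3 hA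
      _ = A := mul_one A
  · intro s t
    rw [zig_eq, zig_eq]
    have h0 : A * (4 * dd (s / p) - 1) - A * (4 * dd (t / p) - 1)
        = 4 * A * (dd (s / p) - dd (t / p)) := by ring
    rw [h0, abs_mul, abs_of_nonneg (by linarith : (0 : ℝ) ≤ 4 * A)]
    have h1 := dd_sub (s / p) (t / p)
    have h2 : |s / p - t / p| = |s - t| / p := by
      rw [← sub_div, abs_div, abs_of_pos hp]
    rw [h2] at h1
    calc 4 * A * |dd (s / p) - dd (t / p)| ≤ 4 * A * (|s - t| / p) :=
          mul_le_mul_of_nonneg_left h1 (by linarith)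
      _ = 4 * A / p * |s - t| := by ring
  · intro k
    rw [zig_eq, mul_div_assoc, div_self hp.ne', mul_one, dd_int]
    ring
  · intro k
    have h1 : ((k : ℝ) * p + p / 2) / p = (k : ℝ) + 1 / 2 := by
      field_simp
    rw [zig_eq, h1, dd_half]
    ring

end Pool.MP74738e.Pos

end
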